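import Pool.Agent.Helper24.DS.Base

/-!
# Dimension spectra of polynomial graphs: module Codes
-/

set_option autoImplicit false

namespace Pool.Agent.Helper24.DS

open Filter Set

theorem length_bitsk (k i : ℕ) : (bitsk k i).length = k := by simp [bitsk]

theorem length_sd (n : ℕ) : (sd n).length = 2 * Nat.size n + 1 := by
  simp only [sd, List.length_append, List.length_replicate, List.length_cons, length_bitsk]
  ring

theorem length_cw (par k i : ℕ) :
    (cw par k i).length = 2 * Nat.size par + 2 * Nat.size k + 2 + k := by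
  simp only [cw, List.length_append, length_sd, length_bitsk]
  ring

theorem Codes_bitsk_inj {k i i' : ℕ} (hi : i < 2 ^ k) (hi' : i' < 2 ^ k)
    (h : bitsk k i = bitsk k i') : i = i' := by
  refine Nat.eq_of_testBit_eq fun j => ?_
  rcases lt_or_ge j k with hj | hj
  · have h1 : j < (bitsk k i).length := by rwa [length_bitsk]
    have h2 : j < (bitsk k i').length := by rwa [length_bitsk]
    have h3 : (bitsk k i)[j] = (bitsk k i')[j] := by simp only [h]
    simp only [bitsk, List.getElem_map, List.getElem_range] at h3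
    rw [Nat.testBit_eq_decide_div_mod_eq, Nat.testBit_eq_decide_div_mod_eq]
    exact h3
  · have hk : 2 ^ k ≤ 2 ^ j := Nat.pow_le_pow_right (by norm_num) hj
    rw [Nat.testBit_lt_two_pow (hi.trans_le hk), Nat.testBit_lt_two_pow (hi'.trans_le hk)]

theorem Codes_repl {X Y : List Bool} : ∀ {k k' : ℕ},
    List.replicate k true ++ false :: X <+: List.replicate k' true ++ false :: Y →
      k = k' ∧ X <+: Y := by
  intro k
  induction k with
  | zero =>
    intro k' h
    cases k' with
    | zero =>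
      rw [List.replicate_zero, List.nil_append, List.nil_append, List.cons_prefix_cons] at h
      exact ⟨rfl, h.2⟩
    | succ k' =>
      rw [List.replicate_zero, List.nil_append, List.replicate_succ, List.cons_append,
        List.cons_prefix_cons] at h
      exact absurd h.1 (by decide)
  | succ k ih =>
    intro k' h
    cases k' with
    | zero =>
      rw [List.replicate_zero, List.nil_append, List.replicate_succ, List.cons_append,
        List.cons_prefix_cons] at h
      exact absurd h.1 (by decide)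
    | succ k' =>
      rw [List.replicate_succ, List.replicate_succ, List.cons_append, List.cons_append,
        List.cons_prefix_cons] at h
      obtain ⟨h1, h2⟩ := ih h.2
      exact ⟨by rw [h1], h2⟩

theorem Codes_app {u v a b : List Bool} (hl : u.length = v.length) (h : u ++ a <+: v ++ b) :
    u = v ∧ a <+: b := by
  obtain ⟨t, ht⟩ := h
  rw [List.append_assoc] at ht
  obtain ⟨h1, h2⟩ := List.append_inj ht hl
  exact ⟨h1, t, h2⟩

theorem sd_prefix {n m : ℕ} {a b : List Bool} (h : sd n ++ a <+: sd m ++ b) :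
    n = m ∧ a <+: b := by
  rw [sd, sd, List.append_assoc, List.append_assoc, List.cons_append, List.cons_append] at h
  obtain ⟨h1, h2⟩ := Codes_repl h
  obtain ⟨h3, h4⟩ := Codes_app (by rw [length_bitsk, length_bitsk, h1]) h2
  rw [← h1] at h3
  refine ⟨Codes_bitsk_inj (Nat.lt_size_self n) ?_ h3, h4⟩
  rw [h1]
  exact Nat.lt_size_self m

theorem cw_prefix {par k i par' k' i' : ℕ} (hi : i < 2 ^ k) (hi' : i' < 2 ^ k')
    (h : cw par k i <+: cw par' k' i') : par = par' ∧ k = k' ∧ i = i' := by
  rw [cw, cw] at h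
  obtain ⟨h1, h2⟩ := sd_prefix h
  obtain ⟨h3, h4⟩ := sd_prefix h2
  subst h3
  have h5 := h4.eq_of_length (by rw [length_bitsk, length_bitsk])
  exact ⟨h1, rfl, Codes_bitsk_inj hi hi' h5⟩

theorem size_pair_le (a b : ℕ) : Nat.size (Nat.pair a b) ≤ 2 * max (Nat.size a) (Nat.size b) := by
  rw [Nat.size_le]
  have ha : a < 2 ^ max (Nat.size a) (Nat.size b) := by
    rw [← Nat.size_le]; exact le_max_left _ _
  have hb : b < 2 ^ max (Nat.size a) (Nat.size b) := by
    rw [← Nat.size_le]; exact le_max_right _ _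
  have h1 := Nat.pair_lt_max_add_one_sq a b
  have h2 : max a b + 1 ≤ 2 ^ max (Nat.size a) (Nat.size b) := max_lt ha hb
  calc Nat.pair a b < (max a b + 1) ^ 2 := h1
    _ ≤ (2 ^ max (Nat.size a) (Nat.size b)) ^ 2 := Nat.pow_le_pow_left h2 2
    _ = 2 ^ (2 * max (Nat.size a) (Nat.size b)) := by rw [← pow_mul, mul_comm]

theorem size_small (c E : ℕ) : ∃ R : ℕ, ∀ r : ℕ, R ≤ r → E * (c * (Nat.size r + 1)) ≤ r := by
  set C := E * c with hC
  refine ⟨2 ^ (4 * C + 5), fun r hr => ?_⟩
  have hs : 4 * C + 5 < Nat.size r := Nat.lt_size.2 hr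
  obtain ⟨m, hm⟩ : ∃ m, Nat.size r = m + 1 := ⟨Nat.size r - 1, by omega⟩
  have hmr : 2 ^ m ≤ r := Nat.lt_size.1 (by omega)
  rw [← mul_assoc, ← hC, hm]
  refine le_trans ?_ hmr
  obtain ⟨q, p, hq, hqC, hp⟩ : ∃ q p : ℕ, m = q + p ∧ 2 * C ≤ q ∧ m + 2 ≤ 2 * (p + 1) :=
    ⟨m / 2, m - m / 2, by omega, by omega, by omega⟩
  have h1 : 2 * C ≤ 2 ^ q := hqC.trans (Nat.lt_two_pow_self).le
  have h2 : p + 1 ≤ 2 ^ p := Nat.lt_two_pow_self
  calc C * (m + 1 + 1) ≤ C * (2 * (p + 1)) := Nat.mul_le_mul_left _ (by omega)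
    _ = (2 * C) * (p + 1) := by ring
    _ ≤ 2 ^ q * 2 ^ p := Nat.mul_le_mul h1 h2
    _ = 2 ^ m := by rw [← pow_add, hq]

end Pool.Agent.Helper24.DS
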