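import Pool.Agent.Helper24.DS.Step

/-!
# Dimension spectra of polynomial graphs: module Assembly
-/

set_option autoImplicit false

namespace Pool.Agent.Helper24.DS

open Filter Set

section Assembly

variable {G : ℕ → ℝ → ℕ} {M : ℕ → ℕ → ℕ → ℕ} {c : ℕ}

/-- the approximating parameters -/
noncomputable def Assembly_S (s : ℝ) (j : ℕ) : ℝ := s + (1 / ((j : ℝ) + 2)) * (1 / 2 - s)

theorem Assembly_S_pos {s : ℝ} (hs0 : 0 ≤ s) (j : ℕ) : 0 < Assembly_S s j := by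
  unfold Assembly_S
  have hj : (0 : ℝ) ≤ j := Nat.cast_nonneg _
  have h1 : 0 < 1 / ((j : ℝ) + 2) := by positivity
  have h2 : 1 / ((j : ℝ) + 2) ≤ 1 := by
    rw [div_le_one (by positivity)]; linarith
  nlinarith

theorem Assembly_S_lt {s : ℝ} (hs1 : s ≤ 1) (j : ℕ) :
    Assembly_S s j ≤ 1 - (1 / ((j : ℝ) + 2)) / 2 := by
  unfold Assembly_S
  have hj : (0 : ℝ) ≤ j := Nat.cast_nonneg _
  have h1 : 0 < 1 / ((j : ℝ) + 2) := by positivity
  have h2 : 1 / ((j : ℝ) + 2) ≤ 1 := by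
    rw [div_le_one (by positivity)]; linarith
  nlinarith

theorem Assembly_S_ge {s : ℝ} (hs1 : s ≤ 1) (j : ℕ) :
    s - 1 / ((j : ℝ) + 2) ≤ Assembly_S s j := by
  unfold Assembly_S
  have h1 : 0 < 1 / ((j : ℝ) + 2) := by positivity
  nlinarith

theorem Assembly_S_le {s : ℝ} (hs0 : 0 ≤ s) (j : ℕ) :
    Assembly_S s j ≤ s + 1 / ((j : ℝ) + 2) := by
  unfold Assembly_S
  have h1 : 0 < 1 / ((j : ℝ) + 2) := by positivity
  nlinarith

theorem Assembly_E {s : ℝ} (hs1 : s ≤ 1) (j : ℕ) :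
    8 / ((100 * (j + 3) : ℕ) : ℝ) < 1 - Assembly_S s (j + 1) := by
  have h := Assembly_S_lt hs1 (j + 1)
  have h1 : (1 / (((j + 1 : ℕ) : ℝ) + 2)) / 2 = 1 / (2 * ((j : ℝ) + 3)) := by
    push_cast
    field_simp
    ring
  have h2 : 8 / ((100 * (j + 3) : ℕ) : ℝ) < 1 / (2 * ((j : ℝ) + 3)) := by
    push_cast
    rw [div_lt_div_iff₀ (by positivity) (by positivity)]
    have hj : (0 : ℝ) ≤ j := Nat.cast_nonneg _
    nlinarith
  linarith

/-- recursive choice -/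
theorem Assembly_seq {α : Type} {P : ℕ → α → Prop} {R : ℕ → α → α → Prop}
    (h0 : ∃ p, P 0 p) (h1 : ∀ j p, P j p → ∃ q, P (j + 1) q ∧ R j p q) :
    ∃ f : ℕ → α, ∀ j, P j (f j) ∧ R j (f j) (f (j + 1)) := by
  obtain ⟨p0, hp0⟩ := h0
  choose F hF using h1
  let f : ∀ j, {p // P j p} := fun j => Nat.rec (motive := fun j => {p // P j p}) ⟨p0, hp0⟩
    (fun j p => ⟨F j p.1 p.2, (hF j p.1 p.2).1⟩) j
  exact ⟨fun j => (f j).1, fun j => ⟨(f j).2, (hF j (f j).1 (f j).2).2⟩⟩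

theorem assembly (hS : Sys G M c) {s : ℝ} (hs0 : 0 ≤ s) (hs1 : s ≤ 1) :
    ∃ x ∈ Icc (0 : ℝ) 1, (∀ ε > 0, ∀ᶠ r : ℕ in atTop, (1 + s - ε) * r ≤ G r x) ∧
      (∀ ε > 0, ∃ᶠ r : ℕ in atTop, (G r x : ℝ) ≤ (1 + s + ε) * r) := by
  have hstep := fun j : ℕ => step_good hS (Assembly_S_pos hs0 j).le
    ((Assembly_S_lt hs1 j).trans (by
      have : 0 ≤ (1 / ((j : ℝ) + 2)) / 2 := by positivity
      linarith)) (Assembly_S_pos hs0 (j + 1))
    (lt_of_le_of_lt (Assembly_S_lt hs1 (j + 1)) (by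
      have : 0 < (1 / (((j + 1 : ℕ) : ℝ) + 2)) / 2 := by positivity
      linarith)) (100 * (j + 3)) (Assembly_E hs1 j) (by positivity)
  choose h₀ hh₀ using hstep
  obtain ⟨f, hf⟩ := Assembly_seq (α := ℕ × ℕ)
    (P := fun j p => h₀ j ≤ p.1 ∧ j ≤ p.1 ∧ p.2 < 2 ^ p.1 ∧ Good G M (Assembly_S s j) p.1 p.2)
    (R := fun j p q => p.1 ≤ q.1 ∧ Iv q.1 q.2 ⊆ Iv p.1 p.2 ∧
      (∀ x ∈ Iv q.1 q.2, ∀ r : ℕ, p.1 ≤ r → r ≤ q.1 →
        (1 + min (Assembly_S s j) (Assembly_S s (j + 1)) - 4 / ((100 * (j + 3) : ℕ) : ℝ)) * r ≤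
          G r x) ∧
      ∃ r : ℕ, j ≤ r ∧ ∀ x ∈ Iv q.1 q.2,
        (G r x : ℝ) ≤ (1 + Assembly_S s (j + 1) + 1 / ((100 * (j + 3) : ℕ) : ℝ)) * r)
    (by
      obtain ⟨H, γ, h1, h2, h3⟩ := init_good hS (s := Assembly_S s 0)
        (lt_of_le_of_lt (Assembly_S_lt hs1 0) (by norm_num)) (h₀ 0)
      exact ⟨(H, γ), h1, Nat.zero_le _, h2, h3⟩)
    (by
      rintro j ⟨h, g⟩ ⟨h1, h2, h3, h4⟩
      obtain ⟨H, γ, k1, k2, k3, k4, k5, k6, r, k7, k8⟩ :=
        hh₀ j h g h1 h3 h4 (max (h₀ (j + 1)) (j + 1))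
      have k9 : h₀ (j + 1) ≤ H := (le_max_left _ _).trans k1
      have k10 : j + 1 ≤ H := (le_max_right _ _).trans k1
      have k11 : j ≤ r := (Nat.le_succ j).trans ((le_max_right _ _).trans k7)
      exact ⟨(H, γ), ⟨k9, k10, k3, k5⟩, k2, k4, k6, r, k11, k8⟩)
  -- a point in all intervals
  have hanti : ∀ j, Iv (f (j + 1)).1 (f (j + 1)).2 ⊆ Iv (f j).1 (f j).2 := fun j => (hf j).2.2.1
  have hne : (⋂ j, Iv (f j).1 (f j).2).Nonempty := by
    refine IsCompact.nonempty_iInter_of_sequence_nonempty_isCompact_isClosed _ hanti ?_ ?_ ?_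
    · intro j
      refine ⟨((f j).2 : ℝ) / 2 ^ (f j).1, left_mem_Icc.2 ?_⟩
      gcongr
      linarith
    · exact isCompact_Icc
    · intro j
      exact isClosed_Icc
  obtain ⟨x, hx⟩ := hne
  rw [mem_iInter] at hx
  have hmono : Monotone fun j => (f j).1 := monotone_nat_of_le_succ fun j => (hf j).2.1
  have hge : ∀ j, j ≤ (f j).1 := fun j => (hf j).1.2.1
  have hx01 : x ∈ Icc (0 : ℝ) 1 := by
    have h1 := hx 0
    have h2 : (f 0).2 < 2 ^ (f 0).1 := (hf 0).1.2.2.1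
    rw [Iv, mem_Icc] at h1
    refine ⟨le_trans (by positivity) h1.1, h1.2.trans ?_⟩
    rw [div_le_one (by positivity)]
    exact_mod_cast h2
  have hlim : ∀ ε > 0, ∃ J : ℕ, ∀ j ≥ J, 1 / ((j : ℝ) + 2) ≤ ε / 2 := by
    intro ε hε
    obtain ⟨J, hJ⟩ := exists_nat_gt (2 / ε)
    refine ⟨J, fun j hj => ?_⟩
    have h1 : (J : ℝ) ≤ j := by exact_mod_cast hj
    rw [div_lt_iff₀ hε] at hJ
    rw [div_le_div_iff₀ (by positivity) (by norm_num)]
    have : (J : ℝ) * ε ≤ j * ε := by gcongr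
    nlinarith
  refine ⟨x, hx01, fun ε hε => ?_, fun ε hε => ?_⟩
  · obtain ⟨J, hJ⟩ := hlim ε hε
    filter_upwards [eventually_ge_atTop (f J).1] with r hr
    -- the first index beyond `r`
    have hex : ∃ k, r < (f k).1 := ⟨r + 1, lt_of_lt_of_le (Nat.lt_succ_self r) (hge (r + 1))⟩
    classical
    set k := Nat.find hex with hk
    have hk1 : r < (f k).1 := Nat.find_spec hex
    have hkJ : J < k := by
      by_contra hcon
      have := hmono (not_lt.1 hcon)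
      simp only at this
      omega
    obtain ⟨j, hj⟩ : ∃ j, k = j + 1 := ⟨k - 1, by omega⟩
    have hjr : (f j).1 ≤ r := by
      have := Nat.find_min hex (m := j) (by omega)
      omega
    have hjk : r ≤ (f (j + 1)).1 := by rw [← hj]; exact hk1.le
    have h1 := (hf j).2.2.2.1 x (hx (j + 1)) r hjr hjk
    refine le_trans ?_ h1
    have hr0 : (0 : ℝ) ≤ r := Nat.cast_nonneg _
    refine mul_le_mul_of_nonneg_right ?_ hr0
    have e1 := hJ j (by omega)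
    have e2 := hJ (j + 1) (by omega)
    have e3 := Assembly_S_ge hs1 j
    have e4 := Assembly_S_ge hs1 (j + 1)
    have e5 : s - ε / 2 ≤ min (Assembly_S s j) (Assembly_S s (j + 1)) :=
      le_min (by linarith) (by linarith)
    have e6 : 4 / ((100 * (j + 3) : ℕ) : ℝ) ≤ 1 / ((j : ℝ) + 2) := by
      push_cast
      rw [div_le_div_iff₀ (by positivity) (by positivity)]
      have hj : (0 : ℝ) ≤ j := Nat.cast_nonneg _
      nlinarith
    linarith
  · obtain ⟨J, hJ⟩ := hlim ε hε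
    rw [frequently_atTop]
    intro a
    set j := max a J with hj
    obtain ⟨r, hr1, hr2⟩ := (hf j).2.2.2.2
    refine ⟨r, (le_max_left _ _).trans hr1, (hr2 x (hx (j + 1))).trans ?_⟩
    have hr0 : (0 : ℝ) ≤ r := Nat.cast_nonneg _
    refine mul_le_mul_of_nonneg_right ?_ hr0
    have hjJ : J ≤ j := le_max_right _ _
    have e1 := hJ j hjJ
    have e2 := hJ (j + 1) (by omega)
    have e4 := Assembly_S_le hs0 (j + 1)
    have e6 : 1 / ((100 * (j + 3) : ℕ) : ℝ) ≤ 1 / ((j : ℝ) + 2) := by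
      push_cast
      rw [div_le_div_iff₀ (by positivity) (by positivity)]
      have hj : (0 : ℝ) ≤ j := Nat.cast_nonneg _
      nlinarith
    linarith

end Assembly

end Pool.Agent.Helper24.DS
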