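import Pool.Agent.Helper24.DS.Base

/-!
# Dimension spectra of polynomial graphs: module BadMeasure
-/

set_option autoImplicit false

namespace Pool.Agent.Helper24.DS

open Filter Set

section Assembly

variable {G : ℕ → ℝ → ℕ} {M : ℕ → ℕ → ℕ → ℕ} {c : ℕ}

/-- the grid point below `x` -/
lemma BadMeasure_floor {h r g : ℕ} (hr : h ≤ r) (hg : g < 2 ^ h) {x : ℝ}
    (hx : x ∈ Ico ((g : ℝ) / 2 ^ h) (((g : ℝ) + 1) / 2 ^ h)) :
    ∃ p < 2 ^ (r - h), ((g * 2 ^ (r - h) + p : ℕ) : ℝ) / 2 ^ r ≤ x ∧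
      x < ((g * 2 ^ (r - h) + p : ℕ) : ℝ) / 2 ^ r + (1 / 2) ^ r ∧
      x ∈ Icc (0 : ℝ) 1 ∧ ((g * 2 ^ (r - h) + p : ℕ) : ℝ) / 2 ^ r ∈ Icc (0 : ℝ) 1 := by
  have h2h : (0 : ℝ) < 2 ^ h := by positivity
  have h2r : (0 : ℝ) < 2 ^ r := by positivity
  have hsplit : (2 : ℝ) ^ r = 2 ^ h * 2 ^ (r - h) := by rw [← pow_add]; congr 1; omega
  have hx0 : 0 ≤ x := le_trans (by positivity) hx.1
  have hf0 : 0 ≤ 2 ^ r * x := by positivity
  have e1 : (Nat.floor (2 ^ r * x) : ℝ) ≤ 2 ^ r * x := Nat.floor_le hf0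
  have e2 : 2 ^ r * x < (Nat.floor (2 ^ r * x) : ℝ) + 1 := Nat.lt_floor_add_one _
  have hlow : g * 2 ^ (r - h) ≤ Nat.floor (2 ^ r * x) := by
    apply Nat.le_floor
    have h1 : (g : ℝ) ≤ x * 2 ^ h := (div_le_iff₀ h2h).1 hx.1
    push_cast
    rw [hsplit]
    calc (g : ℝ) * 2 ^ (r - h) ≤ x * 2 ^ h * 2 ^ (r - h) := by gcongr
      _ = 2 ^ h * 2 ^ (r - h) * x := by ring
  have hupp : Nat.floor (2 ^ r * x) < g * 2 ^ (r - h) + 2 ^ (r - h) := by
    rw [Nat.floor_lt hf0]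
    have h1 : x * 2 ^ h < (g : ℝ) + 1 := (lt_div_iff₀ h2h).1 hx.2
    push_cast
    rw [hsplit]
    calc 2 ^ h * 2 ^ (r - h) * x = x * 2 ^ h * 2 ^ (r - h) := by ring
      _ < ((g : ℝ) + 1) * 2 ^ (r - h) := by gcongr
      _ = (g : ℝ) * 2 ^ (r - h) + 2 ^ (r - h) := by ring
  have hp : g * 2 ^ (r - h) + (Nat.floor (2 ^ r * x) - g * 2 ^ (r - h)) =
      Nat.floor (2 ^ r * x) := by omega
  have hle : ((Nat.floor (2 ^ r * x) : ℕ) : ℝ) / 2 ^ r ≤ x := by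
    rw [div_le_iff₀ h2r]
    linarith
  have hx1 : x ≤ 1 := by
    refine hx.2.le.trans ?_
    rw [div_le_one h2h]
    exact_mod_cast hg
  refine ⟨Nat.floor (2 ^ r * x) - g * 2 ^ (r - h), by omega, ?_, ?_, ⟨hx0, hx1⟩, ?_⟩
  · rw [hp]
    exact hle
  · rw [hp, one_div, inv_pow, div_eq_mul_inv, ← add_one_mul, ← div_eq_mul_inv, lt_div_iff₀ h2r]
    linarith
  · rw [hp]
    exact ⟨by positivity, hle.trans hx1⟩

/-- one scale: the set of bad points has small measure -/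
theorem bad_measure (hS : Sys G M c) (E : ℕ) (hE : 0 < E) :
    ∃ N C : ℕ, 0 < N ∧ ∀ h r g : ℕ, h ≤ r → g < 2 ^ h →
      MeasureTheory.volume {x : ℝ | x ∈ Ico ((g : ℝ) / 2 ^ h) (((g : ℝ) + 1) / 2 ^ h) ∧
        ∀ u ≤ r, (G r x : ℝ) < M h g u + 2 * r - u - h - r / E - C} ≤
      ENNReal.ofReal ((1 / 2) ^ (h + r / N)) := by
  obtain ⟨N, C₀, hN, hrt⟩ := hS.rt E hE
  refine ⟨N, c + C₀, hN, ?_⟩
  intro h r g hr hg
  classical
  set pt : ℕ → ℝ := fun p => ((g * 2 ^ (r - h) + p : ℕ) : ℝ) / 2 ^ r with hpt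
  set B : Finset ℕ := (Finset.range (2 ^ (r - h))).filter fun p =>
    ∀ u ≤ r, (G r (pt p) : ℝ) < M h g u + 2 * r - u - h - r / E - C₀ with hB
  have hcard : B.card * 2 ^ (h + r / N) < 2 ^ r := by
    by_contra hcon
    push Not at hcon
    have hne : B.Nonempty := by
      rw [← Finset.card_pos]
      by_contra h0
      have : B.card = 0 := by omega
      rw [this, zero_mul] at hcon
      have : 0 < 2 ^ r := by positivity
      omega
    obtain ⟨p₀, hp₀, hmax⟩ := Finset.exists_max_image B (fun p => G r (pt p)) hne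
    have hsub : B ⊆ (Finset.range (2 ^ (r - h))).filter fun p : ℕ =>
        G r (((g * 2 ^ (r - h) + p : ℕ) : ℝ) / 2 ^ r) ≤ G r (pt p₀) := by
      intro p hp
      rw [Finset.mem_filter]
      exact ⟨(Finset.mem_filter.1 hp).1, hmax p hp⟩
    obtain ⟨u, hu, hu2⟩ := hrt h r g (G r (pt p₀)) hr hg
      (hcon.trans (Nat.mul_le_mul_right _ (Finset.card_le_card hsub)))
    have h1 := (Finset.mem_filter.1 hp₀).2 u hu
    have hEr : (0 : ℝ) < E := by exact_mod_cast hE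
    have h2 : (E : ℝ) * (M h g u + 2 * r) ≤ E * (G r (pt p₀) + u + h) + r + C₀ := by
      exact_mod_cast hu2
    have h3 : (E : ℝ) * (C₀ : ℝ) ≥ C₀ := by
      have : (1 : ℝ) ≤ E := by exact_mod_cast hE
      nlinarith [(Nat.cast_nonneg C₀ : (0 : ℝ) ≤ C₀)]
    have h4 : (E : ℝ) * (r / E) = r := by field_simp
    have h5 := mul_lt_mul_of_pos_left h1 hEr
    have h6 : (E : ℝ) * (M h g u + 2 * r - u - h - r / E - C₀) =
        E * (M h g u + 2 * r) - E * u - E * h - E * (r / E) - E * C₀ := by ring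
    rw [h6, h4] at h5
    have h7 : (E : ℝ) * (G r (pt p₀) + u + h) = E * G r (pt p₀) + E * u + E * h := by ring
    linarith
  have hcover : {x : ℝ | x ∈ Ico ((g : ℝ) / 2 ^ h) (((g : ℝ) + 1) / 2 ^ h) ∧
      ∀ u ≤ r, (G r x : ℝ) < M h g u + 2 * r - u - h - r / E - (c + C₀ : ℕ)} ⊆
      ⋃ p ∈ B, Ico (pt p) (pt p + (1 / 2) ^ r) := by
    rintro x ⟨hx, hbad⟩
    obtain ⟨p, hp, h1, h2, hx01, hp01⟩ := BadMeasure_floor hr hg hx
    rw [mem_iUnion₂]
    refine ⟨p, ?_, h1, h2⟩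
    rw [hB, Finset.mem_filter]
    refine ⟨Finset.mem_range.2 hp, ?_⟩
    intro u hu
    have h3 := hS.near r (pt p) x hp01 hx01 (by
      rw [abs_sub_comm, abs_of_nonneg (by linarith)]
      show x - ((g * 2 ^ (r - h) + p : ℕ) : ℝ) / 2 ^ r ≤ _
      linarith)
    have h4 : (G r (pt p) : ℝ) ≤ G r x + c := by exact_mod_cast h3
    have h5 := hbad u hu
    push_cast at h5
    linarith
  refine (MeasureTheory.measure_mono hcover).trans ?_
  refine (MeasureTheory.measure_biUnion_finset_le B _).trans ?_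
  have hvol : ∀ p ∈ B, MeasureTheory.volume (Ico (pt p) (pt p + (1 / 2) ^ r)) =
      ENNReal.ofReal ((1 / 2) ^ r) := by
    intro p _
    rw [Real.volume_Ico]
    congr 1
    ring
  rw [Finset.sum_congr rfl hvol, Finset.sum_const, nsmul_eq_mul,
    ← ENNReal.ofReal_natCast, ← ENNReal.ofReal_mul (by positivity)]
  apply ENNReal.ofReal_le_ofReal
  have h8 : (B.card : ℝ) * 2 ^ (h + r / N) ≤ 2 ^ r := by exact_mod_cast hcard.le
  have h9 : (0 : ℝ) < 2 ^ (h + r / N) := by positivity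
  have h10 : (0 : ℝ) < 2 ^ r := by positivity
  rw [one_div, inv_pow, inv_pow, ← div_eq_mul_inv, div_le_iff₀ h10, ← div_eq_inv_mul,
    le_div_iff₀ h9]
  exact h8

end Assembly

end Pool.Agent.Helper24.DS
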