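import Pool.Agent.Helper24.DS.Defs

/-!
# Working definitions for the dimension spectra of polynomial graphs
-/

set_option autoImplicit false

namespace Pool.Agent.Helper24.DS

open Filter

/-- complexity of an element of an encodable type -/
noncomputable def KC (U : Mach) {α : Type} [Encodable α] (a : α) : ℕ := K U (str (Encodable.encode a))

/-- the `k` lowest bits of `i` -/
def bitsk (k i : ℕ) : List Bool := (List.range k).map fun j => decide (i / 2 ^ j % 2 = 1)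

/-- self-delimiting code of `n` -/
def sd (n : ℕ) : List Bool := List.replicate (Nat.size n) true ++ false :: bitsk (Nat.size n) n

/-- code word with parameter `par` and index `i < 2^k` -/
def cw (par k i : ℕ) : List Bool := sd par ++ (sd k ++ bitsk k i)

/-- the value of a string as a binary number (lowest bit first) -/
def val (l : List Bool) : ℕ := l.foldr (fun b n => 2 * n + cond b 1 0) 0

/-- evaluation of the polynomial with coefficients `a` -/
noncomputable def ev {n : ℕ} (a : Fin n → ℝ) (x : ℝ) : ℝ := ∑ j : Fin n, a j * x ^ (j : ℕ)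

/-- integer part at precision `r` -/
noncomputable def gp (r : ℕ) (x : ℝ) : ℤ := ⌊(2 : ℝ) ^ r * x⌋

/-- complexity at precision `r` of the point of the graph over `x` -/
noncomputable def G (U : Mach) {n : ℕ} (a : Fin n → ℝ) (r : ℕ) (x : ℝ) : ℕ :=
  KC U ((gp r x, gp r (ev a x)) : ℤ × ℤ)

/-- coefficients of `t ↦ A((g+t)/2^h)` -/
noncomputable def bc {n : ℕ} (a : Fin n → ℝ) (h g : ℕ) (j : Fin n) : ℝ :=
  ∑ i : Fin n, (Nat.choose i j : ℝ) * ((g : ℝ) / 2 ^ h) ^ ((i : ℕ) - (j : ℕ)) *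
    ((1 / 2 : ℝ) ^ h) ^ (j : ℕ) * a i

/-- complexity of the prefix `g` (of length `h`) together with the coefficients of the rescaled
polynomial at precision `u` -/
noncomputable def M (U : Mach) {n : ℕ} (a : Fin n → ℝ) (h g u : ℕ) : ℕ :=
  KC U ((g, List.ofFn fun j => gp u (bc a h g j)) : ℕ × List ℤ)

/-- numerator of the value of a polynomial with integer coefficients at `i/q` -/
def pnum (i q : ℕ) : List ℤ → ℤ
  | [] => 0
  | b :: β => b * (q : ℤ) ^ β.length + i * pnum i q β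

/-- `⌊∑ j, β j * (i/2^r)^j⌋` -/
def fl (r : ℕ) (β : List ℤ) (i : ℕ) : ℤ := pnum i (2 ^ r) β / ((2 ^ r : ℕ) : ℤ) ^ (β.length - 1)

/-- the number of grid points of `[0,1]` at which the polynomial `β` passes near `L` -/
def hit (D h r g : ℕ) (L : List (ℤ × ℤ)) (β : List ℤ) : ℕ :=
  ((List.range (2 ^ r)).filter fun i =>
    decide (∃ d < 2 * D + 1, ((((g * 2 ^ (r - h) + i / 2 ^ h : ℕ) : ℤ),
      fl r β i + (d : ℤ) - (D : ℤ)) : ℤ × ℤ) ∈ L)).length

/-- all lists of length `n` with entries in `[-R, R]` -/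
def boxL : ℕ → ℕ → List (List ℤ)
  | 0, _ => [[]]
  | n + 1, R => (boxL n R).flatMap fun l => (List.range (2 * R + 1)).map fun k =>
      ((k : ℤ) - (R : ℤ)) :: l

/-- `Q` is a small cover of the polynomials that hit `L` often. -/
def Valid (n B C D E N : ℕ) (h r g : ℕ) (L : List (ℤ × ℤ)) (Q : List (ℕ × List ℤ)) : Prop :=
  (∀ u < r + 1, (Q.filter fun q => decide (q.1 = u)).length * 4 ^ r ≤
      C * 2 ^ (u + r / E + h) * L.length) ∧
  ∀ β ∈ boxL n (B * 2 ^ r), 2 ^ (r - r / N) ≤ hit D h r g L β →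
    ∃ u < r + 1, (u, β.map fun b => b / (2 : ℤ) ^ (r - u)) ∈ Q

instance (n B C D E N h r g : ℕ) (L : List (ℤ × ℤ)) (Q : List (ℕ × List ℤ)) :
    Decidable (Valid n B C D E N h r g L Q) := by unfold Valid; infer_instance

/-- `Q` is the valid list with the smallest code -/
def LeastValid (n B C D E N : ℕ) (h r g : ℕ) (L : List (ℤ × ℤ)) (Q : List (ℕ × List ℤ)) : Prop :=
  Valid n B C D E N h r g L Q ∧
    ∀ c < Encodable.encode Q, ¬ ∃ Q' ∈ (Encodable.decode c : Option (List (ℕ × List ℤ))),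
      Valid n B C D E N h r g L Q'

/-- the input from geometry: finite scale restricted projection theorem with a content bound -/
def KEYG (n B : ℕ) : Prop :=
  ∀ E : ℕ, 0 < E → ∃ N C : ℕ, 0 < N ∧ ∀ (r : ℕ) (L : Finset (ℤ × ℤ)),
    ∃ Q : ℕ → Finset (Fin n → ℤ),
      (∀ u ≤ r, (Q u).card * 4 ^ r ≤ C * 2 ^ (u + r / E) * L.card) ∧
      ∀ β : Fin n → ℤ, (∀ j, |β j| ≤ B * 2 ^ r) →
        2 ^ (r - r / N) ≤ ((Finset.range (2 ^ r)).filter fun i : ℕ =>
          ((i : ℤ), ⌊∑ j, (β j : ℝ) * ((i : ℝ) / 2 ^ r) ^ (j : ℕ)⌋) ∈ L).card →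
        ∃ u ≤ r, (fun j => β j / (2 : ℤ) ^ (r - u)) ∈ Q u

section Enum

variable (e : ℕ → ℕ → Option ℕ)

/-- the enumerated pairs -/
def ep (w s : ℕ) : Option (ℤ × ℤ) := (e w s).bind Encodable.decode

/-- a new pair appears at stage `s` -/
def IsNew (w s : ℕ) : Prop := (ep e w s).isSome = true ∧ ∀ t < s, ep e w t ≠ ep e w s

instance (w s : ℕ) : Decidable (IsNew e w s) := by unfold IsNew; infer_instance

/-- the pairs of complexity at most `w` in the column `g` enumerated before stage `s`, in the order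
of enumeration and without repetition -/
def wl (w r h g s : ℕ) : List (ℤ × ℤ) :=
  (List.range s).filterMap fun t =>
    if IsNew e w t ∧ ∃ z ∈ ep e w t, z.1 / (2 : ℤ) ^ (r - h) = (g : ℤ) then ep e w t else none

/-- the block of length `2^k` ending at position `m 2^k` -/
def block (l : List (ℤ × ℤ)) (m k : ℕ) : List (ℤ × ℤ) := (l.drop ((m - 1) * 2 ^ k)).take (2 ^ k)

/-- the enumerable set used in the main estimate; parameters `(h, r, w, v, k, u)`, witness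
`(s, m, Q)` -/
def PP (n B C D E N : ℕ) (x : (ℕ × ℕ × ℕ × ℕ × ℕ × ℕ) × (ℕ × List ℤ) × (ℕ × ℕ × List (ℕ × List ℤ))) :
    Prop :=
  match x with
  | ((h, r, w, v, k, u), (g, vec), (s, m, Q)) =>
    2 ^ v ≤ (wl e w r h g s).length ∧ 1 ≤ m ∧ m * 2 ^ k < 2 ^ (v + 1) ∧
      m * 2 ^ k ≤ (wl e w r h g s).length ∧
      LeastValid n B C D E N h r g (block (wl e w r h g s) m k) Q ∧ (u, vec) ∈ Q

end Enum

/-! ## The properties used in the assembly -/

/-- the properties of the complexity functions used in the assembly -/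
structure Sys (G : ℕ → ℝ → ℕ) (M : ℕ → ℕ → ℕ → ℕ) (c : ℕ) : Prop where
  near : ∀ (r : ℕ) (x y : ℝ), x ∈ Set.Icc (0 : ℝ) 1 → y ∈ Set.Icc (0 : ℝ) 1 →
    |x - y| ≤ (1 / 2) ^ r → G r x ≤ G r y + c
  up : ∀ (h g u : ℕ) (x : ℝ), h ≤ u → x ∈ Set.Icc (0 : ℝ) 1 →
    x ∈ Set.Icc ((g : ℝ) / 2 ^ h) (((g : ℝ) + 1) / 2 ^ h) →
    G u x ≤ M h g u + (u - h) + c * (Nat.size u + 1)
  up' : ∀ (h g u : ℕ), u ≤ h → g ≤ 2 ^ h →
    G h ((g : ℝ) / 2 ^ h) ≤ M h g u + (h - u) + c * (Nat.size h + 1)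
  succ : ∀ (h g u : ℕ), M h (g + 1) u ≤ M h g u + c ∧ M h g u ≤ M h (g + 1) u + c
  dyad : ∀ (m h g : ℕ), m ≤ h → g ≤ 2 ^ m →
    G h ((g : ℝ) / 2 ^ m) ≤ m + h + c * (Nat.size h + 1)
  rt : ∀ E : ℕ, 0 < E → ∃ N C : ℕ, 0 < N ∧ ∀ h r g w : ℕ, h ≤ r → g < 2 ^ h →
    2 ^ r ≤ ((Finset.range (2 ^ (r - h))).filter fun p : ℕ =>
      G r (((g * 2 ^ (r - h) + p : ℕ) : ℝ) / 2 ^ r) ≤ w).card * 2 ^ (h + r / N) →
    ∃ u ≤ r, E * (M h g u + 2 * r) ≤ E * (w + u + h) + r + C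
  base : ∀ E : ℕ, 0 < E → ∃ C : ℕ, ∀ v : ℕ, E * v ≤ E * M 0 0 v + v + C

/-- the interval of the prefix `g` of length `h` -/
def Iv (h g : ℕ) : Set ℝ := Set.Icc ((g : ℝ) / 2 ^ h) (((g : ℝ) + 1) / 2 ^ h)

/-- good prefixes -/
def Good (G : ℕ → ℝ → ℕ) (M : ℕ → ℕ → ℕ → ℕ) (s : ℝ) (h g : ℕ) : Prop :=
  (∀ u : ℕ, h ≤ u → (1 + s) * u ≤ M h g u + (u - h : ℝ)) ∧ (1 + s) * h ≤ G h ((g : ℝ) / 2 ^ h)

end Pool.Agent.Helper24.DS
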