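import Pool.Agent.Helper24.DS.IntPrim

/-!
# Dimension spectra of polynomial graphs: module IntPrim2

Primitive recursiveness of Euclidean division of an integer by a natural number, of the greatest
common divisor and of `mkRat`.
-/

set_option autoImplicit false

namespace Pool.Agent.Helper24.DS

open Filter Set

/-- A closed formula for the quotient of an integer by a natural number. -/
theorem IntPrim2_ediv_formula (a : ℤ) (b : ℕ) :
    a / (b : ℤ) = ((a.toNat / b : ℕ) : ℤ) - ((((-a).toNat + b - 1) / b : ℕ) : ℤ) := by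
  rcases Nat.eq_zero_or_pos b with hb | hb
  · subst hb
    simp
  · cases a with
    | ofNat n =>
      have h1 : (-(Int.ofNat n)).toNat = 0 := by
        simp
      have h2 : (0 + b - 1) / b = 0 := Nat.div_eq_of_lt (by omega)
      rw [h1, h2]
      simp
    | negSucc n =>
      have h1 : (-(Int.negSucc n)).toNat = n + 1 := by
        simp [Int.neg_negSucc]
      have h2 : (Int.negSucc n).toNat = 0 := by
        simp
      have h3 : (n + 1 + b - 1) / b = n / b + 1 := by
        have : n + 1 + b - 1 = n + b := by omega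
        rw [this, Nat.add_div_right n hb]
      have h4 : Int.ediv (n : ℤ) (b : ℤ) = ((n / b : ℕ) : ℤ) := rfl
      rw [h1, h2, h3, Int.negSucc_ediv n (by exact_mod_cast hb), h4]
      simp

theorem primrec_int_ediv_nat : Primrec₂ (fun (a : ℤ) (b : ℕ) => a / (b : ℤ)) := by
  have h1 : Primrec₂ (fun (a : ℤ) (b : ℕ) => a.toNat / b) :=
    Primrec.nat_div.comp (primrec_int_toNat.comp Primrec.fst) Primrec.snd
  have h2 : Primrec₂ (fun (a : ℤ) (b : ℕ) => ((-a).toNat + b - 1) / b) :=
    Primrec.nat_div.comp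
      (Primrec.nat_sub.comp
        (Primrec.nat_add.comp (primrec_int_neg_toNat.comp Primrec.fst) Primrec.snd)
        (Primrec.const 1)) Primrec.snd
  have h3 : Primrec₂ (fun (a : ℤ) (b : ℕ) =>
      ((a.toNat / b : ℕ) : ℤ) - ((((-a).toNat + b - 1) / b : ℕ) : ℤ)) :=
    primrec_nat_sub_int.comp₂ h1 h2
  exact h3.of_eq (fun a b => (IntPrim2_ediv_formula a b).symm)

/-- Divisibility of natural numbers is primitive recursive. -/
theorem IntPrim2_dvd : PrimrecRel (fun a b : ℕ => a ∣ b) := by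
  have h : PrimrecRel (fun a b : ℕ => b % a = 0) :=
    Primrec.eq.comp₂ (Primrec.nat_mod.comp₂ Primrec₂.right Primrec₂.left) (Primrec₂.const 0)
  exact h.of_eq (fun a b => (Nat.dvd_iff_mod_eq_zero).symm)

/-- The greatest common divisor by bounded search. -/
theorem IntPrim2_gcd_formula (a b : ℕ) :
    Nat.findGreatest (fun d => d ∣ a ∧ d ∣ b) (a + b) = Nat.gcd a b := by
  rcases Nat.eq_zero_or_pos (a + b) with h | h
  · have ha : a = 0 := by omega
    have hb : b = 0 := by omega
    subst ha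
    subst hb
    simp
  · have hle : Nat.gcd a b ≤ a + b := by
      rcases Nat.eq_zero_or_pos a with ha | ha
      · subst ha
        simp
      · exact (Nat.gcd_le_left b ha).trans (by omega)
    have hpos : 0 < Nat.gcd a b := by
      rcases Nat.eq_zero_or_pos a with ha | ha
      · exact Nat.gcd_pos_of_pos_right a (by omega)
      · exact Nat.gcd_pos_of_pos_left b ha
    rw [Nat.findGreatest_eq_iff]
    refine ⟨hle, fun _ => ⟨Nat.gcd_dvd_left a b, Nat.gcd_dvd_right a b⟩, ?_⟩
    rintro n hn _ ⟨h1, h2⟩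
    exact absurd (Nat.le_of_dvd hpos (Nat.dvd_gcd h1 h2)) (by omega)

theorem primrec_gcd : Primrec₂ Nat.gcd := by
  have h1 : PrimrecRel (fun (p : ℕ × ℕ) (d : ℕ) => d ∣ p.1 ∧ d ∣ p.2) := by
    have h2 : PrimrecRel (fun (p : ℕ × ℕ) (d : ℕ) => d ∣ p.1) :=
      IntPrim2_dvd.comp Primrec.snd (Primrec.fst.comp Primrec.fst)
    have h3 : PrimrecRel (fun (p : ℕ × ℕ) (d : ℕ) => d ∣ p.2) :=
      IntPrim2_dvd.comp Primrec.snd (Primrec.snd.comp Primrec.fst)
    exact PrimrecPred.and h2 h3
  have h4 : Primrec (fun p : ℕ × ℕ =>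
      Nat.findGreatest (fun d => d ∣ p.1 ∧ d ∣ p.2) (p.1 + p.2)) :=
    Primrec.nat_findGreatest (Primrec.nat_add.comp Primrec.fst Primrec.snd) h1
  exact h4.of_eq (fun p => IntPrim2_gcd_formula p.1 p.2)

theorem primrec_mkRat : Primrec (fun p : ℤ × ℕ => ((mkRat p.1 p.2).num, (mkRat p.1 p.2).den)) := by
  have hg : Primrec (fun p : ℤ × ℕ => Nat.gcd p.1.natAbs p.2) :=
    primrec_gcd.comp (primrec_int_natAbs.comp Primrec.fst) Primrec.snd
  have h1 : Primrec (fun p : ℤ × ℕ => p.1 / ((Nat.gcd p.1.natAbs p.2 : ℕ) : ℤ)) :=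
    primrec_int_ediv_nat.comp Primrec.fst hg
  have h2 : Primrec (fun p : ℤ × ℕ => p.2 / Nat.gcd p.1.natAbs p.2) :=
    Primrec.nat_div.comp Primrec.snd hg
  have h3 : PrimrecPred (fun p : ℤ × ℕ => p.2 = 0) :=
    Primrec.eq.comp Primrec.snd (Primrec.const 0)
  have h4 : Primrec (fun p : ℤ × ℕ => if p.2 = 0 then ((0 : ℤ), (1 : ℕ)) else
      (p.1 / ((Nat.gcd p.1.natAbs p.2 : ℕ) : ℤ), p.2 / Nat.gcd p.1.natAbs p.2)) :=
    Primrec.ite h3 (Primrec.const _) (Primrec.pair h1 h2)
  refine h4.of_eq (fun p => ?_)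
  by_cases hp : p.2 = 0
  · rw [if_pos hp, hp]
    simp
  · rw [if_neg hp, Rat.mkRat_def, dif_neg hp, Rat.normalize_eq]

end Pool.Agent.Helper24.DS
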