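import Pool.Agent.Helper24.DS.Machine
import Pool.Agent.Helper24.DS.IntPrim2

/-!
# Dimension spectra of polynomial graphs: module Rat2
-/

set_option autoImplicit false

namespace Pool.Agent.Helper24.DS

open Filter Set

/-- The function which computes the integer parts from a rational point and the digits. -/
def Rat2_F (m : ℕ) (p : ℕ × ℕ × List (ℤ × ℕ)) : List ℤ :=
  (List.range m).map fun j =>
    (p.2.2.getD j (0, 1)).1 * ((2 ^ p.1 : ℕ) : ℤ) / ((p.2.2.getD j (0, 1)).2 : ℤ) +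
      (((p.2.1 / 4 ^ j % 4 : ℕ) : ℤ) - ((1 : ℕ) : ℤ))

theorem Rat2_primrec (m : ℕ) : Primrec (Rat2_F m) := by
  have hget : Primrec (fun q : (ℕ × ℕ × List (ℤ × ℕ)) × ℕ => q.1.2.2.getD q.2 (0, 1)) :=
    (Primrec.list_getD (0, 1)).comp (Primrec.snd.comp (Primrec.snd.comp Primrec.fst)) Primrec.snd
  have hpow : Primrec (fun q : (ℕ × ℕ × List (ℤ × ℕ)) × ℕ => ((2 ^ q.1.1 : ℕ) : ℤ)) :=
    primrec_int_ofNat.comp (primrec_pow.comp (Primrec.const 2) (Primrec.fst.comp Primrec.fst))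
  have h1 : Primrec (fun q : (ℕ × ℕ × List (ℤ × ℕ)) × ℕ =>
      (q.1.2.2.getD q.2 (0, 1)).1 * ((2 ^ q.1.1 : ℕ) : ℤ) / ((q.1.2.2.getD q.2 (0, 1)).2 : ℤ)) :=
    primrec_int_ediv_nat.comp (primrec_int_mul.comp (Primrec.fst.comp hget) hpow)
      (Primrec.snd.comp hget)
  have h2 : Primrec (fun q : (ℕ × ℕ × List (ℤ × ℕ)) × ℕ =>
      (((q.1.2.1 / 4 ^ q.2 % 4 : ℕ) : ℤ) - ((1 : ℕ) : ℤ))) := by
    refine primrec_nat_sub_int.comp ?_ (Primrec.const 1)
    refine Primrec.nat_mod.comp ?_ (Primrec.const 4)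
    exact Primrec.nat_div.comp (Primrec.fst.comp (Primrec.snd.comp Primrec.fst))
      (primrec_pow.comp (Primrec.const 4) Primrec.snd)
  exact Primrec.list_map (Primrec.const (List.range m)) (primrec_int_add.comp h1 h2).to₂

/-- The number with given digits in base `4`. -/
def Rat2_dig : (m : ℕ) → (ℕ → ℕ) → ℕ
  | 0, _ => 0
  | m + 1, f => f 0 + 4 * Rat2_dig m (fun j => f (j + 1))

theorem Rat2_dig_lt (m : ℕ) : ∀ f : ℕ → ℕ, (∀ j, f j < 4) → Rat2_dig m f < 4 ^ m := by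
  induction m with
  | zero => intro f hf; simp [Rat2_dig]
  | succ m ih =>
    intro f hf
    have h1 := ih (fun j => f (j + 1)) (fun j => hf _)
    have h2 := hf 0
    rw [Rat2_dig, pow_succ]
    omega

theorem Rat2_dig_get (m : ℕ) : ∀ f : ℕ → ℕ, (∀ j, f j < 4) → ∀ j < m,
    Rat2_dig m f / 4 ^ j % 4 = f j := by
  induction m with
  | zero => intro f hf j hj; omega
  | succ m ih =>
    intro f hf j hj
    have h2 := hf 0
    rcases j with _ | j
    · rw [Rat2_dig, pow_zero, Nat.div_one]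
      omega
    · rw [Rat2_dig, pow_succ', ← Nat.div_div_eq_div_mul]
      have h3 : (f 0 + 4 * Rat2_dig m (fun j => f (j + 1))) / 4 =
          Rat2_dig m (fun j => f (j + 1)) := by omega
      rw [h3]
      exact ih (fun j => f (j + 1)) (fun j => hf _) j (by omega)

theorem Rat2_floor (q : ℚ) (r : ℕ) :
    gp r (q : ℝ) = q.num * ((2 ^ r : ℕ) : ℤ) / (q.den : ℤ) := by
  have h1 : (2 : ℝ) ^ r * (q : ℝ) = (((q.num * ((2 ^ r : ℕ) : ℤ) : ℤ) : ℚ) / (q.den : ℚ) : ℚ) := by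
    have h2 : (q : ℝ) = (q.num : ℝ) / (q.den : ℝ) := Rat.cast_def q
    rw [h2]
    push_cast
    ring
  rw [gp, h1, Rat.floor_cast, Rat.floor_intCast_div_natCast]

theorem Rat2_near (x y : ℝ) (r : ℕ) (h : |x - y| < (1 / 2) ^ r) :
    ∃ d < 3, gp r y = gp r x + ((d : ℕ) : ℤ) - 1 := by
  have h2 : |(2 : ℝ) ^ r * x - 2 ^ r * y| < 1 := by
    rw [← mul_sub, abs_mul, abs_of_pos (by positivity)]
    calc (2 : ℝ) ^ r * |x - y| < 2 ^ r * (1 / 2) ^ r := by gcongr
      _ = 1 := by rw [← mul_pow]; norm_num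
  rw [abs_lt] at h2
  have h3 : gp r y ≤ gp r x + 1 := by
    rw [gp, gp, ← Int.floor_add_one]
    apply Int.floor_le_floor
    linarith
  have h4 : gp r x ≤ gp r y + 1 := by
    rw [gp, gp, ← Int.floor_add_one]
    apply Int.floor_le_floor
    linarith
  refine ⟨(gp r y - gp r x + 1).toNat, ?_, ?_⟩ <;> omega

theorem Rat2_nonempty (U : Mach) {m : ℕ} (x : Fin m → ℝ) (r : ℕ) :
    ∃ q : Fin m → ℚ, Real.sqrt (∑ i, ((q i : ℝ) - x i) ^ 2) < (1 / 2) ^ r ∧
      K U (ratCode q) = Kr U x r := by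
  have hne : {k : ℕ | ∃ q : Fin m → ℚ, Real.sqrt (∑ i, ((q i : ℝ) - x i) ^ 2) < (1 / 2) ^ r ∧
      K U (ratCode q) = k}.Nonempty := by
    have hε : 0 < ((1 / 2 : ℝ) ^ r) ^ 2 / (m + 1) := by positivity
    have h1 : ∀ i, ∃ q : ℚ, ((q : ℝ) - x i) ^ 2 < ((1 / 2 : ℝ) ^ r) ^ 2 / (m + 1) := by
      intro i
      obtain ⟨q, hq1, hq2⟩ := exists_rat_btwn
        (show x i < x i + Real.sqrt (((1 / 2 : ℝ) ^ r) ^ 2 / (m + 1)) by
          have := Real.sqrt_pos.mpr hε
          linarith)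
      refine ⟨q, ?_⟩
      have h2 : (q : ℝ) - x i < Real.sqrt (((1 / 2 : ℝ) ^ r) ^ 2 / (m + 1)) := by linarith
      exact (Real.lt_sqrt (by linarith)).1 h2
    choose q hq using h1
    refine ⟨_, q, ?_, rfl⟩
    rw [Real.sqrt_lt' (by positivity)]
    rcases Nat.eq_zero_or_pos m with hm | hm
    · subst hm
      simp
    · have hne' : (Finset.univ : Finset (Fin m)).Nonempty := ⟨⟨0, hm⟩, Finset.mem_univ _⟩
      calc ∑ i, ((q i : ℝ) - x i) ^ 2 < ∑ _i : Fin m, ((1 / 2 : ℝ) ^ r) ^ 2 / (m + 1) :=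
            Finset.sum_lt_sum_of_nonempty hne' fun i _ => hq i
        _ = m * (((1 / 2 : ℝ) ^ r) ^ 2 / (m + 1)) := by simp
        _ ≤ ((1 / 2 : ℝ) ^ r) ^ 2 := by
            rw [mul_div_assoc', div_le_iff₀ (by positivity)]
            have : 0 ≤ ((1 / 2 : ℝ) ^ r) ^ 2 := by positivity
            nlinarith
  exact Nat.sInf_mem hne

theorem KC_le_Kr {U : Mach} (hU : IsUniversal U) (m : ℕ) :
    ∃ c : ℕ, ∀ (x : Fin m → ℝ) (r : ℕ),
      KC U (List.ofFn fun i => gp r (x i)) ≤ Kr U x r + c * (Nat.size r + 1) := by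
  obtain ⟨c, hc⟩ := KC_le_prim hU (Rat2_primrec m)
  refine ⟨2 * m + 2 * Nat.size (2 * m) + 2 + c, fun x r => ?_⟩
  obtain ⟨q, hq1, hq2⟩ := Rat2_nonempty U x r
  have hnear : ∀ i, |(q i : ℝ) - x i| < (1 / 2) ^ r := by
    intro i
    refine lt_of_le_of_lt ?_ hq1
    apply Real.le_sqrt_of_sq_le
    rw [sq_abs]
    exact Finset.single_le_sum (f := fun i => ((q i : ℝ) - x i) ^ 2)
      (fun i _ => sq_nonneg _) (Finset.mem_univ i)
  choose d hd1 hd2 using fun i => Rat2_near (q i : ℝ) (x i) r (hnear i)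
  set f : ℕ → ℕ := fun j => if h : j < m then d ⟨j, h⟩ else 0 with hf
  have hf4 : ∀ j, f j < 4 := by
    intro j
    rw [hf]
    dsimp only
    split_ifs with h
    · have := hd1 ⟨j, h⟩
      omega
    · omega
  have hlt : Rat2_dig m f < 2 ^ (2 * m) := by
    rw [pow_mul]
    exact Rat2_dig_lt m f hf4
  have key := hc r (2 * m) (Rat2_dig m f) (List.ofFn fun i => ((q i).num, (q i).den)) hlt
  have hF : Rat2_F m (r, Rat2_dig m f, List.ofFn fun i => ((q i).num, (q i).den)) =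
      List.ofFn fun i => gp r (x i) := by
    apply List.ext_getElem
    · simp [Rat2_F]
    · intro j h1 h2
      have hj : j < m := by simpa using h2
      have hget : (List.ofFn fun i : Fin m => ((q i).num, (q i).den)).getD j (0, 1) =
          ((q ⟨j, hj⟩).num, (q ⟨j, hj⟩).den) := by
        rw [List.getD_eq_getElem _ _ (by simpa using hj)]
        simp
      simp only [Rat2_F, List.getElem_map, List.getElem_range, List.getElem_ofFn]
      rw [hget, Rat2_dig_get m f hf4 j hj]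
      have hfj : f j = d ⟨j, hj⟩ := by
        rw [hf]
        dsimp only
        rw [dif_pos hj]
      rw [hfj, hd2, Rat2_floor]
      push_cast
      ring
  rw [hF] at key
  have hk : KC U (List.ofFn fun i => ((q i).num, (q i).den)) = Kr U x r := by
    rw [← hq2]
    rfl
  rw [hk] at key
  have hs : (2 * m + 2 * Nat.size (2 * m) + 2 + c) * (Nat.size r + 1) ≥
      2 * m + 2 * Nat.size (2 * m) + 2 * Nat.size r + c := by
    have h1 : (2 * m + 2 * Nat.size (2 * m) + 2 + c) * (Nat.size r + 1) =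
      (2 * m + 2 * Nat.size (2 * m) + c) * Nat.size r + 2 * Nat.size r +
        (2 * m + 2 * Nat.size (2 * m) + 2 + c) := by ring
    rw [h1]
    have := Nat.zero_le ((2 * m + 2 * Nat.size (2 * m) + c) * Nat.size r)
    omega
  omega

theorem KC_pair_list {U : Mach} (hU : IsUniversal U) :
    ∃ c : ℕ, ∀ p : ℤ × ℤ, KC U p ≤ KC U [p.1, p.2] + c ∧ KC U [p.1, p.2] ≤ KC U p + c := by
  have h1 : Primrec (fun z : ℕ × ℕ × List ℤ => (z.2.2.getD 0 0, z.2.2.getD 1 0)) :=
    Primrec.pair ((Primrec.list_getD 0).comp (Primrec.snd.comp Primrec.snd) (Primrec.const 0))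
      ((Primrec.list_getD 0).comp (Primrec.snd.comp Primrec.snd) (Primrec.const 1))
  have h2 : Primrec (fun z : ℕ × ℕ × (ℤ × ℤ) => [z.2.2.1, z.2.2.2]) :=
    Primrec.list_cons.comp (Primrec.fst.comp (Primrec.snd.comp Primrec.snd))
      (Primrec.list_cons.comp (Primrec.snd.comp (Primrec.snd.comp Primrec.snd))
        (Primrec.const []))
  obtain ⟨c1, hc1⟩ := KC_le_prim hU h1
  obtain ⟨c2, hc2⟩ := KC_le_prim hU h2
  refine ⟨c1 + c2, ?_⟩
  rintro ⟨a, b⟩
  dsimp only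
  refine ⟨?_, ?_⟩
  · have := hc1 0 0 0 [a, b] (by norm_num)
    simp only [List.getD_cons_zero, List.getD_cons_succ, Nat.size_zero] at this
    omega
  · have := hc2 0 0 0 (a, b) (by norm_num)
    simp only [Nat.size_zero] at this
    omega

end Pool.Agent.Helper24.DS
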