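import Pool.Agent.Helper24.DS.Rat1
import Pool.Agent.Helper24.DS.Rat2

/-!
# Dimension spectra of polynomial graphs: module BaseDim
-/

set_option autoImplicit false

namespace Pool.Agent.Helper24.DS

open Filter Set

lemma BaseDim_bc {n : ℕ} (a : Fin n → ℝ) (j : Fin n) : bc a 0 0 j = a j := by
  unfold bc
  rw [Finset.sum_eq_single j]
  · simp
  · intro i _ hij
    have hne : (i : ℕ) ≠ (j : ℕ) := fun h => hij (Fin.ext h)
    rcases lt_or_gt_of_ne hne with h | h
    · rw [Nat.choose_eq_zero_of_lt h]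
      simp
    · have : (i : ℕ) - (j : ℕ) ≠ 0 := by omega
      simp [zero_pow this]
  · intro h
    exact absurd (Finset.mem_univ j) h

/-- multiples of the size are small -/
lemma BaseDim_size (L : ℕ) : ∃ C : ℕ, ∀ v : ℕ, L * Nat.size v ≤ v + C := by
  have h : Tendsto (fun k : ℕ => ((k : ℝ) ^ 1) / (2 : ℝ) ^ k) atTop (nhds 0) :=
    tendsto_pow_const_div_const_pow_of_one_lt 1 (by norm_num)
  have h1 : ∀ᶠ k : ℕ in atTop, ((k : ℝ) ^ 1) / (2 : ℝ) ^ k < 1 / (2 * (L : ℝ) + 1) :=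
    h.eventually (gt_mem_nhds (by positivity))
  obtain ⟨K, hK⟩ := eventually_atTop.1 h1
  refine ⟨L * K, fun v => ?_⟩
  rcases le_or_gt (Nat.size v) K with hs | hs
  · exact (Nat.mul_le_mul_left L hs).trans (Nat.le_add_left _ _)
  · have h2 := hK (Nat.size v) hs.le
    have hpos : (0 : ℝ) < 2 ^ Nat.size v := by positivity
    rw [pow_one, div_lt_div_iff₀ hpos (by positivity), one_mul] at h2
    have h3 : 2 ^ (Nat.size v - 1) ≤ v := by
      rw [← Nat.lt_size]
      omega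
    have h4 : 2 ^ Nat.size v = 2 * 2 ^ (Nat.size v - 1) := by
      rw [← pow_succ']
      congr 1
      omega
    have h5 : (2 : ℝ) ^ Nat.size v ≤ 2 * v := by
      have : 2 ^ Nat.size v ≤ 2 * v := by omega
      exact_mod_cast this
    have h6 : (L : ℝ) * Nat.size v ≤ v := by
      have h7 : (0 : ℝ) ≤ (Nat.size v : ℝ) := Nat.cast_nonneg _
      nlinarith
    have h8 : L * Nat.size v ≤ v := by exact_mod_cast h6
    omega

theorem base_of_dim {U : Mach} (hU : IsUniversal U) {n : ℕ} (a : Fin n → ℝ) (ha : 1 ≤ dim U a) :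
    ∀ E : ℕ, 0 < E → ∃ C : ℕ, ∀ v : ℕ, E * v ≤ E * M U a 0 0 v + v + C := by
  intro E hE
  obtain ⟨c1, hc1⟩ := Kr_le_KC hU n
  have hF : Primrec (fun q : ℕ × ℕ × (ℕ × List ℤ) => q.2.2.2) :=
    Primrec.snd.comp (Primrec.snd.comp Primrec.snd)
  obtain ⟨c2, hc2⟩ := KC_le_prim hU hF
  -- the complexity of the coefficients
  have hM : ∀ v : ℕ, KC U (List.ofFn fun j => gp v (a j)) ≤ M U a 0 0 v + c2 := by
    intro v
    have h := hc2 0 0 0 ((0, List.ofFn fun j => gp v (bc a 0 0 j)) : ℕ × List ℤ) (by norm_num)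
    simp only [BaseDim_bc, Nat.size_zero] at h
    unfold M
    simp only [BaseDim_bc]
    omega
  -- the dimension
  have hlim : ∃ R : ℕ, ∀ r : ℕ, R ≤ r → (2 * E - 1) * r ≤ 2 * E * Kr U a r := by
    have hE' : (1 : ℝ) ≤ E := by exact_mod_cast hE
    set θ : ℝ := 1 - 1 / (2 * E) with hθ
    have hθ1 : θ < 1 := by
      rw [hθ]
      have : (0 : ℝ) < 1 / (2 * E) := by positivity
      linarith
    have hθ0 : 0 ≤ θ := by
      rw [hθ]
      have : 1 / (2 * (E : ℝ)) ≤ 1 / 2 := one_div_le_one_div_of_le (by norm_num) (by linarith)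
      linarith
    have hlt : ENNReal.ofReal θ < dim U a := by
      refine lt_of_lt_of_le ?_ ha
      rw [← ENNReal.ofReal_one]
      exact (ENNReal.ofReal_lt_ofReal_iff one_pos).2 hθ1
    have hev := eventually_lt_of_lt_liminf hlt
    obtain ⟨R, hR⟩ := eventually_atTop.1 hev
    refine ⟨R + 1, fun r hr => ?_⟩
    have h1 := hR r (by omega)
    have hr0 : (0 : ℝ) < r := by exact_mod_cast (by omega : 0 < r)
    have hrne : (r : ENNReal) ≠ 0 := by
      have : r ≠ 0 := by omega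
      exact_mod_cast this
    rw [ENNReal.lt_div_iff_mul_lt (Or.inl hrne) (Or.inl (ENNReal.natCast_ne_top r))] at h1
    have h2 : ENNReal.ofReal θ * (r : ENNReal) = ENNReal.ofReal (θ * r) := by
      rw [ENNReal.ofReal_mul hθ0, ENNReal.ofReal_natCast]
    rw [h2, ← ENNReal.ofReal_natCast (Kr U a r)] at h1
    have h3 : θ * r ≤ (Kr U a r : ℝ) := by
      by_contra hcon
      push Not at hcon
      exact absurd h1 (not_lt.2 (ENNReal.ofReal_le_ofReal hcon.le))
    have h4 : (2 * (E : ℝ) - 1) * r ≤ 2 * E * (Kr U a r : ℝ) := by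
      have h5 : 2 * (E : ℝ) * θ = 2 * E - 1 := by
        rw [hθ]
        field_simp
      calc (2 * (E : ℝ) - 1) * r = 2 * E * (θ * r) := by rw [← h5]; ring
        _ ≤ _ := mul_le_mul_of_nonneg_left h3 (by positivity)
    have h6 : ((2 * E - 1 : ℕ) : ℝ) = 2 * (E : ℝ) - 1 := by
      rw [Nat.cast_sub (by omega)]
      push_cast
      ring
    rw [← h6] at h4
    exact_mod_cast h4
  obtain ⟨R, hR⟩ := hlim
  obtain ⟨C0, hC0⟩ := BaseDim_size (2 * E * c1)
  refine ⟨E * (R + c1) + 2 * E * c1 + 2 * E * c2 + 2 * E * c1 + C0, fun v => ?_⟩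
  rcases lt_or_ge v (R + c1) with hv | hv
  · have h1 : E * v ≤ E * (R + c1) := Nat.mul_le_mul_left E hv.le
    omega
  · have h1 := hR (v - c1) (by omega)
    have h2 := hc1 a v (by omega)
    have h3 := hM v
    have h4 := hC0 v
    have h5 : Kr U a (v - c1) ≤ M U a 0 0 v + c2 + c1 * (Nat.size v + 1) := by omega
    have h6 : 2 * E * Kr U a (v - c1) ≤ 2 * E * (M U a 0 0 v + c2 + c1 * (Nat.size v + 1)) :=
      Nat.mul_le_mul_left _ h5
    have h7 : 2 * E * (M U a 0 0 v + c2 + c1 * (Nat.size v + 1)) =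
        2 * (E * M U a 0 0 v) + 2 * E * c2 + 2 * E * c1 * Nat.size v + 2 * E * c1 := by ring
    obtain ⟨E', rfl⟩ : ∃ E', E = E' + 1 := ⟨E - 1, by omega⟩
    obtain ⟨v', rfl⟩ : ∃ v', v = v' + c1 := ⟨v - c1, by omega⟩
    have h8 : v' + c1 - c1 = v' := by omega
    have h9 : 2 * (E' + 1) - 1 = 2 * E' + 1 := by omega
    rw [h8, h9] at h1
    rw [h8] at h6
    have h10 : (2 * E' + 1) * v' ≤ 2 * ((E' + 1) * M U a 0 0 (v' + c1)) + 2 * (E' + 1) * c2 +
        2 * (E' + 1) * c1 * Nat.size (v' + c1) + 2 * (E' + 1) * c1 := by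
      rw [← h7]
      exact h1.trans h6
    have h11 : 2 * ((E' + 1) * (v' + c1)) = (2 * E' + 1) * v' + v' + 2 * (E' + 1) * c1 := by ring
    have h12 : 0 ≤ (E' + 1) * (R + c1) := Nat.zero_le _
    omega

end Pool.Agent.Helper24.DS
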