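import Pool.Agent.Helper24.DS.Base

/-!
# Dimension spectra of polynomial graphs: module Block
-/

set_option autoImplicit false

namespace Pool.Agent.Helper24.DS

open Filter Set

/-- every position is in one of the blocks -/
theorem Block_cover {N v i : ℕ} (hN : N < 2 ^ (v + 1)) (hi : i < N) :
    ∃ k, k ≤ v ∧ i / 2 ^ k + 1 = N / 2 ^ k := by
  classical
  have hex : ∃ k, N / 2 ^ k ≤ i / 2 ^ k := ⟨v + 1, by rw [Nat.div_eq_of_lt hN]; exact Nat.zero_le _⟩
  have h0 : Nat.find hex ≠ 0 := by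
    intro h
    have := Nat.find_spec hex
    rw [h] at this
    simp at this
    omega
  have h1 : Nat.find hex ≤ v + 1 :=
    Nat.find_min' hex (by rw [Nat.div_eq_of_lt hN]; exact Nat.zero_le _)
  obtain ⟨k, hk⟩ : ∃ k, Nat.find hex = k + 1 := ⟨Nat.find hex - 1, by omega⟩
  have h2 := Nat.find_spec hex
  have h3 : ¬ N / 2 ^ k ≤ i / 2 ^ k := Nat.find_min hex (by omega)
  rw [hk, pow_succ, ← Nat.div_div_eq_div_mul, ← Nat.div_div_eq_div_mul] at h2
  exact ⟨k, by omega, by omega⟩

/-- binary decomposition of a list into blocks -/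
theorem exists_block {l : List (ℤ × ℤ)} (hl : l.Nodup) {v : ℕ} (hv : l.length < 2 ^ (v + 1))
    (S : Finset (ℤ × ℤ)) (hS0 : S.Nonempty) (hS : ∀ z ∈ S, z ∈ l) :
    ∃ m k : ℕ, 1 ≤ m ∧ k ≤ v ∧ m * 2 ^ k ≤ l.length ∧
      S.card ≤ (S.filter fun z => z ∈ block l m k).card * (v + 1) := by
  classical
  have _ := hl
  set N := l.length with hN
  set B : ℕ → Finset (ℤ × ℤ) := fun k => S.filter fun z => z ∈ block l (N / 2 ^ k) k with hB
  set Ks := (Finset.range (v + 1)).filter fun k => 1 ≤ N / 2 ^ k with hKs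
  have hcov : S ⊆ Ks.biUnion B := by
    intro z hz
    obtain ⟨i, hi, hzi⟩ := List.mem_iff_getElem.1 (hS z hz)
    obtain ⟨k, hkv, hk⟩ : ∃ k, k ≤ v ∧ i / 2 ^ k + 1 = N / 2 ^ k := Block_cover hv hi
    rw [Finset.mem_biUnion]
    refine ⟨k, ?_, ?_⟩
    · rw [hKs, Finset.mem_filter, Finset.mem_range]
      refine ⟨Nat.lt_succ_of_le hkv, ?_⟩
      rw [← hk]
      exact Nat.le_add_left 1 _
    · rw [hB]
      simp only [Finset.mem_filter]
      refine ⟨hz, ?_⟩
      rw [← hk]
      unfold block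
      rw [Nat.add_sub_cancel, List.mem_iff_getElem]
      have h1 := Nat.div_add_mod i (2 ^ k)
      have h2 : i % 2 ^ k < 2 ^ k := Nat.mod_lt _ (by positivity)
      have h3 : i / 2 ^ k * 2 ^ k = 2 ^ k * (i / 2 ^ k) := mul_comm _ _
      refine ⟨i % 2 ^ k, ?_, ?_⟩
      · rw [List.length_take, List.length_drop]
        omega
      · rw [List.getElem_take, List.getElem_drop]
        rw [← hzi]
        congr 1
        omega
  have hKne : Ks.Nonempty := by
    obtain ⟨z, hz⟩ := hS0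
    obtain ⟨k, hk, -⟩ := Finset.mem_biUnion.1 (hcov hz)
    exact ⟨k, hk⟩
  obtain ⟨k, hk, hmax⟩ := Finset.exists_max_image Ks (fun k => (B k).card) hKne
  have hk' := hk
  rw [hKs, Finset.mem_filter, Finset.mem_range] at hk'
  refine ⟨N / 2 ^ k, k, hk'.2, by omega, Nat.div_mul_le_self _ _, ?_⟩
  calc S.card ≤ (Ks.biUnion B).card := Finset.card_le_card hcov
    _ ≤ ∑ k' ∈ Ks, (B k').card := Finset.card_biUnion_le
    _ ≤ ∑ _k' ∈ Ks, (B k).card := Finset.sum_le_sum hmax
    _ = Ks.card * (B k).card := by rw [Finset.sum_const, smul_eq_mul]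
    _ ≤ (v + 1) * (B k).card := by
        apply Nat.mul_le_mul_right
        calc Ks.card ≤ (Finset.range (v + 1)).card := Finset.card_filter_le _ _
          _ = v + 1 := Finset.card_range _
    _ = (B k).card * (v + 1) := mul_comm _ _

end Pool.Agent.Helper24.DS
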