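import Pool.Agent.Helper24.DS.PrimFl

/-!
# Dimension spectra of polynomial graphs: module PrimValid
-/

set_option autoImplicit false

namespace Pool.Agent.Helper24.DS

open Filter Set

section PrimValidAux

variable {α β : Type} [Primcodable α] [Primcodable β]

private theorem PrimValid_forall_mem {l : α → List β} {R : β → α → Prop} (hl : Primrec l)
    (hR : PrimrecRel R) : PrimrecPred fun x => ∀ b ∈ l x, R b x :=
  hR.forall_mem_list.comp hl Primrec.id

private theorem PrimValid_exists_mem {l : α → List β} {R : β → α → Prop} (hl : Primrec l)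
    (hR : PrimrecRel R) : PrimrecPred fun x => ∃ b ∈ l x, R b x :=
  hR.exists_mem_list.comp hl Primrec.id

private theorem PrimValid_forall_lt {n : α → ℕ} {R : ℕ → α → Prop} (hn : Primrec n)
    (hR : PrimrecRel R) : PrimrecPred fun x => ∀ u < n x, R u x :=
  (PrimValid_forall_mem (Primrec.list_range.comp hn) hR).of_eq (by simp)

private theorem PrimValid_exists_lt {n : α → ℕ} {R : ℕ → α → Prop} (hn : Primrec n)
    (hR : PrimrecRel R) : PrimrecPred fun x => ∃ u < n x, R u x :=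
  (PrimValid_exists_mem (Primrec.list_range.comp hn) hR).of_eq (by simp)

private theorem PrimValid_mem {l : α → List β} {f : α → β} (hl : Primrec l) (hf : Primrec f) :
    PrimrecPred fun x => f x ∈ l x := by
  have h1 : PrimrecRel fun (b : β) (x : α) => b = f x :=
    Primrec.eq.comp Primrec.fst (hf.comp Primrec.snd)
  refine (PrimValid_exists_mem hl h1).of_eq fun x => ?_
  constructor
  · rintro ⟨b, hb, rfl⟩
    exact hb
  · intro h
    exact ⟨_, h, rfl⟩

private theorem PrimValid_imp {p q : α → Prop} (hp : PrimrecPred p) (hq : PrimrecPred q) :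
    PrimrecPred fun x => p x → q x :=
  (hp.not.or hq).of_eq fun x => by tauto

end PrimValidAux

/-- the parameters of `Valid` -/
private abbrev PVX : Type := (ℕ × ℕ × ℕ) × List (ℤ × ℤ) × List (ℕ × List ℤ)

private theorem PrimValid_h : Primrec fun x : PVX => x.1.1 := Primrec.fst.comp Primrec.fst

private theorem PrimValid_r : Primrec fun x : PVX => x.1.2.1 :=
  Primrec.fst.comp (Primrec.snd.comp Primrec.fst)

private theorem PrimValid_L : Primrec fun x : PVX => x.2.1 := Primrec.fst.comp Primrec.snd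

private theorem PrimValid_Q : Primrec fun x : PVX => x.2.2 := Primrec.snd.comp Primrec.snd

private theorem PrimValid_one (C E : ℕ) :
    PrimrecRel fun (u : ℕ) (x : PVX) => (x.2.2.filter fun q => decide (q.1 = u)).length *
      4 ^ x.1.2.1 ≤ C * 2 ^ (u + x.1.2.1 / E + x.1.1) * x.2.1.length := by
  have hu : Primrec fun y : ℕ × PVX => y.1 := Primrec.fst
  have hh : Primrec fun y : ℕ × PVX => y.2.1.1 := PrimValid_h.comp Primrec.snd
  have hr : Primrec fun y : ℕ × PVX => y.2.1.2.1 := PrimValid_r.comp Primrec.snd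
  have hL : Primrec fun y : ℕ × PVX => y.2.2.1 := PrimValid_L.comp Primrec.snd
  have hQ : Primrec fun y : ℕ × PVX => y.2.2.2 := PrimValid_Q.comp Primrec.snd
  have hrel : PrimrecRel fun (q : ℕ × List ℤ) (u : ℕ) => q.1 = u :=
    Primrec.eq.comp (Primrec.fst.comp Primrec.fst) Primrec.snd
  have hf : Primrec fun y : ℕ × PVX => (y.2.2.2.filter fun q => decide (q.1 = y.1)) :=
    hrel.listFilter.comp hQ hu
  have hlen : Primrec fun y : ℕ × PVX => (y.2.2.2.filter fun q => decide (q.1 = y.1)).length :=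
    Primrec.list_length.comp hf
  have h4 : Primrec fun y : ℕ × PVX => 4 ^ y.2.1.2.1 := primrec_pow.comp (Primrec.const 4) hr
  have he : Primrec fun y : ℕ × PVX => y.1 + y.2.1.2.1 / E + y.2.1.1 :=
    Primrec.nat_add.comp (Primrec.nat_add.comp hu (Primrec.nat_div.comp hr (Primrec.const E))) hh
  have h2 : Primrec fun y : ℕ × PVX => 2 ^ (y.1 + y.2.1.2.1 / E + y.2.1.1) :=
    primrec_pow.comp (Primrec.const 2) he
  have hleft : Primrec fun y : ℕ × PVX =>
      (y.2.2.2.filter fun q => decide (q.1 = y.1)).length * 4 ^ y.2.1.2.1 :=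
    Primrec.nat_mul.comp hlen h4
  have hright : Primrec fun y : ℕ × PVX =>
      C * 2 ^ (y.1 + y.2.1.2.1 / E + y.2.1.1) * y.2.2.1.length :=
    Primrec.nat_mul.comp (Primrec.nat_mul.comp (Primrec.const C) h2) (Primrec.list_length.comp hL)
  exact Primrec.nat_le.comp hleft hright

private theorem PrimValid_map : Primrec fun y : ℕ × (List ℤ × PVX) =>
    ((y.1, y.2.1.map fun b => b / (2 : ℤ) ^ (y.2.2.1.2.1 - y.1)) : ℕ × List ℤ) := by
  have hu : Primrec fun y : ℕ × (List ℤ × PVX) => y.1 := Primrec.fst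
  have hβ : Primrec fun y : ℕ × (List ℤ × PVX) => y.2.1 := Primrec.fst.comp Primrec.snd
  have hx : Primrec fun y : ℕ × (List ℤ × PVX) => y.2.2 := Primrec.snd.comp Primrec.snd
  have hr : Primrec fun y : ℕ × (List ℤ × PVX) => y.2.2.1.2.1 := PrimValid_r.comp hx
  have hp : Primrec fun y : ℕ × (List ℤ × PVX) => 2 ^ (y.2.2.1.2.1 - y.1) :=
    primrec_pow.comp (Primrec.const 2) (Primrec.nat_sub.comp hr hu)
  have hg : Primrec₂ fun (y : ℕ × (List ℤ × PVX)) (b : ℤ) =>
      b / ((2 ^ (y.2.2.1.2.1 - y.1) : ℕ) : ℤ) :=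
    primrec_int_ediv_nat.comp Primrec.snd (hp.comp Primrec.fst)
  have hm : Primrec fun y : ℕ × (List ℤ × PVX) => y.2.1.map fun b =>
      b / ((2 ^ (y.2.2.1.2.1 - y.1) : ℕ) : ℤ) := Primrec.list_map hβ hg
  refine (Primrec.pair hu hm).of_eq fun y => ?_
  simp only [Nat.cast_pow, Nat.cast_ofNat]

private theorem PrimValid_two (D N : ℕ) :
    PrimrecRel fun (β : List ℤ) (x : PVX) => (2 ^ (x.1.2.1 - x.1.2.1 / N) ≤
      hit D x.1.1 x.1.2.1 x.1.2.2 x.2.1 β →
      ∃ u < x.1.2.1 + 1, (u, β.map fun b => b / (2 : ℤ) ^ (x.1.2.1 - u)) ∈ x.2.2) := by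
  have hβ : Primrec fun y : List ℤ × PVX => y.1 := Primrec.fst
  have hx : Primrec fun y : List ℤ × PVX => y.2 := Primrec.snd
  have hr : Primrec fun y : List ℤ × PVX => y.2.1.2.1 := PrimValid_r.comp hx
  have hL : Primrec fun y : List ℤ × PVX => y.2.2.1 := PrimValid_L.comp hx
  have hhit : Primrec fun y : List ℤ × PVX => hit D y.2.1.1 y.2.1.2.1 y.2.1.2.2 y.2.2.1 y.1 :=
    (primrec_hit D).comp ((Primrec.fst.comp hx).pair (hL.pair hβ))
  have hleft : Primrec fun y : List ℤ × PVX => 2 ^ (y.2.1.2.1 - y.2.1.2.1 / N) :=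
    primrec_pow.comp (Primrec.const 2) (Primrec.nat_sub.comp hr
      (Primrec.nat_div.comp hr (Primrec.const N)))
  have h1 : PrimrecPred fun y : List ℤ × PVX => 2 ^ (y.2.1.2.1 - y.2.1.2.1 / N) ≤
      hit D y.2.1.1 y.2.1.2.1 y.2.1.2.2 y.2.2.1 y.1 := Primrec.nat_le.comp hleft hhit
  have h2 : PrimrecRel fun (u : ℕ) (y : List ℤ × PVX) =>
      (u, y.1.map fun b => b / (2 : ℤ) ^ (y.2.1.2.1 - u)) ∈ y.2.2.2 :=
    PrimValid_mem (α := ℕ × (List ℤ × PVX)) (l := fun y => y.2.2.2.2)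
      (PrimValid_Q.comp (Primrec.snd.comp Primrec.snd)) PrimValid_map
  have h3 : PrimrecPred fun y : List ℤ × PVX => ∃ u < y.2.1.2.1 + 1,
      (u, y.1.map fun b => b / (2 : ℤ) ^ (y.2.1.2.1 - u)) ∈ y.2.2.2 :=
    PrimValid_exists_lt (Primrec.succ.comp hr) h2
  exact PrimValid_imp h1 h3

theorem primrecPred_valid (n B C D E N : ℕ) :
    PrimrecPred (fun x : (ℕ × ℕ × ℕ) × List (ℤ × ℤ) × List (ℕ × List ℤ) =>
      Valid n B C D E N x.1.1 x.1.2.1 x.1.2.2 x.2.1 x.2.2) := by
  have h1 : PrimrecPred fun x : PVX => ∀ u < x.1.2.1 + 1,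
      (x.2.2.filter fun q => decide (q.1 = u)).length *
      4 ^ x.1.2.1 ≤ C * 2 ^ (u + x.1.2.1 / E + x.1.1) * x.2.1.length :=
    PrimValid_forall_lt (Primrec.succ.comp PrimValid_r) (PrimValid_one C E)
  have hbox : Primrec fun x : PVX => boxL n (B * 2 ^ x.1.2.1) :=
    (primrec_boxL n).comp (Primrec.nat_mul.comp (Primrec.const B)
      (primrec_pow.comp (Primrec.const 2) PrimValid_r))
  have h2 := PrimValid_forall_mem hbox (PrimValid_two D N)
  exact h1.and h2

theorem primrecPred_leastValid (n B C D E N : ℕ) :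
    PrimrecPred (fun x : (ℕ × ℕ × ℕ) × List (ℤ × ℤ) × List (ℕ × List ℤ) =>
      LeastValid n B C D E N x.1.1 x.1.2.1 x.1.2.2 x.2.1 x.2.2) := by
  have h1 := primrecPred_valid n B C D E N
  -- validity of a list `Q'` with the parameters of `x`
  have h2 : PrimrecRel fun (Q' : List (ℕ × List ℤ)) (y : ℕ × PVX) =>
      Valid n B C D E N y.2.1.1 y.2.1.2.1 y.2.1.2.2 y.2.2.1 Q' :=
    h1.comp (f := fun z : List (ℕ × List ℤ) × (ℕ × PVX) => (z.2.2.1, (z.2.2.2.1, z.1)))
      ((Primrec.fst.comp (Primrec.snd.comp Primrec.snd)).pair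
        ((Primrec.fst.comp (Primrec.snd.comp (Primrec.snd.comp Primrec.snd))).pair Primrec.fst))
  have h3 : Primrec fun y : ℕ × PVX =>
      (Encodable.decode y.1 : Option (List (ℕ × List ℤ))).toList :=
    Primrec.optionToList.comp (Primrec.decode.comp Primrec.fst)
  have h4 : PrimrecPred fun y : ℕ × PVX =>
      ∃ Q' ∈ (Encodable.decode y.1 : Option (List (ℕ × List ℤ))).toList,
        Valid n B C D E N y.2.1.1 y.2.1.2.1 y.2.1.2.2 y.2.2.1 Q' := PrimValid_exists_mem h3 h2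
  have h5 : PrimrecRel fun (c : ℕ) (x : PVX) =>
      ¬ ∃ Q' ∈ (Encodable.decode c : Option (List (ℕ × List ℤ))),
        Valid n B C D E N x.1.1 x.1.2.1 x.1.2.2 x.2.1 Q' := by
    refine PrimrecPred.of_eq h4.not fun y => not_congr ⟨?_, ?_⟩
    · rintro ⟨Q', h, h'⟩
      exact ⟨Q', Option.mem_toList.1 h, h'⟩
    · rintro ⟨Q', h, h'⟩
      exact ⟨Q', Option.mem_toList.2 h, h'⟩
  have h6 : Primrec fun x : PVX => Encodable.encode x.2.2 := Primrec.encode.comp PrimValid_Q
  exact h1.and (PrimValid_forall_lt h6 h5)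

theorem exists_leastValid {n B C D E N h r g : ℕ} {L : List (ℤ × ℤ)}
    (hex : ∃ Q, Valid n B C D E N h r g L Q) : ∃ Q, LeastValid n B C D E N h r g L Q := by
  classical
  obtain ⟨Q₀, hQ₀⟩ := hex
  have hex' : ∃ c, ∃ Q, Encodable.encode Q = c ∧ Valid n B C D E N h r g L Q :=
    ⟨_, Q₀, rfl, hQ₀⟩
  obtain ⟨Q, hQ, hV⟩ := Nat.find_spec hex'
  refine ⟨Q, hV, fun c hc => ?_⟩
  rw [hQ] at hc
  rintro ⟨Q', hQ', hV'⟩
  have h1 : ∃ Q'' ∈ (Encodable.decode c : Option (List (ℕ × List ℤ))), Encodable.encode Q'' = c :=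
    Denumerable.decode_inv c
  obtain ⟨Q'', h2, h3⟩ := h1
  have h4 : Q'' = Q' := Option.mem_unique h2 hQ'
  rw [h4] at h3
  exact Nat.find_min hex' hc ⟨Q', h3, hV'⟩

theorem leastValid_unique {n B C D E N h r g : ℕ} {L : List (ℤ × ℤ)}
    {Q Q' : List (ℕ × List ℤ)} (hQ : LeastValid n B C D E N h r g L Q)
    (hQ' : LeastValid n B C D E N h r g L Q') : Q = Q' := by
  apply Encodable.encode_injective
  rcases lt_trichotomy (Encodable.encode Q) (Encodable.encode Q') with h1 | h1 | h1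
  · exact absurd ⟨Q, Encodable.encodek Q, hQ.1⟩ (hQ'.2 _ h1)
  · exact h1
  · exact absurd ⟨Q', Encodable.encodek Q', hQ'.1⟩ (hQ.2 _ h1)

end Pool.Agent.Helper24.DS
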