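import Pool.Agent.Helper24.DS.Columns
import Pool.Agent.Helper24.DS.PrimValid

/-!
# Dimension spectra of polynomial graphs: module CardPP
-/

set_option autoImplicit false

namespace Pool.Agent.Helper24.DS

open Filter Set

lemma CardPP_block {e : ℕ → ℕ → Option ℕ} {w r h g s s' m k : ℕ} (hm : 1 ≤ m)
    (h1 : m * 2 ^ k ≤ (wl e w r h g s).length) (h2 : m * 2 ^ k ≤ (wl e w r h g s').length) :
    block (wl e w r h g s) m k = block (wl e w r h g s') m k := by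
  rcases le_total s s' with hs | hs
  · exact block_eq_of_prefix (wl_prefix e w r h g hs) hm h1
  · exact (block_eq_of_prefix (wl_prefix e w r h g hs) hm h2).symm

theorem card_PP {U : Mach} (hU : IsUniversal U) {e : ℕ → ℕ → Option ℕ}
    (he : ∀ w n, (∃ s, e w s = some n) ↔ KC U n ≤ w) (n B C D E N h r w v k u : ℕ) (hu : u ≤ r) :
    {y : ℕ × List ℤ | ∃ x, PP e n B C D E N ((h, r, w, v, k, u), y, x)}.encard * 4 ^ r ≤
      C * 2 ^ (w + u + h + r / E + 2) := by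
  classical
  set Y : Set (ℕ × List ℤ) := {y : ℕ × List ℤ | ∃ x, PP e n B C D E N ((h, r, w, v, k, u), y, x)}
    with hY
  set A : Set ℕ := {g : ℕ | ∃ s, 2 ^ v ≤ (wl e w r h g s).length} with hA
  set M0 : Set ℕ := {m : ℕ | 1 ≤ m ∧ m * 2 ^ k < 2 ^ (v + 1)} with hM0
  set T : ℕ := C * 2 ^ (u + r / E + h) * 2 ^ k with hT
  set J0 : ℕ := T / 4 ^ r with hJ0
  have hchoice : ∀ y : ℕ × List ℤ, ∃ x : ℕ × ℕ × List (ℕ × List ℤ),
      y ∈ Y → PP e n B C D E N ((h, r, w, v, k, u), y, x) := by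
    intro y
    by_cases hy : y ∈ Y
    · obtain ⟨x, hx⟩ := hy
      exact ⟨x, fun _ => hx⟩
    · exact ⟨(0, 0, []), fun h => absurd h hy⟩
  choose X hX using hchoice
  have hX' : ∀ y ∈ Y, 2 ^ v ≤ (wl e w r h y.1 (X y).1).length ∧ 1 ≤ (X y).2.1 ∧
      (X y).2.1 * 2 ^ k < 2 ^ (v + 1) ∧
      (X y).2.1 * 2 ^ k ≤ (wl e w r h y.1 (X y).1).length ∧
      LeastValid n B C D E N h r y.1 (block (wl e w r h y.1 (X y).1) (X y).2.1 k) (X y).2.2 ∧
      (u, y.2) ∈ (X y).2.2 := fun y hy => hX y hy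
  set f : ℕ × List ℤ → ℕ × (ℕ × ℕ) := fun y =>
    (y.1, (X y).2.1, ((X y).2.2.filter fun q => decide (q.1 = u)).idxOf (u, y.2)) with hf
  have hmemf : ∀ y ∈ Y, (u, y.2) ∈ (X y).2.2.filter fun q => decide (q.1 = u) := by
    intro y hy
    rw [List.mem_filter]
    exact ⟨(hX' y hy).2.2.2.2.2, by simp⟩
  have hmaps : Set.MapsTo f Y (A ×ˢ (M0 ×ˢ Set.Iio J0)) := by
    intro y hy
    obtain ⟨h1, h2, h3, h4, h5, h6⟩ := hX' y hy
    refine ⟨⟨_, h1⟩, ⟨h2, h3⟩, ?_⟩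
    have h7 := h5.1.1 u (Nat.lt_succ_of_le hu)
    rw [length_block h2 h4] at h7
    have h8 : ((X y).2.2.filter fun q => decide (q.1 = u)).length ≤ J0 := by
      rw [hJ0, Nat.le_div_iff_mul_le (by positivity)]
      exact h7
    exact lt_of_lt_of_le (List.idxOf_lt_length_iff.2 (hmemf y hy)) h8
  have hinj : Set.InjOn f Y := by
    rintro ⟨g, vec⟩ hy ⟨g', vec'⟩ hy' heq
    have hm := hmemf _ hy
    have hm' := hmemf _ hy'
    obtain ⟨h1, h2, h3, h4, h5, h6⟩ := hX' _ hy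
    obtain ⟨h1', h2', h3', h4', h5', h6'⟩ := hX' _ hy'
    simp only [hf, Prod.mk.injEq] at heq
    obtain ⟨hg, hmm, hidx⟩ := heq
    simp only at h1 h2 h3 h4 h5 h6 h1' h2' h3' h4' h5' h6' hm hm'
    subst hg
    have hb : block (wl e w r h g (X (g, vec)).1) (X (g, vec)).2.1 k =
        block (wl e w r h g (X (g, vec')).1) (X (g, vec')).2.1 k := by
      rw [hmm] at h4 h2 ⊢
      exact CardPP_block h2 h4 h4'
    rw [hb] at h5
    have hQ := leastValid_unique h5 h5'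
    rw [hQ] at hidx hm
    have e1 := List.getElem_idxOf (List.idxOf_lt_length_iff.2 hm)
    have e2 := List.getElem_idxOf (List.idxOf_lt_length_iff.2 hm')
    have e3 : ((u, vec) : ℕ × List ℤ) = (u, vec') := by
      rw [← e1, ← e2]
      congr 1
    rw [Prod.mk.injEq] at e3
    rw [e3.2]
  have hle := Set.encard_le_encard_of_injOn hmaps hinj
  rw [Set.encard_prod, Set.encard_prod] at hle
  have hI : (Set.Iio J0 : Set ℕ).encard = (J0 : ℕ∞) := by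
    have h1 : (Set.Iio J0 : Set ℕ) = ((Finset.range J0 : Finset ℕ) : Set ℕ) := by
      ext x; simp
    rw [h1, Set.encard_coe_eq_coe_finsetCard, Finset.card_range]
  rw [hI] at hle
  have hM : M0.encard * 2 ^ k ≤ 2 ^ (v + 1) := by
    have h1 : M0 ⊆ ((Finset.Icc 1 (2 ^ (v + 1) / 2 ^ k) : Finset ℕ) : Set ℕ) := by
      rintro m ⟨hm1, hm2⟩
      rw [Finset.coe_Icc, Set.mem_Icc]
      refine ⟨hm1, ?_⟩
      rw [Nat.le_div_iff_mul_le (by positivity)]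
      exact hm2.le
    have h2 : M0.encard ≤ ((2 ^ (v + 1) / 2 ^ k : ℕ) : ℕ∞) := by
      refine (Set.encard_le_encard h1).trans ?_
      rw [Set.encard_coe_eq_coe_finsetCard, Nat.card_Icc, Nat.add_sub_cancel]
    calc M0.encard * 2 ^ k ≤ ((2 ^ (v + 1) / 2 ^ k : ℕ) : ℕ∞) * 2 ^ k := by gcongr
      _ = ((2 ^ (v + 1) / 2 ^ k * 2 ^ k : ℕ) : ℕ∞) := by push_cast; rfl
      _ ≤ ((2 ^ (v + 1) : ℕ) : ℕ∞) := by exact_mod_cast Nat.div_mul_le_self _ _
      _ = 2 ^ (v + 1) := by push_cast; rfl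
  have hJ : (J0 : ℕ∞) * 4 ^ r ≤ (C : ℕ∞) * 2 ^ (u + r / E + h) * 2 ^ k := by
    have h1 : J0 * 4 ^ r ≤ T := Nat.div_mul_le_self _ _
    have h2 : ((J0 * 4 ^ r : ℕ) : ℕ∞) ≤ ((T : ℕ) : ℕ∞) := by exact_mod_cast h1
    rw [hT] at h2
    push_cast at h2
    exact h2
  have hcol := card_columns hU he w r h v
  calc Y.encard * 4 ^ r ≤ (A.encard * (M0.encard * (J0 : ℕ∞))) * 4 ^ r := by gcongr
    _ = A.encard * M0.encard * ((J0 : ℕ∞) * 4 ^ r) := by ring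
    _ ≤ A.encard * M0.encard * ((C : ℕ∞) * 2 ^ (u + r / E + h) * 2 ^ k) := by gcongr
    _ = A.encard * (M0.encard * 2 ^ k) * ((C : ℕ∞) * 2 ^ (u + r / E + h)) := by ring
    _ ≤ A.encard * 2 ^ (v + 1) * ((C : ℕ∞) * 2 ^ (u + r / E + h)) := by gcongr
    _ = (A.encard * 2 ^ v) * (2 * ((C : ℕ∞) * 2 ^ (u + r / E + h))) := by ring
    _ ≤ 2 ^ (w + 1) * (2 * ((C : ℕ∞) * 2 ^ (u + r / E + h))) := by gcongr
    _ = C * 2 ^ (w + u + h + r / E + 2) := by ring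

end Pool.Agent.Helper24.DS
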