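import Pool.Agent.Helper24.DS.Base

/-!
# Dimension spectra of polynomial graphs: module PrimCodes
-/

set_option autoImplicit false

namespace Pool.Agent.Helper24.DS

open Filter Set

theorem primrec_pow : Primrec₂ (fun a b : ℕ => a ^ b) :=
  Primrec₂.unpaired'.1 Nat.Primrec.pow

theorem primrec_size : Primrec Nat.size := by
  have hR : PrimrecRel (fun (n j : ℕ) => j = 0 ∨ 2 ^ (j - 1) ≤ n) := by
    have h1 : PrimrecPred (fun p : ℕ × ℕ => p.2 = 0) :=
      Primrec.eq.comp Primrec.snd (Primrec.const 0)
    have h2 : PrimrecPred (fun p : ℕ × ℕ => 2 ^ (p.2 - 1) ≤ p.1) :=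
      Primrec.nat_le.comp
        (primrec_pow.comp (Primrec.const 2) (Primrec.nat_sub.comp Primrec.snd (Primrec.const 1)))
        Primrec.fst
    exact h1.or h2
  have h := Primrec.nat_findGreatest (f := fun n : ℕ => n)
    (p := fun (n j : ℕ) => j = 0 ∨ 2 ^ (j - 1) ≤ n) Primrec.id hR
  refine h.of_eq fun n => ?_
  rw [Nat.findGreatest_eq_iff]
  refine ⟨?_, ?_, ?_⟩
  · rw [Nat.size_le]
    exact Nat.lt_two_pow_self
  · intro hn
    right
    rw [← Nat.lt_size]
    omega
  · intro j hj _ hh
    rcases hh with hh | hh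
    · omega
    · rw [← Nat.lt_size] at hh
      omega

theorem primrec_bitsk : Primrec₂ bitsk := by
  have hp : PrimrecPred (fun q : (ℕ × ℕ) × ℕ => q.1.2 / 2 ^ q.2 % 2 = 1) := by
    refine Primrec.eq.comp ?_ (Primrec.const 1)
    refine Primrec.nat_mod.comp ?_ (Primrec.const 2)
    refine Primrec.nat_div.comp (Primrec.snd.comp Primrec.fst) ?_
    exact primrec_pow.comp (Primrec.const 2) Primrec.snd
  have hd : Primrec₂ (fun (p : ℕ × ℕ) (j : ℕ) => decide (p.2 / 2 ^ j % 2 = 1)) := hp.decide
  exact Primrec.list_map (Primrec.list_range.comp Primrec.fst) hd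

theorem replicate_eq_map_range (k : ℕ) :
    List.replicate k true = (List.range k).map (fun _ => true) := by
  simp

theorem primrec_sd : Primrec sd := by
  have h1 : Primrec (fun n : ℕ => List.replicate (Nat.size n) true) := by
    have h2 : Primrec (fun n : ℕ => (List.range (Nat.size n)).map (fun _ => true)) :=
      Primrec.list_map (Primrec.list_range.comp primrec_size) (Primrec.const true).to₂
    exact h2.of_eq fun n => (replicate_eq_map_range _).symm
  have h3 : Primrec (fun n : ℕ => false :: bitsk (Nat.size n) n) :=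
    Primrec.list_cons.comp (Primrec.const false) (primrec_bitsk.comp primrec_size Primrec.id)
  exact Primrec.list_append.comp h1 h3

theorem primrec_cw : Primrec (fun x : ℕ × ℕ × ℕ => cw x.1 x.2.1 x.2.2) := by
  have h1 : Primrec (fun x : ℕ × ℕ × ℕ => sd x.1) := primrec_sd.comp Primrec.fst
  have h2 : Primrec (fun x : ℕ × ℕ × ℕ => sd x.2.1) :=
    primrec_sd.comp (Primrec.fst.comp Primrec.snd)
  have h3 : Primrec (fun x : ℕ × ℕ × ℕ => bitsk x.2.1 x.2.2) :=
    primrec_bitsk.comp (Primrec.fst.comp Primrec.snd) (Primrec.snd.comp Primrec.snd)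
  exact Primrec.list_append.comp h1 (Primrec.list_append.comp h2 h3)

theorem bitsk_size (n : ℕ) : bitsk (Nat.size n) n = Nat.bits n := by
  apply List.ext_getElem
  · simp [bitsk, Nat.size_eq_bits_len]
  · intro j h1 h2
    have h3 := Nat.testBit_eq_inth n j
    rw [List.getI_eq_getElem _ h2] at h3
    rw [← h3]
    simp [bitsk, Nat.testBit_eq_decide_div_mod_eq]

theorem primrec_str : Primrec str := by
  have h : Primrec (fun n : ℕ => bitsk (Nat.size n) n) :=
    primrec_bitsk.comp primrec_size Primrec.id
  exact h.of_eq fun n => bitsk_size n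

theorem primrec_val : Primrec val := by
  have hh : Primrec₂ (fun (_ : List Bool) (p : Bool × ℕ) => 2 * p.2 + cond p.1 1 0) := by
    have h1 : Primrec (fun q : List Bool × (Bool × ℕ) => 2 * q.2.2) :=
      Primrec.nat_mul.comp (Primrec.const 2) (Primrec.snd.comp Primrec.snd)
    have h2 : Primrec (fun q : List Bool × (Bool × ℕ) => cond q.2.1 1 0) :=
      Primrec.cond (Primrec.fst.comp Primrec.snd) (Primrec.const 1) (Primrec.const 0)
    exact Primrec.nat_add.comp h1 h2
  exact Primrec.list_foldr Primrec.id (Primrec.const 0) hh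

theorem val_str (n : ℕ) : val (str n) = n := by
  unfold str
  induction n using Nat.binaryRec' with
  | zero => simp [val]
  | bit b n hb ih =>
    rw [Nat.bits_append_bit n b hb]
    have : val (b :: n.bits) = 2 * val n.bits + cond b 1 0 := rfl
    rw [this, ih, Nat.bit_val]
    cases b <;> rfl

end Pool.Agent.Helper24.DS
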