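import Pool.Agent.Helper24.DS.Codes
import Pool.Agent.Helper24.DS.PrimCodes

/-!
# Dimension spectra of polynomial graphs: module Prog
-/

set_option autoImplicit false

namespace Pool.Agent.Helper24.DS

open Filter Set

/-- the machine which reads a self-delimiting code -/
def Prog_V : Mach := fun p _ => (Nat.rfind fun n => Part.some (decide (p = sd n))).map str

theorem Prog_mem {p w v : List Bool} : v ∈ Prog_V p w ↔ ∃ n, p = sd n ∧ v = str n := by
  unfold Prog_V
  rw [Part.mem_map_iff]
  constructor
  · rintro ⟨n, hn, rfl⟩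
    have h := Nat.rfind_spec hn
    rw [Part.mem_some_iff] at h
    exact ⟨n, of_decide_eq_true h.symm, rfl⟩
  · rintro ⟨n, hp, rfl⟩
    refine ⟨n, ?_, rfl⟩
    refine Nat.mem_rfind.2 ⟨by rw [Part.mem_some_iff]; simp [hp], ?_⟩
    intro m hm
    rw [Part.mem_some_iff, hp]
    symm
    rw [decide_eq_false_iff_not]
    intro h
    have h2 : sd n ++ [] <+: sd m ++ [] := by rw [h]
    have := (sd_prefix h2).1
    omega

theorem Prog_partrec : Partrec₂ Prog_V := by
  have h1 : PrimrecPred fun x : (List Bool × List Bool) × ℕ => x.1.1 = sd x.2 :=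
    Primrec.eq.comp (Primrec.fst.comp Primrec.fst) (primrec_sd.comp Primrec.snd)
  have h2 : Computable₂ fun (a : List Bool × List Bool) (n : ℕ) => decide (a.1 = sd n) :=
    h1.decide.to_comp
  have h3 : Partrec fun a : List Bool × List Bool =>
      Nat.rfind fun n => Part.some (decide (a.1 = sd n)) := Partrec.rfind h2.partrec₂
  exact h3.map (primrec_str.to_comp.comp Computable.snd).to₂

theorem Prog_free : IsPrefixFree Prog_V := by
  intro w p q hp hq hpq
  obtain ⟨v, hv⟩ := Part.dom_iff_mem.1 hp
  obtain ⟨v', hv'⟩ := Part.dom_iff_mem.1 hq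
  obtain ⟨n, rfl, -⟩ := Prog_mem.1 hv
  obtain ⟨m, rfl, -⟩ := Prog_mem.1 hv'
  have h2 : sd n ++ [] <+: sd m ++ [] := by simpa using hpq
  rw [(sd_prefix h2).1]

/-- every natural number is the output of a program -/
theorem exists_prog {U : Mach} (hU : IsUniversal U) {α : Type} [Encodable α] (a : α) :
    ∃ p : List Bool, p.length = KC U a ∧ str (Encodable.encode a) ∈ U p [] := by
  obtain ⟨c, hc⟩ := hU.univ Prog_V Prog_partrec Prog_free
  obtain ⟨p', -, h⟩ := hc (sd (Encodable.encode a)) [] (str (Encodable.encode a))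
    (Prog_mem.2 ⟨_, rfl, rfl⟩)
  exact Nat.sInf_mem (s := {l : ℕ | ∃ p : List Bool, p.length = l ∧
    str (Encodable.encode a) ∈ U p []}) ⟨p'.length, p', rfl, h⟩

/-- a program gives an upper bound -/
theorem KC_le_length {U : Mach} {α : Type} [Encodable α] (a : α) {p : List Bool}
    (hp : str (Encodable.encode a) ∈ U p []) : KC U a ≤ p.length :=
  Nat.sInf_le ⟨p, rfl, hp⟩

/-- stage approximation of the machine on the empty condition -/
theorem exists_stage {U : Mach} (hU : IsUniversal U) :
    ∃ t : ℕ → List Bool → Option (List Bool), Primrec₂ t ∧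
      (∀ s s' p v, s ≤ s' → t s p = some v → t s' p = some v) ∧
      ∀ p v, v ∈ U p [] ↔ ∃ s, t s p = some v := by
  have h1 : Partrec fun p : List Bool => U p [] :=
    hU.partrec.comp Computable.id (Computable.const [])
  obtain ⟨c, hc⟩ := Nat.Partrec.Code.exists_code.1 h1
  have key : ∀ (p : List Bool) (n : ℕ), n ∈ Nat.Partrec.Code.eval c (Encodable.encode p) ↔
      ∃ v ∈ U p [], Encodable.encode v = n := by
    intro p n
    rw [hc]
    simp
  refine ⟨fun s p => (Nat.Partrec.Code.evaln s c (Encodable.encode p)).bind Encodable.decode,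
    ?_, ?_, ?_⟩
  · refine Primrec.option_bind ?_ ?_
    · exact Nat.Partrec.Code.primrec_evaln.comp
        ((Primrec.fst.pair (Primrec.const c)).pair (Primrec.encode.comp Primrec.snd))
    · exact Primrec.decode.comp Primrec.snd
  · intro s s' p v hs h
    rw [Option.bind_eq_some_iff] at h ⊢
    obtain ⟨n, h2, h3⟩ := h
    exact ⟨n, Nat.Partrec.Code.evaln_mono hs h2, h3⟩
  · intro p v
    constructor
    · intro hv
      have h2 := (key p (Encodable.encode v)).2 ⟨v, hv, rfl⟩
      obtain ⟨s, hs⟩ := Nat.Partrec.Code.evaln_complete.1 h2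
      refine ⟨s, ?_⟩
      rw [Option.bind_eq_some_iff]
      exact ⟨_, hs, Encodable.encodek v⟩
    · rintro ⟨s, hs⟩
      rw [Option.bind_eq_some_iff] at hs
      obtain ⟨n, h2, h3⟩ := hs
      obtain ⟨v', hv', rfl⟩ := (key p n).1 (Nat.Partrec.Code.evaln_sound h2)
      rw [Encodable.encodek, Option.some_inj] at h3
      rw [← h3]
      exact hv'

theorem Prog_card (w : ℕ) : {l : List Bool | l.length ≤ w}.encard ≤ 2 ^ (w + 1) := by
  classical
  set T : Finset (List Bool) := (Finset.range (w + 1)).biUnion fun k =>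
    (Finset.univ : Finset (List.Vector Bool k)).image fun v => v.toList with hT
  have h1 : {l : List Bool | l.length ≤ w} ⊆ (T : Set (List Bool)) := by
    intro l hl
    rw [hT, Finset.mem_coe, Finset.mem_biUnion]
    refine ⟨l.length, Finset.mem_range.2 (Nat.lt_succ_of_le hl), ?_⟩
    rw [Finset.mem_image]
    exact ⟨⟨l, rfl⟩, Finset.mem_univ _, rfl⟩
  have h2 : ∀ n : ℕ, ∑ k ∈ Finset.range n, 2 ^ k ≤ 2 ^ n := by
    intro n
    induction n with
    | zero => simp
    | succ n ih =>
      rw [Finset.sum_range_succ, pow_succ]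
      omega
  have h3 : T.card ≤ 2 ^ (w + 1) := by
    refine Finset.card_biUnion_le.trans (le_trans (Finset.sum_le_sum fun k _ => ?_) (h2 (w + 1)))
    refine Finset.card_image_le.trans ?_
    rw [Finset.card_univ, card_vector, Fintype.card_bool]
  refine (Set.encard_le_encard h1).trans ?_
  rw [Set.encard_coe_eq_coe_finsetCard]
  exact_mod_cast h3

theorem card_KC_le {U : Mach} (hU : IsUniversal U) {α : Type} [Encodable α] (w : ℕ) :
    {a : α | KC U a ≤ w}.encard ≤ 2 ^ (w + 1) := by
  choose p hp1 hp2 using fun a : α => exists_prog hU a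
  refine le_trans (Set.encard_le_encard_of_injOn (f := p) (t := {l : List Bool | l.length ≤ w})
    ?_ ?_) (Prog_card w)
  · intro a ha
    show (p a).length ≤ w
    rw [hp1 a]
    exact ha
  · intro a _ b _ h
    have h1 := hp2 a
    rw [h] at h1
    have h2 : str (Encodable.encode a) = str (Encodable.encode b) := Part.mem_unique h1 (hp2 b)
    have h3 := congrArg val h2
    rw [val_str, val_str] at h3
    exact Encodable.encode_injective h3

end Pool.Agent.Helper24.DS
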