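import Pool.Agent.Helper24.DS.Wl
import Pool.Agent.Helper24.DS.Prog

/-!
# Dimension spectra of polynomial graphs: module Columns
-/

set_option autoImplicit false

namespace Pool.Agent.Helper24.DS

open Filter Set

/-- number of columns with many elements -/
theorem card_columns {U : Mach} (hU : IsUniversal U) {e : ℕ → ℕ → Option ℕ}
    (he : ∀ w n, (∃ s, e w s = some n) ↔ KC U n ≤ w) (w r h v : ℕ) :
    {g : ℕ | ∃ s, 2 ^ v ≤ (wl e w r h g s).length}.encard * 2 ^ v ≤ 2 ^ (w + 1) := by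
  classical
  set A : Set ℕ := {g : ℕ | ∃ s, 2 ^ v ≤ (wl e w r h g s).length} with hA
  have hchoice : ∀ g : ℕ, ∃ s : ℕ, g ∈ A → 2 ^ v ≤ (wl e w r h g s).length := by
    intro g
    by_cases hg : g ∈ A
    · obtain ⟨s, hs⟩ := hg
      exact ⟨s, fun _ => hs⟩
    · exact ⟨0, fun h => absurd h hg⟩
  choose s hs using hchoice
  set f : ℕ × ℕ → ℤ × ℤ := fun p => (wl e w r h p.1 (s p.1)).getD p.2 0 with hf
  have hget : ∀ p ∈ A ×ˢ Set.Iio (2 ^ v), ∃ hlt : p.2 < (wl e w r h p.1 (s p.1)).length,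
      f p = (wl e w r h p.1 (s p.1))[p.2] := by
    intro p hp
    have h1 : p.2 < (wl e w r h p.1 (s p.1)).length := lt_of_lt_of_le hp.2 (hs p.1 hp.1)
    refine ⟨h1, ?_⟩
    simp only [hf]
    rw [List.getD_eq_getElem?_getD, List.getElem?_eq_getElem h1]
    rfl
  have hmaps : Set.MapsTo f (A ×ˢ Set.Iio (2 ^ v)) {z : ℤ × ℤ | KC U z ≤ w} := by
    intro p hp
    obtain ⟨h1, h2⟩ := hget p hp
    have h3 : f p ∈ wl e w r h p.1 (s p.1) := by rw [h2]; exact List.getElem_mem h1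
    obtain ⟨⟨t, _, ht⟩, _⟩ := mem_wl.1 h3
    exact (ep_eq_some_iff he w (f p)).1 ⟨t, ht⟩
  have hinj : Set.InjOn f (A ×ˢ Set.Iio (2 ^ v)) := by
    rintro ⟨g, i⟩ hp ⟨g', i'⟩ hq heq
    obtain ⟨h1, h2⟩ := hget _ hp
    obtain ⟨h1', h2'⟩ := hget _ hq
    simp only at h1 h2 h1' h2'
    have h3 : f (g, i) ∈ wl e w r h g (s g) := by rw [h2]; exact List.getElem_mem h1
    have h3' : f (g', i') ∈ wl e w r h g' (s g') := by rw [h2']; exact List.getElem_mem h1'
    have h4 := (mem_wl.1 h3).2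
    have h4' := (mem_wl.1 h3').2
    rw [← heq, h4] at h4'
    have hg : g = g' := by exact_mod_cast h4'
    subst hg
    rw [h2, h2'] at heq
    have := (wl_nodup e w r h g (s g)).getElem_inj_iff.1 heq
    rw [this]
  have hle := Set.encard_le_encard_of_injOn hmaps hinj
  rw [Set.encard_prod] at hle
  have hI : (Set.Iio (2 ^ v) : Set ℕ).encard = 2 ^ v := by
    have h1 : (Set.Iio (2 ^ v) : Set ℕ) = ((Finset.range (2 ^ v) : Finset ℕ) : Set ℕ) := by
      ext x; simp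
    rw [h1, Set.encard_coe_eq_coe_finsetCard, Finset.card_range]
    push_cast
    rfl
  rw [hI] at hle
  exact hle.trans (card_KC_le hU w)

end Pool.Agent.Helper24.DS
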