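import Mathlib

/-!
# Prefix-free Kolmogorov complexity, effective dimension and dimension spectra: definitions
-/

set_option autoImplicit false

namespace Pool.Agent.Helper24.DS

open Filter

/-- A machine with two inputs: the program and the condition. -/
abbrev Mach : Type := List Bool → List Bool →. List Bool

/-- For every condition `w` the set of halting programs is prefix-free. -/
def IsPrefixFree (V : Mach) : Prop :=
  ∀ w p q : List Bool, (V p w).Dom → (V q w).Dom → p <+: q → p = q

/-- `U` is a universal prefix-free machine: it is partial computable and prefix-free, and it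
simulates every partial computable prefix-free machine with programs longer by at most a
constant. -/
structure IsUniversal (U : Mach) : Prop where
  partrec : Partrec₂ U
  prefixFree : IsPrefixFree U
  univ : ∀ V : Mach, Partrec₂ V → IsPrefixFree V →
    ∃ c : ℕ, ∀ p w v : List Bool, v ∈ V p w → ∃ p' : List Bool, p'.length ≤ p.length + c ∧ v ∈ U p' w

/-- `K(v | w)`: the length of a shortest program `p` with `U(p, w) = v`. -/
noncomputable def Kcond (U : Mach) (v w : List Bool) : ℕ :=
  sInf {l : ℕ | ∃ p : List Bool, p.length = l ∧ v ∈ U p w}

/-- `K(v) = K(v | λ)`. -/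
noncomputable def K (U : Mach) (v : List Bool) : ℕ := Kcond U v []

/-- The binary expansion of a natural number, as a string. -/
def str (n : ℕ) : List Bool := Nat.bits n

/-- The code of a tuple of rationals: the code of the list of pairs numerator, denominator (in
lowest terms). -/
def ratCode {m : ℕ} (q : Fin m → ℚ) : List Bool :=
  str (Encodable.encode (List.ofFn fun i => ((q i).num, (q i).den)))

/-- `K_r(x)`: the minimum of `K(q)` over rational points `q` at Euclidean distance less than
`2^{-r}` from `x`. -/
noncomputable def Kr (U : Mach) {m : ℕ} (x : Fin m → ℝ) (r : ℕ) : ℕ :=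
  sInf {k : ℕ | ∃ q : Fin m → ℚ, Real.sqrt (∑ i, ((q i : ℝ) - x i) ^ 2) < (1 / 2) ^ r ∧
    K U (ratCode q) = k}

/-- The effective Hausdorff dimension `dim(x) = liminf K_r(x) / r`. -/
noncomputable def dim (U : Mach) {m : ℕ} (x : Fin m → ℝ) : ENNReal :=
  liminf (fun r : ℕ => (Kr U x r : ENNReal) / (r : ENNReal)) atTop

/-- The dimension spectrum of the graph of a real polynomial. -/
noncomputable def spectrum (U : Mach) (A : Polynomial ℝ) : Set ENNReal :=
  {t | ∃ x : ℝ, dim U ![x, A.eval x] = t}

end Pool.Agent.Helper24.DS
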