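import Pool.Agent.Helper24.DS.Rat1
import Pool.Agent.Helper24.DS.Rat2

/-!
# Dimension spectra of polynomial graphs: module DimEq
-/

set_option autoImplicit false

namespace Pool.Agent.Helper24.DS

open Filter Set

/-- Logarithms are small. -/
theorem DimEq_small (c : ℕ) {ε : ℝ} (hε : 0 < ε) :
    ∀ᶠ r : ℕ in atTop, (c * (Nat.size r + 1) : ℝ) ≤ ε * r := by
  obtain ⟨E, hE⟩ := exists_nat_gt (1 / ε)
  have hE0 : (0 : ℝ) < E := lt_trans (by positivity) hE
  obtain ⟨R, hR⟩ := size_small c E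
  filter_upwards [eventually_ge_atTop R] with r hr
  have h1 : (E : ℝ) * (c * (Nat.size r + 1)) ≤ r := by exact_mod_cast hR r hr
  have h2 : 1 ≤ ε * E := by
    rw [div_lt_iff₀ hε] at hE
    linarith
  have h3 : (0 : ℝ) ≤ c * (Nat.size r + 1) := by positivity
  calc (c * (Nat.size r + 1) : ℝ) = 1 * (c * (Nat.size r + 1)) := (one_mul _).symm
    _ ≤ (ε * E) * (c * (Nat.size r + 1)) := by gcongr
    _ = ε * (E * (c * (Nat.size r + 1))) := by ring
    _ ≤ ε * r := by gcongr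

/-- Comparison of the two complexities of the point of the graph. -/
theorem DimEq_cmp {U : Mach} (hU : IsUniversal U) {n : ℕ} (a : Fin n → ℝ) (x : ℝ) :
    ∃ c d : ℕ, (∀ r : ℕ, DS.G U a r x ≤ Kr U ![x, ev a x] r + c * (Nat.size r + 1)) ∧
      ∀ r : ℕ, Kr U ![x, ev a x] r ≤ DS.G U a (r + d) x + c * (Nat.size (r + d) + 1) := by
  obtain ⟨c1, hc1⟩ := Kr_le_KC hU 2
  obtain ⟨c2, hc2⟩ := KC_le_Kr hU 2
  obtain ⟨c3, hc3⟩ := KC_pair_list hU
  have hl : ∀ r : ℕ, (List.ofFn fun i : Fin 2 => gp r ((![x, ev a x] : Fin 2 → ℝ) i)) =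
      [gp r x, gp r (ev a x)] := fun r => by simp
  refine ⟨c1 + c2 + c3, c1, fun r => ?_, fun r => ?_⟩
  · have e1 := (hc3 (gp r x, gp r (ev a x))).1
    have e2 := hc2 ![x, ev a x] r
    rw [hl] at e2
    have e3 : DS.G U a r x = KC U ((gp r x, gp r (ev a x)) : ℤ × ℤ) := rfl
    have e4 : c3 ≤ c3 * (Nat.size r + 1) := Nat.le_mul_of_pos_right _ (Nat.succ_pos _)
    have e5 : (c1 + c2 + c3) * (Nat.size r + 1) =
      c1 * (Nat.size r + 1) + c2 * (Nat.size r + 1) + c3 * (Nat.size r + 1) := by ring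
    dsimp only at e1
    omega
  · have e1 := (hc3 (gp (r + c1) x, gp (r + c1) (ev a x))).2
    have e2 := hc1 ![x, ev a x] (r + c1) (Nat.le_add_left _ _)
    rw [hl, Nat.add_sub_cancel] at e2
    have e3 : DS.G U a (r + c1) x = KC U ((gp (r + c1) x, gp (r + c1) (ev a x)) : ℤ × ℤ) := rfl
    have e4 : c3 ≤ c3 * (Nat.size (r + c1) + 1) := Nat.le_mul_of_pos_right _ (Nat.succ_pos _)
    have e5 : (c1 + c2 + c3) * (Nat.size (r + c1) + 1) = c1 * (Nat.size (r + c1) + 1) +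
      c2 * (Nat.size (r + c1) + 1) + c3 * (Nat.size (r + c1) + 1) := by ring
    dsimp only at e1
    omega

theorem dim_eq_of {U : Mach} (hU : IsUniversal U) {n : ℕ} (a : Fin n → ℝ) {x s : ℝ}
    (hs0 : 0 ≤ s) (hx : x ∈ Icc (0 : ℝ) 1)
    (h1 : ∀ ε > 0, ∀ᶠ r : ℕ in atTop, (1 + s - ε) * r ≤ DS.G U a r x)
    (h2 : ∀ ε > 0, ∃ᶠ r : ℕ in atTop, (DS.G U a r x : ℝ) ≤ (1 + s + ε) * r) :
    dim U ![x, ev a x] = ENNReal.ofReal (1 + s) := by
  obtain ⟨c, d, hl, hu⟩ := DimEq_cmp hU a x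
  -- quotients
  have hq : ∀ k r : ℕ, 0 < r →
      (k : ENNReal) / (r : ENNReal) = ENNReal.ofReal ((k : ℝ) / r) := by
    intro k r hr
    rw [ENNReal.ofReal_div_of_pos (by exact_mod_cast hr), ENNReal.ofReal_natCast,
      ENNReal.ofReal_natCast]
  apply le_antisymm
  · -- the upper bound
    refine ENNReal.le_of_forall_pos_le_add fun ε hε _ => ?_
    have hε' : (0 : ℝ) < ε := hε
    set δ : ℝ := (ε : ℝ) / 3 with hδ
    have hδ0 : 0 < δ := by positivity
    have hfr : ∃ᶠ r : ℕ in atTop, (Kr U ![x, ev a x] r : ENNReal) / (r : ENNReal) ≤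
        ENNReal.ofReal (1 + s + ε) := by
      have e1 : ∃ᶠ r : ℕ in atTop, (DS.G U a (r + d) x : ℝ) ≤ (1 + s + δ) * (r + d : ℕ) := by
        have e2 := h2 δ hδ0
        rw [frequently_atTop] at e2 ⊢
        intro m
        obtain ⟨b, hb, hb'⟩ := e2 (m + d)
        refine ⟨b - d, by omega, ?_⟩
        rwa [Nat.sub_add_cancel (by omega)]
      have e3 : ∀ᶠ r : ℕ in atTop, (c * (Nat.size (r + d) + 1) : ℝ) ≤ δ * (r + d : ℕ) :=
        (tendsto_add_atTop_nat d).eventually (DimEq_small c hδ0)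
      have e4 : ∀ᶠ r : ℕ in atTop, (1 + s + 2 * δ) * d / δ ≤ (r : ℝ) :=
        tendsto_natCast_atTop_atTop.eventually (eventually_ge_atTop _)
      refine (e1.and_eventually (e3.and (e4.and (eventually_gt_atTop 0)))).mono ?_
      rintro r ⟨g1, g2, g3, g4⟩
      rw [hq _ _ g4]
      apply ENNReal.ofReal_le_ofReal
      have hr : (0 : ℝ) < r := by exact_mod_cast g4
      rw [div_le_iff₀ hr]
      have g5 : (Kr U ![x, ev a x] r : ℝ) ≤ DS.G U a (r + d) x + c * (Nat.size (r + d) + 1) := by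
        exact_mod_cast hu r
      rw [div_le_iff₀ hδ0] at g3
      push_cast at g1 g2
      have g6 : (ε : ℝ) = 3 * δ := by rw [hδ]; ring
      rw [g6]
      nlinarith
    have hle := liminf_le_of_frequently_le' hfr
    refine hle.trans ?_
    refine ENNReal.ofReal_add_le.trans ?_
    rw [ENNReal.ofReal_coe_nnreal]
  · -- the lower bound
    refine ENNReal.le_of_forall_pos_le_add fun ε hε _ => ?_
    have hε' : (0 : ℝ) < ε := hε
    set δ : ℝ := (ε : ℝ) / 2 with hδ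
    have hδ0 : 0 < δ := by positivity
    have hev : ∀ᶠ r : ℕ in atTop, ENNReal.ofReal (1 + s - ε) ≤
        (Kr U ![x, ev a x] r : ENNReal) / (r : ENNReal) := by
      filter_upwards [h1 δ hδ0, DimEq_small c hδ0, eventually_gt_atTop 0] with r g1 g2 g4
      rw [hq _ _ g4]
      apply ENNReal.ofReal_le_ofReal
      have hr : (0 : ℝ) < r := by exact_mod_cast g4
      rw [le_div_iff₀ hr]
      have g5 : (DS.G U a r x : ℝ) ≤ Kr U ![x, ev a x] r + c * (Nat.size r + 1) := by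
        exact_mod_cast hl r
      have g6 : (ε : ℝ) = 2 * δ := by rw [hδ]; ring
      rw [g6]
      nlinarith
    have hle := le_liminf_of_le (by isBoundedDefault) hev
    calc ENNReal.ofReal (1 + s) = ENNReal.ofReal ((1 + s - ε) + ε) := by ring_nf
      _ ≤ ENNReal.ofReal (1 + s - ε) + ENNReal.ofReal ε := ENNReal.ofReal_add_le
      _ ≤ _ := by
        rw [ENNReal.ofReal_coe_nnreal]
        gcongr
        exact hle

end Pool.Agent.Helper24.DS
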