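import Pool.Agent.Helper24.DS.Base

/-!
# Dimension spectra of polynomial graphs: module Poly
-/

set_option autoImplicit false

namespace Pool.Agent.Helper24.DS

open Filter Set

lemma Poly_pnum : ∀ (n : ℕ) (β : Fin n → ℤ) (i q : ℕ), 0 < q →
    (pnum i q (List.ofFn β) : ℝ) * q = (q : ℝ) ^ n * ∑ j, (β j : ℝ) * ((i : ℝ) / q) ^ (j : ℕ)
  | 0, β, i, q, _ => by simp [pnum]
  | n + 1, β, i, q, hq => by
    have hq0 : (q : ℝ) ≠ 0 := by exact_mod_cast hq.ne'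
    rw [List.ofFn_succ, pnum, List.length_ofFn, Fin.sum_univ_succ]
    have ih := Poly_pnum n (fun j => β j.succ) i q hq
    push_cast
    simp only [Fin.val_zero, pow_zero, mul_one, Fin.val_succ]
    have h1 : ((β 0 : ℝ) * (q : ℝ) ^ n + (i : ℝ) *
        (pnum i q (List.ofFn fun j : Fin n => β j.succ) : ℝ)) * q =
        (β 0 : ℝ) * (q : ℝ) ^ (n + 1) + (i : ℝ) *
        ((pnum i q (List.ofFn fun j : Fin n => β j.succ) : ℝ) * q) := by ring
    rw [h1, ih]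
    have h2 : ∑ j : Fin n, (β j.succ : ℝ) * ((i : ℝ) / q) ^ ((j : ℕ) + 1) =
        ((i : ℝ) / q) * ∑ j : Fin n, (β j.succ : ℝ) * ((i : ℝ) / q) ^ (j : ℕ) := by
      rw [Finset.mul_sum]
      refine Finset.sum_congr rfl fun j _ => ?_
      ring
    rw [h2]
    field_simp
    ring

theorem fl_ofFn {n : ℕ} (hn : 1 ≤ n) (β : Fin n → ℤ) (r i : ℕ) :
    fl r (List.ofFn β) i = ⌊∑ j, (β j : ℝ) * ((i : ℝ) / 2 ^ r) ^ (j : ℕ)⌋ := by
  have hq : 0 < 2 ^ r := by positivity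
  have h := Poly_pnum n β i (2 ^ r) hq
  have hq0 : ((2 ^ r : ℕ) : ℝ) ≠ 0 := by exact_mod_cast hq.ne'
  obtain ⟨m, rfl⟩ := Nat.exists_eq_add_of_le hn
  have h2 : ∑ j, (β j : ℝ) * ((i : ℝ) / 2 ^ r) ^ (j : ℕ) =
      (pnum i (2 ^ r) (List.ofFn β) : ℝ) / (((2 ^ r) ^ m : ℕ) : ℝ) := by
    rw [eq_div_iff (by positivity)]
    have h3 : ((2 ^ r : ℕ) : ℝ) ^ (1 + m) = ((2 ^ r : ℕ) : ℝ) ^ m * ((2 ^ r : ℕ) : ℝ) := by ring
    rw [h3] at h
    have h4 : ((2 ^ r : ℕ) : ℝ) * ((pnum i (2 ^ r) (List.ofFn β) : ℝ)) = ((2 ^ r : ℕ) : ℝ) *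
        (((2 ^ r : ℕ) : ℝ) ^ m *
        ∑ j, (β j : ℝ) * ((i : ℝ) / ((2 ^ r : ℕ) : ℝ)) ^ (j : ℕ)) := by
      rw [mul_comm, h]
      ring
    have h5 := mul_left_cancel₀ hq0 h4
    rw [h5]
    push_cast
    ring
  rw [h2, fl, List.length_ofFn, Int.floor_div_natCast, Int.floor_intCast]
  have h6 : 1 + m - 1 = m := by omega
  rw [h6]
  push_cast
  rfl

theorem mem_boxL {n R : ℕ} {β : List ℤ} :
    β ∈ boxL n R ↔ β.length = n ∧ ∀ b ∈ β, |b| ≤ (R : ℤ) := by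
  induction n generalizing β with
  | zero =>
    rw [boxL, List.mem_singleton]
    constructor
    · rintro rfl; simp
    · rintro ⟨h, _⟩
      exact List.length_eq_zero_iff.1 h
  | succ n ih =>
    rw [boxL, List.mem_flatMap]
    constructor
    · rintro ⟨l, hl, hm⟩
      rw [List.mem_map] at hm
      obtain ⟨k, hk, rfl⟩ := hm
      replace hk : ∃ a < 2 * R + 1, (a : ℤ) = k := by simpa [eq_comm] using hk
      obtain ⟨k, hk, rfl⟩ := hk
      obtain ⟨h1, h2⟩ := ih.1 hl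
      refine ⟨by simp [h1], ?_⟩
      intro b hb
      rcases List.mem_cons.1 hb with rfl | hb
      · rw [abs_le]
        omega
      · exact h2 b hb
    · rintro ⟨h1, h2⟩
      rcases β with _ | ⟨b, l⟩
      · simp at h1
      · have hb := h2 b List.mem_cons_self
        rw [abs_le] at hb
        refine ⟨l, ih.2 ⟨by simpa using h1, fun c hc => h2 c (List.mem_cons_of_mem _ hc)⟩, ?_⟩
        rw [List.mem_map]
        refine ⟨(b + R).toNat, ?_, ?_⟩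
        · have h3 : ∃ a < 2 * R + 1, (a : ℤ) = (((b + R).toNat : ℕ) : ℤ) :=
            ⟨(b + R).toNat, by omega, rfl⟩
          simpa [eq_comm] using h3
        · congr 1
          omega

theorem gp_div (r u : ℕ) (hu : u ≤ r) (x : ℝ) : gp r x / (2 : ℤ) ^ (r - u) = gp u x := by
  unfold gp
  have h1 : ((2 : ℤ) ^ (r - u)) = ((2 ^ (r - u) : ℕ) : ℤ) := by push_cast; rfl
  rw [h1, ← Int.floor_div_natCast]
  congr 1
  have h2 : (2 : ℝ) ^ r = 2 ^ u * 2 ^ (r - u) := by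
    rw [← pow_add]
    congr 1
    omega
  push_cast
  rw [h2]
  field_simp

theorem bc_bound {n : ℕ} (a : Fin n → ℝ) :
    ∃ B : ℕ, ∀ (h r g : ℕ) (j : Fin n), g < 2 ^ h → |gp r (bc a h g j)| ≤ (B * 2 ^ r : ℕ) := by
  set S : ℝ := ∑ i : Fin n, (2 : ℝ) ^ (i : ℕ) * |a i| with hS
  have hS0 : 0 ≤ S := Finset.sum_nonneg fun i _ => by positivity
  refine ⟨⌈S⌉₊ + 1, ?_⟩
  intro h r g j hg
  have hb : |bc a h g j| ≤ S := by
    unfold bc
    refine (Finset.abs_sum_le_sum_abs _ _).trans (Finset.sum_le_sum fun i _ => ?_)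
    rw [abs_mul, abs_mul, abs_mul]
    refine mul_le_mul_of_nonneg_right ?_ (abs_nonneg _)
    have h1 : |(Nat.choose i j : ℝ)| ≤ (2 : ℝ) ^ (i : ℕ) := by
      rw [abs_of_nonneg (Nat.cast_nonneg _)]
      exact_mod_cast Nat.choose_le_two_pow i j
    have h2 : |((g : ℝ) / 2 ^ h) ^ ((i : ℕ) - (j : ℕ))| ≤ 1 := by
      rw [abs_pow]
      refine pow_le_one₀ (abs_nonneg _) ?_
      rw [abs_of_nonneg (by positivity), div_le_one (by positivity)]
      exact_mod_cast hg.le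
    have h3 : |((1 / 2 : ℝ) ^ h) ^ (j : ℕ)| ≤ 1 := by
      rw [abs_pow]
      refine pow_le_one₀ (abs_nonneg _) ?_
      rw [abs_of_nonneg (by positivity)]
      exact pow_le_one₀ (by norm_num) (by norm_num)
    calc |(Nat.choose i j : ℝ)| * |((g : ℝ) / 2 ^ h) ^ ((i : ℕ) - (j : ℕ))| *
          |((1 / 2 : ℝ) ^ h) ^ (j : ℕ)| ≤ (2 : ℝ) ^ (i : ℕ) * 1 * 1 :=
          mul_le_mul (mul_le_mul h1 h2 (abs_nonneg _) (by positivity)) h3 (abs_nonneg _)
            (by positivity)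
      _ = _ := by ring
  have hceil : S ≤ (⌈S⌉₊ : ℝ) := Nat.le_ceil S
  have hb' := abs_le.1 hb
  have hp : (1 : ℝ) ≤ 2 ^ r := one_le_pow₀ (by norm_num)
  have hp0 : (0 : ℝ) < 2 ^ r := by positivity
  unfold gp
  rw [abs_le]
  push_cast
  constructor
  · rw [Int.le_floor]
    push_cast
    nlinarith
  · have h1 : (⌊(2 : ℝ) ^ r * bc a h g j⌋ : ℝ) ≤ ((⌈S⌉₊ : ℝ) + 1) * 2 ^ r := by
      refine (Int.floor_le _).trans ?_
      nlinarith
    exact_mod_cast h1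

theorem ev_bc {n : ℕ} (a : Fin n → ℝ) (h g : ℕ) (t : ℝ) :
    ev (bc a h g) t = ev a (((g : ℝ) + t) / 2 ^ h) := by
  unfold ev bc
  simp_rw [Finset.sum_mul]
  rw [Finset.sum_comm]
  refine Finset.sum_congr rfl fun i _ => ?_
  have h1 : ((g : ℝ) + t) / 2 ^ h = t / 2 ^ h + (g : ℝ) / 2 ^ h := by ring
  rw [h1, add_pow, Finset.mul_sum]
  have h2 : ∀ j : Fin n, (Nat.choose i j : ℝ) * ((g : ℝ) / 2 ^ h) ^ ((i : ℕ) - (j : ℕ)) *
      ((1 / 2 : ℝ) ^ h) ^ (j : ℕ) * a i * t ^ (j : ℕ) =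
      (fun m : ℕ => a i * ((t / 2 ^ h) ^ m * ((g : ℝ) / 2 ^ h) ^ ((i : ℕ) - m) *
        (Nat.choose i m : ℝ))) (j : ℕ) := by
    intro j
    simp only []
    rw [div_pow t, ← pow_mul, one_div, inv_pow, ← pow_mul]
    ring
  rw [Finset.sum_congr rfl fun j _ => h2 j, Fin.sum_univ_eq_sum_range
    (fun m : ℕ => a i * ((t / 2 ^ h) ^ m * ((g : ℝ) / 2 ^ h) ^ ((i : ℕ) - m) *
        (Nat.choose i m : ℝ))) n]
  symm
  refine Finset.sum_subset ?_ ?_
  · intro m hm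
    rw [Finset.mem_range] at hm ⊢
    have := i.isLt
    omega
  · intro m _ hm
    rw [Finset.mem_range, not_lt] at hm
    rw [Nat.choose_eq_zero_of_lt (by omega)]
    simp

end Pool.Agent.Helper24.DS
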