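import Pool.Agent.Helper24.DS.IntPrim2
import Pool.Agent.Helper24.DS.PrimCodes

/-!
# Dimension spectra of polynomial graphs: module PrimFl
-/

set_option autoImplicit false

namespace Pool.Agent.Helper24.DS

open Filter Set

theorem PrimFl_pnum_eq (i q : ℕ) (L : List ℤ) : pnum i q L =
    @List.recOn ℤ (fun _ => ℤ) L 0
      (fun b l IH => b * ((q ^ l.length : ℕ) : ℤ) + ((i : ℕ) : ℤ) * IH) := by
  induction L with
  | nil => rfl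
  | cons b l ih =>
    rw [pnum, ih]
    push_cast
    rfl

theorem PrimFl_pnum : Primrec (fun x : ℕ × ℕ × List ℤ => pnum x.1 x.2.1 x.2.2) := by
  have hf : Primrec (fun x : ℕ × ℕ × List ℤ => x.2.2) := Primrec.snd.comp Primrec.snd
  have hg : Primrec (fun _ : ℕ × ℕ × List ℤ => (0 : ℤ)) := Primrec.const 0
  have hh : Primrec₂ (fun (x : ℕ × ℕ × List ℤ) (y : ℤ × List ℤ × ℤ) =>
      y.1 * ((x.2.1 ^ y.2.1.length : ℕ) : ℤ) + ((x.1 : ℕ) : ℤ) * y.2.2) := by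
    have h1 : Primrec (fun z : (ℕ × ℕ × List ℤ) × (ℤ × List ℤ × ℤ) =>
        ((z.1.2.1 ^ z.2.2.1.length : ℕ) : ℤ)) :=
      primrec_int_ofNat.comp (primrec_pow.comp
        (Primrec.fst.comp (Primrec.snd.comp Primrec.fst))
        (Primrec.list_length.comp (Primrec.fst.comp (Primrec.snd.comp Primrec.snd))))
    have h2 : Primrec (fun z : (ℕ × ℕ × List ℤ) × (ℤ × List ℤ × ℤ) => ((z.1.1 : ℕ) : ℤ)) :=
      primrec_int_ofNat.comp (Primrec.fst.comp Primrec.fst)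
    exact primrec_int_add.comp
      (primrec_int_mul.comp (Primrec.fst.comp Primrec.snd) h1)
      (primrec_int_mul.comp h2 (Primrec.snd.comp (Primrec.snd.comp Primrec.snd)))
  refine (Primrec.list_rec hf hg hh).of_eq ?_
  rintro ⟨i, q, L⟩
  exact (PrimFl_pnum_eq i q L).symm

theorem primrec_fl : Primrec (fun x : ℕ × List ℤ × ℕ => fl x.1 x.2.1 x.2.2) := by
  have h2 : Primrec (fun x : ℕ × List ℤ × ℕ => 2 ^ x.1) :=
    primrec_pow.comp (Primrec.const 2) Primrec.fst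
  have h1 : Primrec (fun x : ℕ × List ℤ × ℕ => pnum x.2.2 (2 ^ x.1) x.2.1) :=
    PrimFl_pnum.comp (Primrec.pair (Primrec.snd.comp Primrec.snd)
      (Primrec.pair h2 (Primrec.fst.comp Primrec.snd)))
  have h3 : Primrec (fun x : ℕ × List ℤ × ℕ => (2 ^ x.1) ^ (x.2.1.length - 1)) :=
    primrec_pow.comp h2 (Primrec.nat_sub.comp
      (Primrec.list_length.comp (Primrec.fst.comp Primrec.snd)) (Primrec.const 1))
  refine (primrec_int_ediv_nat.comp h1 h3).of_eq ?_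
  rintro ⟨r, β, i⟩
  show pnum i (2 ^ r) β / (((2 ^ r) ^ (β.length - 1) : ℕ) : ℤ) = fl r β i
  rw [fl]
  push_cast
  rfl

theorem PrimFl_boxL_succ (n R : ℕ) : boxL (n + 1) R = (boxL n R).flatMap
    (fun l => (List.range (2 * R + 1)).map (fun k : ℕ => ((k : ℤ) - (R : ℤ)) :: l)) := by
  rw [boxL]
  congr 1
  funext l
  simp [List.map_eq_flatMap, List.flatMap_assoc]

theorem primrec_boxL (n : ℕ) : Primrec (boxL n) := by
  induction n with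
  | zero => exact Primrec.const [[]]
  | succ n ih =>
    have h0 : Primrec (fun z : (ℕ × List ℤ) × ℕ => ((z.2 : ℤ) - (z.1.1 : ℤ)) :: z.1.2) :=
      Primrec.list_cons.comp
        (primrec_nat_sub_int.comp Primrec.snd (Primrec.fst.comp Primrec.fst))
        (Primrec.snd.comp Primrec.fst)
    have h1 : Primrec (fun z : ℕ × List ℤ => List.range (2 * z.1 + 1)) :=
      Primrec.list_range.comp (Primrec.nat_add.comp
        (Primrec.nat_mul.comp (Primrec.const 2) Primrec.fst) (Primrec.const 1))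
    have h2 : Primrec₂ (fun (R : ℕ) (l : List ℤ) =>
        (List.range (2 * R + 1)).map fun k : ℕ => ((k : ℤ) - (R : ℤ)) :: l) :=
      Primrec.list_map h1 h0
    exact (Primrec.list_flatMap ih h2).of_eq fun R => (PrimFl_boxL_succ n R).symm

theorem primrec_hit (D : ℕ) :
    Primrec (fun x : (ℕ × ℕ × ℕ) × List (ℤ × ℤ) × List ℤ =>
      hit D x.1.1 x.1.2.1 x.1.2.2 x.2.1 x.2.2) := by
  classical
  -- the point
  have a1 : Primrec (fun y : ℕ × (ℕ × ((ℕ × ℕ × ℕ) × List (ℤ × ℤ) × List ℤ)) => y.2.2.1.1) :=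
    Primrec.fst.comp (Primrec.fst.comp (Primrec.snd.comp Primrec.snd))
  have a2 : Primrec (fun y : ℕ × (ℕ × ((ℕ × ℕ × ℕ) × List (ℤ × ℤ) × List ℤ)) => y.2.2.1.2.1) :=
    Primrec.fst.comp (Primrec.snd.comp (Primrec.fst.comp (Primrec.snd.comp Primrec.snd)))
  have a3 : Primrec (fun y : ℕ × (ℕ × ((ℕ × ℕ × ℕ) × List (ℤ × ℤ) × List ℤ)) => y.2.2.1.2.2) :=
    Primrec.snd.comp (Primrec.snd.comp (Primrec.fst.comp (Primrec.snd.comp Primrec.snd)))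
  have a4 : Primrec (fun y : ℕ × (ℕ × ((ℕ × ℕ × ℕ) × List (ℤ × ℤ) × List ℤ)) => y.2.1) :=
    Primrec.fst.comp Primrec.snd
  have a5 : Primrec (fun y : ℕ × (ℕ × ((ℕ × ℕ × ℕ) × List (ℤ × ℤ) × List ℤ)) => y.2.2.2.2) :=
    Primrec.snd.comp (Primrec.snd.comp (Primrec.snd.comp Primrec.snd))
  have a6 : Primrec (fun y : ℕ × (ℕ × ((ℕ × ℕ × ℕ) × List (ℤ × ℤ) × List ℤ)) =>
      2 ^ (y.2.2.1.2.1 - y.2.2.1.1)) :=
    primrec_pow.comp (Primrec.const 2) (Primrec.nat_sub.comp a2 a1)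
  have a7 : Primrec (fun y : ℕ × (ℕ × ((ℕ × ℕ × ℕ) × List (ℤ × ℤ) × List ℤ)) =>
      2 ^ y.2.2.1.1) :=
    primrec_pow.comp (Primrec.const 2) a1
  have a8 : Primrec (fun y : ℕ × (ℕ × ((ℕ × ℕ × ℕ) × List (ℤ × ℤ) × List ℤ)) =>
      y.2.2.1.2.2 * 2 ^ (y.2.2.1.2.1 - y.2.2.1.1)) :=
    Primrec.nat_mul.comp a3 a6
  have a9 : Primrec (fun y : ℕ × (ℕ × ((ℕ × ℕ × ℕ) × List (ℤ × ℤ) × List ℤ)) =>
      y.2.1 / 2 ^ y.2.2.1.1) :=
    Primrec.nat_div.comp a4 a7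
  have a10 : Primrec (fun y : ℕ × (ℕ × ((ℕ × ℕ × ℕ) × List (ℤ × ℤ) × List ℤ)) =>
      y.2.2.1.2.2 * 2 ^ (y.2.2.1.2.1 - y.2.2.1.1) + y.2.1 / 2 ^ y.2.2.1.1) :=
    Primrec.nat_add.comp a8 a9
  have hp1 : Primrec (fun y : ℕ × (ℕ × ((ℕ × ℕ × ℕ) × List (ℤ × ℤ) × List ℤ)) =>
      (((y.2.2.1.2.2 * 2 ^ (y.2.2.1.2.1 - y.2.2.1.1) + y.2.1 / 2 ^ y.2.2.1.1 : ℕ) : ℤ))) :=
    primrec_int_ofNat.comp a10
  have b0 : Primrec (fun y : ℕ × (ℕ × ((ℕ × ℕ × ℕ) × List (ℤ × ℤ) × List ℤ)) =>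
      (y.2.2.1.2.1, y.2.2.2.2, y.2.1)) := Primrec.pair a2 (Primrec.pair a5 a4)
  have b1 : Primrec (fun y : ℕ × (ℕ × ((ℕ × ℕ × ℕ) × List (ℤ × ℤ) × List ℤ)) =>
      fl y.2.2.1.2.1 y.2.2.2.2 y.2.1) := by
    have b1' := primrec_fl.comp b0
    exact b1'
  have b2 : Primrec (fun y : ℕ × (ℕ × ((ℕ × ℕ × ℕ) × List (ℤ × ℤ) × List ℤ)) => (y.1 : ℤ)) :=
    primrec_int_ofNat.comp Primrec.fst
  have b3 : Primrec (fun y : ℕ × (ℕ × ((ℕ × ℕ × ℕ) × List (ℤ × ℤ) × List ℤ)) =>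
      fl y.2.2.1.2.1 y.2.2.2.2 y.2.1 + (y.1 : ℤ)) := primrec_int_add.comp b1 b2
  have hp2 : Primrec (fun y : ℕ × (ℕ × ((ℕ × ℕ × ℕ) × List (ℤ × ℤ) × List ℤ)) =>
      fl y.2.2.1.2.1 y.2.2.2.2 y.2.1 + (y.1 : ℤ) - (D : ℤ)) :=
    primrec_int_sub.comp b3 (Primrec.const (D : ℤ))
  have hL : Primrec (fun y : ℕ × (ℕ × ((ℕ × ℕ × ℕ) × List (ℤ × ℤ) × List ℤ)) => y.2.2.2.1) :=
    Primrec.fst.comp (Primrec.snd.comp (Primrec.snd.comp Primrec.snd))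
  have heq : PrimrecRel (fun (a b : ℤ × ℤ) => a = b) := Primrec.eq
  have hmem : PrimrecRel (fun (L : List (ℤ × ℤ)) (b : ℤ × ℤ) => ∃ a ∈ L, a = b) :=
    heq.exists_mem_list
  have hR1 : PrimrecRel (fun (d : ℕ) (y : ℕ × ((ℕ × ℕ × ℕ) × List (ℤ × ℤ) × List ℤ)) =>
      ∃ a ∈ y.2.2.1, a = (((y.2.1.2.2 * 2 ^ (y.2.1.2.1 - y.2.1.1) + y.1 / 2 ^ y.2.1.1 : ℕ) : ℤ),
        fl y.2.1.2.1 y.2.2.2 y.1 + (d : ℤ) - (D : ℤ))) :=
    hmem.comp hL (Primrec.pair hp1 hp2)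
  have hR2 : PrimrecRel (fun (l : List ℕ) (y : ℕ × ((ℕ × ℕ × ℕ) × List (ℤ × ℤ) × List ℤ)) =>
      ∃ d ∈ l, ∃ a ∈ y.2.2.1, a = (((y.2.1.2.2 * 2 ^ (y.2.1.2.1 - y.2.1.1) +
        y.1 / 2 ^ y.2.1.1 : ℕ) : ℤ), fl y.2.1.2.1 y.2.2.2 y.1 + (d : ℤ) - (D : ℤ))) :=
    hR1.exists_mem_list
  have hR3 : PrimrecRel (fun (i : ℕ) (x : (ℕ × ℕ × ℕ) × List (ℤ × ℤ) × List ℤ) =>
      ∃ d ∈ List.range (2 * D + 1), ∃ a ∈ x.2.1, a = (((x.1.2.2 * 2 ^ (x.1.2.1 - x.1.1) +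
        i / 2 ^ x.1.1 : ℕ) : ℤ), fl x.1.2.1 x.2.2 i + (d : ℤ) - (D : ℤ))) :=
    hR2.comp (Primrec.const (List.range (2 * D + 1))) Primrec.id
  have hfil := hR3.listFilter
  have hrange : Primrec (fun x : (ℕ × ℕ × ℕ) × List (ℤ × ℤ) × List ℤ =>
      List.range (2 ^ x.1.2.1)) :=
    Primrec.list_range.comp (primrec_pow.comp (Primrec.const 2)
      (Primrec.fst.comp (Primrec.snd.comp Primrec.fst)))
  have h1 := hfil.comp hrange Primrec.id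
  have h2 := Primrec.list_length.comp h1
  apply h2.of_eq
  intro x
  unfold hit
  apply congrArg
  apply List.filter_congr
  intro i _
  simp only [List.mem_range, exists_eq_right, id]

end Pool.Agent.Helper24.DS
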