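import Pool.Agent.Helper24.DS.Machine
import Pool.Agent.Helper24.DS.PrimFl
import Pool.Agent.Helper24.DS.Poly
import Pool.Agent.Helper24.DS.IntPrim
import Pool.Agent.Helper24.DS.PrimCodes
import Pool.Agent.Helper1.DS.Help

/-!
# Dimension spectra of polynomial graphs: module Dyad
-/

set_option autoImplicit false

namespace Pool.Agent.Helper24.DS

open Filter Set

/-- the decoding function of `G_dyadic` -/
def Dyad_F (β B : ℕ) (x : ℕ × ℕ) : ℤ × ℤ :=
  (((x.2 / 2 ^ (x.1.unpair.2 + β) * 2 ^ (x.1.unpair.2 - x.1.unpair.1) : ℕ) : ℤ),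
    ((x.2 % 2 ^ (x.1.unpair.2 + β) : ℕ) : ℤ) - ((B * 2 ^ x.1.unpair.2 : ℕ) : ℤ))

theorem Dyad_F_primrec (β B : ℕ) : Primrec (Dyad_F β B) := by
  have hm : Primrec (fun x : ℕ × ℕ => x.1.unpair.1) :=
    Primrec.fst.comp (Primrec.unpair.comp Primrec.fst)
  have hh : Primrec (fun x : ℕ × ℕ => x.1.unpair.2) :=
    Primrec.snd.comp (Primrec.unpair.comp Primrec.fst)
  have hq : Primrec (fun x : ℕ × ℕ => 2 ^ (x.1.unpair.2 + β)) :=
    primrec_pow.comp (Primrec.const 2) (Primrec.nat_add.comp hh (Primrec.const β))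
  have h2 : Primrec (fun x : ℕ × ℕ => x.2) := Primrec.snd
  refine Primrec.pair ?_ ?_
  · exact primrec_int_ofNat.comp (Primrec.nat_mul.comp (Primrec.nat_div.comp h2 hq)
      (primrec_pow.comp (Primrec.const 2) (Primrec.nat_sub.comp hh hm)))
  · exact primrec_int_sub.comp (primrec_int_ofNat.comp (Primrec.nat_mod.comp h2 hq))
      (primrec_int_ofNat.comp (Primrec.nat_mul.comp (Primrec.const B)
        (primrec_pow.comp (Primrec.const 2) hh)))

theorem Dyad_gp_bound {B h : ℕ} {y : ℝ} (hy : |y| ≤ B) : |gp h y| ≤ ((B * 2 ^ h : ℕ) : ℤ) := by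
  have hp : (0 : ℝ) < 2 ^ h := by positivity
  rw [abs_le] at hy
  rw [abs_le]
  unfold gp
  constructor
  · rw [Int.le_floor]
    push_cast
    nlinarith [hy.1]
  · have h1 : (⌊(2 : ℝ) ^ h * y⌋ : ℝ) ≤ (((B * 2 ^ h : ℕ) : ℤ) : ℝ) := by
      refine (Int.floor_le _).trans ?_
      push_cast
      nlinarith [hy.2]
    exact_mod_cast h1

theorem G_dyadic {U : Mach} (hU : IsUniversal U) {n : ℕ} (a : Fin n → ℝ) :
    ∃ c : ℕ, ∀ (m h g : ℕ), m ≤ h → g ≤ 2 ^ m →
      G U a h ((g : ℝ) / 2 ^ m) ≤ m + h + c * (Nat.size h + 1) := by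
  obtain ⟨B, hB⟩ := aux_ev_bound a
  obtain ⟨β, hβ⟩ : ∃ β : ℕ, 2 * B + 1 ≤ 2 ^ β := ⟨2 * B + 1, Nat.lt_two_pow_self.le⟩
  obtain ⟨c, hc⟩ := KC_le_prim₀ hU (Dyad_F_primrec β B)
  refine ⟨1 + β + 2 * (Nat.size (1 + β) + 2) + c + 8, fun m h g hmh hg => ?_⟩
  have h2m : (0 : ℝ) < 2 ^ m := by positivity
  set x : ℝ := (g : ℝ) / 2 ^ m with hx
  have hx01 : x ∈ Icc (0 : ℝ) 1 := by
    refine ⟨by positivity, ?_⟩
    rw [hx, div_le_one h2m]
    exact_mod_cast hg
  set y : ℝ := ev a x with hy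
  have hyB := Dyad_gp_bound (h := h) (hB x hx01)
  rw [← hy, abs_le] at hyB
  obtain ⟨Y, hY⟩ : ∃ Y : ℕ, (Y : ℤ) = gp h y + ((B * 2 ^ h : ℕ) : ℤ) :=
    ⟨(gp h y + ((B * 2 ^ h : ℕ) : ℤ)).toNat, by rw [Int.toNat_of_nonneg]; omega⟩
  have hYlt : Y < 2 ^ (h + β) := by
    have h1 : (Y : ℤ) ≤ 2 * ((B * 2 ^ h : ℕ) : ℤ) := by rw [hY]; omega
    have h2 : Y ≤ 2 * (B * 2 ^ h) := by exact_mod_cast h1
    have h3 : 2 ^ (h + β) = 2 ^ h * 2 ^ β := pow_add _ _ _
    have h4 : 2 ^ h * (2 * B + 1) ≤ 2 ^ h * 2 ^ β := Nat.mul_le_mul_left _ hβ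
    have h5 : 0 < 2 ^ h := by positivity
    have h6 : 2 ^ h * (2 * B + 1) = 2 * (B * 2 ^ h) + 2 ^ h := by ring
    omega
  have hgp : gp h x = ((g * 2 ^ (h - m) : ℕ) : ℤ) := by
    unfold gp
    have e : (2 : ℝ) ^ h * x = ((g * 2 ^ (h - m) : ℕ) : ℤ) := by
      have e1 : (2 : ℝ) ^ h = 2 ^ (h - m) * 2 ^ m := by
        rw [← pow_add, Nat.sub_add_cancel hmh]
      rw [hx, e1]
      push_cast
      field_simp
    rw [e, Int.floor_intCast]
  have hidx : g * 2 ^ (h + β) + Y < 2 ^ (m + 1 + (h + β)) := by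
    have h1 : g * 2 ^ (h + β) ≤ 2 ^ m * 2 ^ (h + β) := Nat.mul_le_mul_right _ hg
    have h2 : 2 ^ (m + 1 + (h + β)) = 2 * (2 ^ m * 2 ^ (h + β)) := by
      rw [pow_add, pow_succ]; ring
    have h3 : 2 ^ (h + β) ≤ 2 ^ m * 2 ^ (h + β) := Nat.le_mul_of_pos_left _ (by positivity)
    omega
  have key := hc (Nat.pair m h) (m + 1 + (h + β)) (g * 2 ^ (h + β) + Y) hidx
  have hdiv : (g * 2 ^ (h + β) + Y) / 2 ^ (h + β) = g := by
    rw [mul_comm, Nat.mul_add_div (by positivity), Nat.div_eq_of_lt hYlt, add_zero]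
  have hmod : (g * 2 ^ (h + β) + Y) % 2 ^ (h + β) = Y := by
    rw [mul_comm, Nat.mul_add_mod, Nat.mod_eq_of_lt hYlt]
  have hF : Dyad_F β B (Nat.pair m h, g * 2 ^ (h + β) + Y) = (gp h x, gp h y) := by
    simp only [Dyad_F, Nat.unpair_pair, hdiv, hmod]
    rw [hgp, hY]
    congr 1
    ring
  rw [hF] at key
  have s1 : Nat.size (m + 1 + (h + β)) ≤ 2 * Nat.size h + Nat.size (1 + β) + 2 := by
    have h1 := aux_size_add (m + h) (1 + β)
    have h2 := aux_size_add m h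
    have h3 : Nat.size m ≤ Nat.size h := aux_size_mono hmh
    rw [show m + 1 + (h + β) = m + h + (1 + β) by ring]
    omega
  have s2 : Nat.size (Nat.pair m h) ≤ 2 * Nat.size h := by
    have h1 := size_pair_le m h
    have h2 : Nat.size m ≤ Nat.size h := aux_size_mono hmh
    rw [max_eq_right h2] at h1
    exact h1
  change KC U ((gp h x, gp h y) : ℤ × ℤ) ≤ _
  refine key.trans ?_
  have e1 : (1 + β + 2 * (Nat.size (1 + β) + 2) + c + 8) * (Nat.size h + 1) =
      (1 + β + 2 * (Nat.size (1 + β) + 2) + c + 8) * Nat.size h +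
      (1 + β + 2 * (Nat.size (1 + β) + 2) + c + 8) := by ring
  have e2 : 8 * Nat.size h ≤ (1 + β + 2 * (Nat.size (1 + β) + 2) + c + 8) * Nat.size h :=
    Nat.mul_le_mul_right _ (by omega)
  rw [e1]
  omega

/-! ### `M_le` -/

theorem Dyad_bc_bound {n : ℕ} (a : Fin n → ℝ) :
    ∃ B : ℕ, ∀ (h g : ℕ) (j : Fin n), g ≤ 2 ^ h → |bc a h g j| ≤ B := by
  obtain ⟨B, hB⟩ := exists_nat_ge (∑ j : Fin n, ∑ i : Fin n, (Nat.choose i j : ℝ) * |a i|)
  refine ⟨B, fun h g j hg => ?_⟩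
  have hq : (g : ℝ) / 2 ^ h ∈ Icc (0 : ℝ) 1 := by
    refine ⟨by positivity, ?_⟩
    rw [div_le_one (by positivity)]
    exact_mod_cast hg
  have hr : (1 / 2 : ℝ) ^ h ∈ Icc (0 : ℝ) 1 :=
    ⟨by positivity, pow_le_one₀ (by norm_num) (by norm_num)⟩
  calc |bc a h g j| ≤ ∑ i : Fin n, |(Nat.choose i j : ℝ) * ((g : ℝ) / 2 ^ h) ^ ((i : ℕ) - (j : ℕ)) *
        ((1 / 2 : ℝ) ^ h) ^ (j : ℕ) * a i| := Finset.abs_sum_le_sum_abs _ _
    _ ≤ ∑ i : Fin n, (Nat.choose i j : ℝ) * |a i| := by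
        apply Finset.sum_le_sum
        intro i _
        rw [abs_mul, abs_mul, abs_mul, abs_of_nonneg (pow_nonneg hq.1 _),
          abs_of_nonneg (pow_nonneg hr.1 _), Nat.abs_cast]
        refine mul_le_mul_of_nonneg_right ?_ (abs_nonneg _)
        have h1 := pow_le_one₀ (n := (i : ℕ) - (j : ℕ)) hq.1 hq.2
        have h2 := pow_le_one₀ (n := (j : ℕ)) hr.1 hr.2
        have h3 : (0 : ℝ) ≤ Nat.choose i j := Nat.cast_nonneg _
        calc (Nat.choose i j : ℝ) * ((g : ℝ) / 2 ^ h) ^ ((i : ℕ) - (j : ℕ)) *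
              ((1 / 2 : ℝ) ^ h) ^ (j : ℕ) ≤ (Nat.choose i j : ℝ) * 1 * 1 := by
              refine mul_le_mul (mul_le_mul_of_nonneg_left h1 h3) h2 (pow_nonneg hr.1 _) ?_
              positivity
          _ = (Nat.choose i j : ℝ) := by ring
    _ ≤ ∑ j : Fin n, ∑ i : Fin n, (Nat.choose i j : ℝ) * |a i| :=
        Finset.single_le_sum (f := fun j : Fin n => ∑ i : Fin n, (Nat.choose i j : ℝ) * |a i|)
          (fun j _ => Finset.sum_nonneg fun i _ => by positivity) (Finset.mem_univ j)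
    _ ≤ B := hB

/-- the number with digits `L` in base `q` and the rest `g` -/
def Dyad_enc (q g : ℕ) : List ℕ → ℕ
  | [] => g
  | v :: L => v + q * Dyad_enc q g L

theorem Dyad_enc_lt {q g b : ℕ} (hg : g < b) (L : List ℕ) (hL : ∀ v ∈ L, v < q) :
    Dyad_enc q g L < q ^ L.length * b := by
  induction L with
  | nil => simpa [Dyad_enc] using hg
  | cons v L ih =>
    have h1 := ih fun w hw => hL w (List.mem_cons_of_mem _ hw)
    have h2 : v < q := hL v List.mem_cons_self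
    have h3 : q * (Dyad_enc q g L + 1) ≤ q * (q ^ L.length * b) := Nat.mul_le_mul_left q h1
    change v + q * Dyad_enc q g L < q ^ (L.length + 1) * b
    have h4 : q ^ (L.length + 1) * b = q * (q ^ L.length * b) := by rw [pow_succ]; ring
    rw [h4]
    have h5 : q * (Dyad_enc q g L + 1) = q * Dyad_enc q g L + q := by ring
    omega

theorem Dyad_enc_div {q g : ℕ} (L : List ℕ) (hL : ∀ v ∈ L, v < q) :
    Dyad_enc q g L / q ^ L.length = g := by
  induction L with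
  | nil => simp [Dyad_enc]
  | cons v L ih =>
    have h2 : v < q := hL v List.mem_cons_self
    change (v + q * Dyad_enc q g L) / q ^ (L.length + 1) = g
    rw [pow_succ', ← Nat.div_div_eq_div_mul, Nat.add_mul_div_left _ _ (by omega),
      Nat.div_eq_of_lt h2, zero_add]
    exact ih fun w hw => hL w (List.mem_cons_of_mem _ hw)

theorem Dyad_enc_digits {q g : ℕ} (L : List ℕ) (hL : ∀ v ∈ L, v < q) :
    (List.range L.length).map (fun j => Dyad_enc q g L / q ^ j % q) = L := by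
  induction L with
  | nil => simp
  | cons v L ih =>
    have h2 : v < q := hL v List.mem_cons_self
    have h3 : (v + q * Dyad_enc q g L) / q = Dyad_enc q g L := by
      rw [Nat.add_mul_div_left _ _ (by omega), Nat.div_eq_of_lt h2, zero_add]
    rw [List.length_cons, List.range_succ_eq_map, List.map_cons, List.map_map]
    congr 1
    · change (v + q * Dyad_enc q g L) / q ^ 0 % q = v
      rw [pow_zero, Nat.div_one, Nat.add_mul_mod_self_left, Nat.mod_eq_of_lt h2]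
    · refine Eq.trans (List.map_congr_left ?_) (ih fun w hw => hL w (List.mem_cons_of_mem _ hw))
      intro j _
      change (v + q * Dyad_enc q g L) / q ^ (j + 1) % q = _
      rw [pow_succ', ← Nat.div_div_eq_div_mul, h3]

/-- the decoding function of `M_le` -/
def Dyad_F2 (n β B : ℕ) (x : ℕ × ℕ) : ℕ × List ℤ :=
  (x.2 / 2 ^ ((x.1 + β) * n), (List.range n).map fun j =>
    ((x.2 / 2 ^ ((x.1 + β) * j) % 2 ^ (x.1 + β) : ℕ) : ℤ) - ((B * 2 ^ x.1 : ℕ) : ℤ))

theorem Dyad_F2_primrec (n β B : ℕ) : Primrec (Dyad_F2 n β B) := by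
  refine Primrec.pair ?_ ?_
  · exact Primrec.nat_div.comp Primrec.snd (primrec_pow.comp (Primrec.const 2)
      (Primrec.nat_mul.comp (Primrec.nat_add.comp Primrec.fst (Primrec.const β))
        (Primrec.const n)))
  · refine Primrec.list_map (Primrec.const (List.range n)) ?_
    have hu : Primrec (fun y : (ℕ × ℕ) × ℕ => y.1.1) := Primrec.fst.comp Primrec.fst
    have hi : Primrec (fun y : (ℕ × ℕ) × ℕ => y.1.2) := Primrec.snd.comp Primrec.fst
    have hj : Primrec (fun y : (ℕ × ℕ) × ℕ => y.2) := Primrec.snd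
    have hub : Primrec (fun y : (ℕ × ℕ) × ℕ => y.1.1 + β) :=
      Primrec.nat_add.comp hu (Primrec.const β)
    exact primrec_int_sub.comp (primrec_int_ofNat.comp (Primrec.nat_mod.comp
      (Primrec.nat_div.comp hi (primrec_pow.comp (Primrec.const 2) (Primrec.nat_mul.comp hub hj)))
      (primrec_pow.comp (Primrec.const 2) hub)))
      (primrec_int_ofNat.comp (Primrec.nat_mul.comp (Primrec.const B)
        (primrec_pow.comp (Primrec.const 2) hu)))

theorem M_le {U : Mach} (hU : IsUniversal U) {n : ℕ} (a : Fin n → ℝ) :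
    ∃ c : ℕ, ∀ (h g u : ℕ), g ≤ 2 ^ h →
      M U a h g u ≤ h + n * u + c * (Nat.size h + Nat.size u + 1) := by
  obtain ⟨B, hB⟩ := Dyad_bc_bound a
  obtain ⟨β, hβ⟩ : ∃ β : ℕ, 2 * B + 1 ≤ 2 ^ β := ⟨2 * B + 1, Nat.lt_two_pow_self.le⟩
  obtain ⟨c, hc⟩ := KC_le_prim₀ hU (Dyad_F2_primrec n β B)
  refine ⟨c + (β * n + 1) + 2 * (n * 2 + Nat.size (β * n + 1) + 3) + 6 + 2 * n, fun h g u hg => ?_⟩
  set q : ℕ := 2 ^ (u + β) with hq
  have hbd : ∀ j, |gp u (bc a h g j)| ≤ ((B * 2 ^ u : ℕ) : ℤ) := fun j =>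
    Dyad_gp_bound (hB h g j hg)
  have hbd' : ∀ j, 0 ≤ gp u (bc a h g j) + ((B * 2 ^ u : ℕ) : ℤ) := by
    intro j
    have := (abs_le.1 (hbd j)).1
    omega
  set v : Fin n → ℕ := fun j => (gp u (bc a h g j) + ((B * 2 ^ u : ℕ) : ℤ)).toNat with hv
  have hvj : ∀ j, (v j : ℤ) = gp u (bc a h g j) + ((B * 2 ^ u : ℕ) : ℤ) := fun j =>
    Int.toNat_of_nonneg (hbd' j)
  have hvlt : ∀ j, v j < q := by
    intro j
    have h0 := (abs_le.1 (hbd j)).2
    have h1 : (v j : ℤ) ≤ 2 * ((B * 2 ^ u : ℕ) : ℤ) := by rw [hvj]; omega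
    have h2 : v j ≤ 2 * (B * 2 ^ u) := by exact_mod_cast h1
    have h3 : q = 2 ^ u * 2 ^ β := pow_add _ _ _
    have h4 : 2 ^ u * (2 * B + 1) ≤ 2 ^ u * 2 ^ β := Nat.mul_le_mul_left _ hβ
    have h5 : 0 < 2 ^ u := by positivity
    have h6 : 2 ^ u * (2 * B + 1) = 2 * (B * 2 ^ u) + 2 ^ u := by ring
    omega
  have hL : ∀ w ∈ List.ofFn v, w < q := by
    intro w hw
    obtain ⟨j, rfl⟩ := (List.mem_ofFn' v w).1 hw
    exact hvlt j
  have hlen : (List.ofFn v).length = n := List.length_ofFn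
  set i : ℕ := Dyad_enc q g (List.ofFn v) with hi
  have hilt : i < 2 ^ ((u + β) * n + (h + 1)) := by
    have h1 : g < 2 ^ (h + 1) := by
      rw [pow_succ]
      have : 0 < 2 ^ h := by positivity
      omega
    have h2 := Dyad_enc_lt h1 _ hL
    rw [hlen] at h2
    rw [pow_add, pow_mul]
    exact h2
  have key := hc u ((u + β) * n + (h + 1)) i hilt
  have hdiv : i / 2 ^ ((u + β) * n) = g := by
    have := Dyad_enc_div (g := g) _ hL
    rw [hlen] at this
    rw [pow_mul]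
    exact this
  have hdig : (List.range n).map (fun j => i / 2 ^ ((u + β) * j) % 2 ^ (u + β)) = List.ofFn v := by
    have := Dyad_enc_digits (g := g) _ hL
    rw [hlen] at this
    refine Eq.trans (List.map_congr_left ?_) this
    intro j _
    rw [pow_mul]
  have hF : Dyad_F2 n β B (u, i) = (g, List.ofFn fun j => gp u (bc a h g j)) := by
    simp only [Dyad_F2, hdiv]
    congr 1
    have e1 : (List.range n).map (fun j =>
        ((i / 2 ^ ((u + β) * j) % 2 ^ (u + β) : ℕ) : ℤ) - ((B * 2 ^ u : ℕ) : ℤ)) =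
        ((List.range n).map (fun j => i / 2 ^ ((u + β) * j) % 2 ^ (u + β))).map
          (fun w : ℕ => (w : ℤ) - ((B * 2 ^ u : ℕ) : ℤ)) := by
      rw [List.map_map]; rfl
    rw [e1, hdig, List.map_ofFn]
    congr 1
    funext j
    change (v j : ℤ) - _ = _
    rw [hvj]
    ring
  rw [hF] at key
  change KC U ((g, List.ofFn fun j => gp u (bc a h g j)) : ℕ × List ℤ) ≤ _
  refine key.trans ?_
  have hmul : ∀ n' : ℕ, Nat.size (u * n') ≤ n' * (Nat.size u + 1) := by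
    intro n'
    induction n' with
    | zero => simp
    | succ n' ih =>
      have h1 := aux_size_add (u * n') u
      rw [show u * (n' + 1) = u * n' + u by ring]
      have h2 : (n' + 1) * (Nat.size u + 1) = n' * (Nat.size u + 1) + Nat.size u + 1 := by ring
      omega
  have s1 : Nat.size ((u + β) * n + (h + 1)) ≤
      n * (Nat.size u + 1) + Nat.size (β * n + 1) + Nat.size h + 3 := by
    have h1 := aux_size_add (u * n) (h + (β * n + 1))
    have h2 := aux_size_add h (β * n + 1)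
    have h3 := hmul n
    rw [show (u + β) * n + (h + 1) = u * n + (h + (β * n + 1)) by ring]
    omega
  have e1 : (c + (β * n + 1) + 2 * (n * 2 + Nat.size (β * n + 1) + 3) + 6 + 2 * n) *
      (Nat.size h + Nat.size u + 1) =
      (c + (β * n + 1) + 2 * (n * 2 + Nat.size (β * n + 1) + 3) + 6 + 2 * n) * Nat.size h +
      (c + (β * n + 1) + 2 * (n * 2 + Nat.size (β * n + 1) + 3) + 6 + 2 * n) * Nat.size u +
      (c + (β * n + 1) + 2 * (n * 2 + Nat.size (β * n + 1) + 3) + 6 + 2 * n) := by ring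
  have e2 : 2 * Nat.size h ≤ (c + (β * n + 1) + 2 * (n * 2 + Nat.size (β * n + 1) + 3) + 6 + 2 * n) *
      Nat.size h := Nat.mul_le_mul_right _ (by omega)
  have e3 : (2 * n + 2) * Nat.size u ≤
      (c + (β * n + 1) + 2 * (n * 2 + Nat.size (β * n + 1) + 3) + 6 + 2 * n) *
      Nat.size u := Nat.mul_le_mul_right _ (by omega)
  have e4 : (u + β) * n + (h + 1) = h + n * u + (β * n + 1) := by ring
  have e5 : (2 * n + 2) * Nat.size u = 2 * (n * Nat.size u) + 2 * Nat.size u := by ring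
  have e6 : n * (Nat.size u + 1) = n * Nat.size u + n := by ring
  rw [e1]
  omega

end Pool.Agent.Helper24.DS
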