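import Pool.Agent.Helper24.DS.Machine

/-!
# Dimension spectra of polynomial graphs: module Enum
-/

set_option autoImplicit false

namespace Pool.Agent.Helper24.DS

open Filter Set

/-- The enumeration of the strings of small complexity. -/
def Enum_e (t : ℕ → List Bool → Option (List Bool)) (w s : ℕ) : Option ℕ :=
  (Encodable.decode (α := List Bool) s.unpair.1).bind fun p =>
    if p.length ≤ w then
      (t s.unpair.2 p).bind fun v => if str (val v) = v then some (val v) else none
    else none

theorem exists_enum {U : Mach} (hU : IsUniversal U) :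
    ∃ e : ℕ → ℕ → Option ℕ, Primrec₂ e ∧ ∀ w n, (∃ s, e w s = some n) ↔ KC U n ≤ w := by
  obtain ⟨t, ht1, -, ht3⟩ := exists_stage hU
  refine ⟨Enum_e t, ?_, ?_⟩
  · refine Primrec.option_bind
      (Primrec.decode.comp (Primrec.fst.comp (Primrec.unpair.comp Primrec.snd))) ?_
    refine Primrec.ite (c := fun q : (ℕ × ℕ) × List Bool => q.2.length ≤ q.1.1) ?_ ?_
      (Primrec.const none)
    · exact Primrec.nat_le.comp (Primrec.list_length.comp Primrec.snd)
        (Primrec.fst.comp Primrec.fst)
    · refine Primrec.option_bind (ht1.comp (Primrec.snd.comp (Primrec.unpair.comp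
        (Primrec.snd.comp Primrec.fst))) Primrec.snd) ?_
      refine Primrec.ite
        (c := fun q : ((ℕ × ℕ) × List Bool) × List Bool => str (val q.2) = q.2) ?_ ?_
        (Primrec.const none)
      · exact Primrec.eq.comp (primrec_str.comp (primrec_val.comp Primrec.snd)) Primrec.snd
      · exact Primrec.option_some.comp (primrec_val.comp Primrec.snd)
  · intro w n
    constructor
    · rintro ⟨s, hs⟩
      rw [Enum_e, Option.bind_eq_some_iff] at hs
      obtain ⟨p, -, hp⟩ := hs
      split_ifs at hp with hl
      rw [Option.bind_eq_some_iff] at hp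
      obtain ⟨v, hv, h2⟩ := hp
      split_ifs at h2 with h3
      rw [Option.some_inj] at h2
      have h4 : v ∈ U p [] := (ht3 p v).2 ⟨_, hv⟩
      refine le_trans (KC_le_length n ?_) hl
      rw [Encodable.encode_nat, ← h2, h3]
      exact h4
    · intro h
      obtain ⟨p, hp1, hp2⟩ := exists_prog hU n
      obtain ⟨st, hst⟩ := (ht3 _ _).1 hp2
      rw [Encodable.encode_nat] at hst
      refine ⟨Nat.pair (Encodable.encode p) st, ?_⟩
      rw [Enum_e, Nat.unpair_pair]
      simp only [Encodable.encodek, Option.bind_some]
      rw [if_pos (by omega), hst, Option.bind_some, val_str, if_pos rfl]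

section

variable {β : Type} [Encodable β] [DecidableEq β] (P : ℕ × β × ℕ → Prop) [DecidablePred P]

/-- the enumeration, possibly with repetitions -/
def Enum_E (par s : ℕ) : Option β :=
  (Encodable.decode (α := β × ℕ) s).bind fun x => if P (par, x.1, x.2) then some x.1 else none

/-- the elements enumerated before stage `s`, without repetitions -/
def Enum_L (par : ℕ) : ℕ → List β
  | 0 => []
  | s + 1 => match Enum_E P par s with
    | none => Enum_L par s
    | some y => if (Enum_L par s).idxOf y < (Enum_L par s).length then Enum_L par s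
        else Enum_L par s ++ [y]

theorem Enum_L_succ (par s : ℕ) : Enum_L P par (s + 1) = match Enum_E P par s with
    | none => Enum_L P par s
    | some y => if (Enum_L P par s).idxOf y < (Enum_L P par s).length then Enum_L P par s
        else Enum_L P par s ++ [y] := rfl

omit [DecidableEq β] in
theorem Enum_E_mem {par s : ℕ} {y : β} (h : Enum_E P par s = some y) :
    ∃ s', P (par, y, s') := by
  rw [Enum_E, Option.bind_eq_some_iff] at h
  obtain ⟨x, -, hx⟩ := h
  split_ifs at hx with h2
  rw [Option.some_inj] at hx
  subst hx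
  exact ⟨_, h2⟩

theorem Enum_L_sub {par s : ℕ} {y : β} (h : y ∈ Enum_L P par s) : ∃ s', P (par, y, s') := by
  induction s with
  | zero => simp [Enum_L] at h
  | succ s ih =>
    rw [Enum_L_succ] at h
    rcases hE : Enum_E P par s with _ | z
    · rw [hE] at h
      exact ih h
    · rw [hE] at h
      simp only at h
      split_ifs at h with h2
      · exact ih h
      · rw [List.mem_append, List.mem_singleton] at h
        rcases h with h | rfl
        · exact ih h
        · exact Enum_E_mem P hE

theorem Enum_L_nodup (par s : ℕ) : (Enum_L P par s).Nodup := by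
  induction s with
  | zero => simp [Enum_L]
  | succ s ih =>
    rw [Enum_L_succ]
    rcases hE : Enum_E P par s with _ | z
    · exact ih
    · simp only
      split_ifs with h2
      · exact ih
      · rw [List.idxOf_lt_length_iff] at h2
        rw [List.nodup_append]
        refine ⟨ih, List.nodup_singleton _, ?_⟩
        intro a ha b hb
        rw [List.mem_singleton] at hb
        rintro rfl
        exact h2 (hb ▸ ha)

theorem Enum_L_step (par s : ℕ) : Enum_L P par s <+: Enum_L P par (s + 1) := by
  rw [Enum_L_succ]
  rcases hE : Enum_E P par s with _ | z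
  · exact List.prefix_refl _
  · simp only
    split_ifs with h2
    · exact List.prefix_refl _
    · exact List.prefix_append _ _

theorem Enum_L_mono (par : ℕ) {s s' : ℕ} (h : s ≤ s') : Enum_L P par s <+: Enum_L P par s' := by
  induction h with
  | refl => exact List.prefix_refl _
  | step _ ih => exact ih.trans (Enum_L_step P par _)

theorem Enum_L_mem {par s' : ℕ} {y : β} (h : P (par, y, s')) : ∃ s, y ∈ Enum_L P par s := by
  refine ⟨Encodable.encode (y, s') + 1, ?_⟩
  rw [Enum_L_succ]
  have hE : Enum_E P par (Encodable.encode (y, s')) = some y := by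
    rw [Enum_E, Encodable.encodek, Option.bind_some, if_pos h]
  rw [hE]
  simp only
  split_ifs with h2
  · rw [List.idxOf_lt_length_iff] at h2
    exact h2
  · simp

end

theorem Enum_primrec {β : Type} [Primcodable β] [DecidableEq β] (P : ℕ × β × ℕ → Prop)
    [DecidablePred P] (hP : PrimrecPred P) : Primrec₂ (Enum_L P) := by
  have hE : Primrec₂ (Enum_E P) := by
    refine Primrec.option_bind (Primrec.decode.comp Primrec.snd) ?_
    refine Primrec.ite (c := fun q : (ℕ × ℕ) × (β × ℕ) => P (q.1.1, q.2.1, q.2.2)) ?_ ?_
      (Primrec.const none)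
    · exact hP.comp ((Primrec.fst.comp Primrec.fst).pair ((Primrec.fst.comp Primrec.snd).pair
        (Primrec.snd.comp Primrec.snd)))
    · exact Primrec.option_some.comp (Primrec.fst.comp Primrec.snd)
  have h1 : Primrec₂ fun (par : ℕ) (q : ℕ × List β) =>
      Option.casesOn (motive := fun _ => List β) (Enum_E P par q.1) q.2 (fun y =>
        if q.2.idxOf y < q.2.length then q.2 else q.2 ++ [y]) := by
    refine Primrec.option_casesOn (hE.comp Primrec.fst (Primrec.fst.comp Primrec.snd))
      (Primrec.snd.comp Primrec.snd) ?_
    have g : Primrec fun x : (ℕ × (ℕ × List β)) × β => x.1.2.2 :=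
      Primrec.snd.comp (Primrec.snd.comp Primrec.fst)
    refine Primrec.ite
      (c := fun x : (ℕ × (ℕ × List β)) × β => x.1.2.2.idxOf x.2 < x.1.2.2.length) ?_ g ?_
    · exact Primrec.nat_lt.comp (Primrec.list_idxOf.comp Primrec.snd g)
        (Primrec.list_length.comp g)
    · exact Primrec.list_concat.comp g Primrec.snd
  refine Primrec₂.of_eq (Primrec.nat_rec (Primrec.const ([] : List β)) h1) fun par s => ?_
  induction s with
  | zero => rfl
  | succ s ih =>
    simp only at ih ⊢
    rw [ih, Enum_L_succ]
    rcases Enum_E P par s with _ | z <;> rfl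

/-- **Enumeration lemma.** -/
theorem KC_le_of_enum {U : Mach} (hU : IsUniversal U) {β : Type} [Primcodable β]
    {P : ℕ × β × ℕ → Prop} (hP : PrimrecPred P) :
    ∃ c : ℕ, ∀ (par k : ℕ) (z : β), (∃ s, P (par, z, s)) →
      {y : β | ∃ s, P (par, y, s)}.encard ≤ 2 ^ k →
      KC U z ≤ k + 2 * Nat.size k + 2 * Nat.size par + c := by
  classical
  obtain ⟨c, hc⟩ := KC_le (β := Unit) hU (f := fun x : ℕ × ℕ × Unit =>
    Nat.rfindOpt fun s => (Enum_L P x.1 s)[x.2.1]?) (by
      refine Partrec.rfindOpt ?_
      refine Primrec.to_comp ?_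
      refine Primrec.list_getElem?.comp ?_ (Primrec.fst.comp (Primrec.snd.comp Primrec.fst))
      exact (Enum_primrec P hP).comp (Primrec.fst.comp Primrec.fst) Primrec.snd)
  refine ⟨c + KC U (), fun par k z hz hk => ?_⟩
  obtain ⟨s', hs'⟩ := hz
  obtain ⟨s, hs⟩ := Enum_L_mem P hs'
  obtain ⟨i, hi, hi2⟩ := List.mem_iff_getElem.1 hs
  have hlen : (Enum_L P par s).length ≤ 2 ^ k := by
    have h1 : (((Enum_L P par s).toFinset : Finset β) : Set β) ⊆ {y : β | ∃ s, P (par, y, s)} := by
      intro y hy
      rw [Finset.mem_coe, List.mem_toFinset] at hy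
      exact Enum_L_sub P hy
    have h2 := (Set.encard_le_encard h1).trans hk
    rw [Set.encard_coe_eq_coe_finsetCard, List.toFinset_card_of_nodup (Enum_L_nodup P par s)] at h2
    exact_mod_cast h2
  have h3 := hc par k i () z (by omega) (by
    rw [Nat.rfindOpt_mono]
    · refine ⟨s, ?_⟩
      rw [Option.mem_def]
      simp only
      rw [List.getElem?_eq_getElem hi, hi2]
    · intro a m n hmn ha
      rw [Option.mem_def] at ha ⊢
      simp only at ha ⊢
      obtain ⟨u, hu⟩ := Enum_L_mono P par hmn
      rw [← hu]
      rw [List.getElem?_append_left]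
      · exact ha
      · obtain ⟨h4, -⟩ := List.getElem?_eq_some_iff.1 ha
        exact h4)
  omega

end Pool.Agent.Helper24.DS
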