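import Pool.Agent.Helper24.DS.BadMeasure

/-!
# Dimension spectra of polynomial graphs: module ExistsGood
-/

set_option autoImplicit false

namespace Pool.Agent.Helper24.DS

open Filter Set

section Assembly

variable {G : ℕ → ℝ → ℕ} {M : ℕ → ℕ → ℕ → ℕ} {c : ℕ}

theorem ExistsGood_summable (N : ℕ) (hN : 0 < N) : Summable fun r : ℕ => (1 / 2 : ℝ) ^ (r / N) := by
  obtain ⟨ρ, hρ0, hρN⟩ : ∃ ρ : ℝ, 0 < ρ ∧ ρ ^ N = 1 / 2 := by
    refine ⟨(1 / 2 : ℝ) ^ (1 / (N : ℝ)), by positivity, ?_⟩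
    rw [← Real.rpow_natCast, ← Real.rpow_mul (by norm_num), one_div_mul_cancel (by positivity),
      Real.rpow_one]
  have hρ1 : ρ < 1 := by
    by_contra h
    have := one_le_pow₀ (n := N) (not_lt.1 h)
    rw [hρN] at this
    norm_num at this
  have hs : Summable fun r : ℕ => 2 * ρ ^ r := (summable_geometric_of_lt_one hρ0.le hρ1).mul_left 2
  refine Summable.of_nonneg_of_le (fun r => by positivity) (fun r => ?_) hs
  have h1 : ρ ^ r = (1 / 2) ^ (r / N) * ρ ^ (r % N) := by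
    rw [← hρN, ← pow_mul, ← pow_add, Nat.div_add_mod]
  have h2 : (1 / 2 : ℝ) ≤ ρ ^ (r % N) := by
    rw [← hρN]
    exact pow_le_pow_of_le_one hρ0.le hρ1.le (Nat.mod_lt _ hN).le
  rw [h1]
  have h3 : (0 : ℝ) < (1 / 2) ^ (r / N) := by positivity
  nlinarith

theorem ExistsGood_tail (N : ℕ) (hN : 0 < N) (ε : ENNReal) (hε : 0 < ε) :
    ∃ h₀ : ℕ, ∀ h : ℕ, h₀ ≤ h → ∑' k : ℕ, ENNReal.ofReal ((1 / 2 : ℝ) ^ ((k + h) / N)) < ε := by
  have h1 : ∑' r : ℕ, ENNReal.ofReal ((1 / 2 : ℝ) ^ (r / N)) ≠ ⊤ := by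
    have h2 := ExistsGood_summable N hN
    rw [← ENNReal.ofReal_tsum_of_nonneg (fun r => by positivity) h2]
    exact ENNReal.ofReal_ne_top
  have h2 := ENNReal.tendsto_sum_nat_add (fun r : ℕ => ENNReal.ofReal ((1 / 2 : ℝ) ^ (r / N))) h1
  exact eventually_atTop.1 (h2.eventually (gt_mem_nhds hε))

theorem exists_good (hS : Sys G M c) (E : ℕ) (hE : 0 < E) :
    ∃ h₀ : ℕ, ∀ h g : ℕ, h₀ ≤ h → g < 2 ^ h → ∃ R₀ : ℕ, ∀ R : ℕ, R₀ ≤ R →
      ∃ x ∈ Ico ((g : ℝ) / 2 ^ h) (((g : ℝ) + 1) / 2 ^ h),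
        (∀ r : ℕ, h ≤ r → ∃ u ≤ r, (M h g u : ℝ) + 2 * r - u - h - r / E ≤ G r x) ∧
        (∀ r : ℕ, R ≤ r → (2 - 1 / (E : ℝ)) * r ≤ G r x) := by
  obtain ⟨N, C, hN, hB⟩ := bad_measure hS (2 * E) (by omega)
  obtain ⟨C', hC'⟩ := hS.base (4 * E) (by omega)
  obtain ⟨h₁, hh₁⟩ := ExistsGood_tail N hN (1 / 4) (by norm_num)
  have hE0 : (0 : ℝ) < E := by exact_mod_cast hE
  refine ⟨max h₁ (2 * E * C), fun h g hh hg => ?_⟩
  have hh1 : h₁ ≤ h := (le_max_left _ _).trans hh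
  have hh2 : 2 * E * C ≤ h := (le_max_right _ _).trans hh
  have hpos : (0 : ENNReal) < ENNReal.ofReal ((1 / 2 : ℝ) ^ h) := by
    rw [ENNReal.ofReal_pos]
    positivity
  have hfin : ENNReal.ofReal ((1 / 2 : ℝ) ^ h) ≠ ⊤ := ENNReal.ofReal_ne_top
  obtain ⟨R₁, hR₁⟩ := ExistsGood_tail N hN (ENNReal.ofReal ((1 / 2 : ℝ) ^ h) / 4)
    (ENNReal.div_pos hpos.ne' (by norm_num))
  refine ⟨max R₁ (4 * E * (C + C')), fun R hR => ?_⟩
  have hR1 : R₁ ≤ R := (le_max_left _ _).trans hR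
  have hR2 : 4 * E * (C + C') ≤ R := (le_max_right _ _).trans hR
  -- the bad sets
  set B1 : ℕ → Set ℝ := fun k => {x : ℝ | x ∈ Ico ((g : ℝ) / 2 ^ h) (((g : ℝ) + 1) / 2 ^ h) ∧
        ∀ u ≤ k + h, (G (k + h) x : ℝ) <
          M h g u + 2 * ((k + h : ℕ) : ℝ) - u - h - ((k + h : ℕ) : ℝ) / ((2 * E : ℕ) : ℝ) - C} with hB1
  set B2 : ℕ → Set ℝ := fun k => {x : ℝ | x ∈ Ico (((0 : ℕ) : ℝ) / 2 ^ 0) ((((0 : ℕ) : ℝ) + 1) / 2 ^ 0) ∧
        ∀ u ≤ k + R, (G (k + R) x : ℝ) <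
          M 0 0 u + 2 * ((k + R : ℕ) : ℝ) - u - ((0 : ℕ) : ℝ) -
            ((k + R : ℕ) : ℝ) / ((2 * E : ℕ) : ℝ) - C} with hB2
  have hm1 : MeasureTheory.volume (⋃ k, B1 k) ≤ ENNReal.ofReal ((1 / 2 : ℝ) ^ h) / 4 := by
    refine (MeasureTheory.measure_iUnion_le _).trans ?_
    have h1 : ∀ k, MeasureTheory.volume (B1 k) ≤
        ENNReal.ofReal ((1 / 2 : ℝ) ^ h) * ENNReal.ofReal ((1 / 2 : ℝ) ^ ((k + h) / N)) := by
      intro k
      have := hB h (k + h) g (by omega) hg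
      rw [pow_add, ENNReal.ofReal_mul (by positivity)] at this
      exact this
    refine (ENNReal.tsum_le_tsum h1).trans ?_
    rw [ENNReal.tsum_mul_left, ENNReal.div_eq_inv_mul, mul_comm]
    refine mul_le_mul_left ((hh₁ h hh1).le.trans ?_) _
    rw [one_div]
  have hm2 : MeasureTheory.volume (⋃ k, B2 k) ≤ ENNReal.ofReal ((1 / 2 : ℝ) ^ h) / 4 := by
    refine (MeasureTheory.measure_iUnion_le _).trans ?_
    have h1 : ∀ k, MeasureTheory.volume (B2 k) ≤ ENNReal.ofReal ((1 / 2 : ℝ) ^ ((k + R) / N)) := by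
      intro k
      have := hB 0 (k + R) 0 (by omega) (by norm_num)
      rw [zero_add] at this
      exact this
    exact (ENNReal.tsum_le_tsum h1).trans (hR₁ R hR1).le
  have hvol : MeasureTheory.volume (Ico ((g : ℝ) / 2 ^ h) (((g : ℝ) + 1) / 2 ^ h)) =
      ENNReal.ofReal ((1 / 2 : ℝ) ^ h) := by
    rw [Real.volume_Ico]
    congr 1
    rw [one_div, inv_pow]
    field_simp
    ring
  obtain ⟨x, hx, hx1, hx2⟩ : ∃ x ∈ Ico ((g : ℝ) / 2 ^ h) (((g : ℝ) + 1) / 2 ^ h),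
      (∀ k, x ∉ B1 k) ∧ ∀ k, x ∉ B2 k := by
    by_contra hcon
    push Not at hcon
    have hsub : Ico ((g : ℝ) / 2 ^ h) (((g : ℝ) + 1) / 2 ^ h) ⊆ (⋃ k, B1 k) ∪ ⋃ k, B2 k := by
      intro x hx
      by_cases h1 : ∀ k, x ∉ B1 k
      · obtain ⟨k, hk⟩ := hcon x hx h1
        exact Or.inr (mem_iUnion.2 ⟨k, hk⟩)
      · push Not at h1
        obtain ⟨k, hk⟩ := h1
        exact Or.inl (mem_iUnion.2 ⟨k, hk⟩)
    have h1 := MeasureTheory.measure_mono (μ := MeasureTheory.volume) hsub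
    have h2 := h1.trans ((MeasureTheory.measure_union_le _ _).trans (add_le_add hm1 hm2))
    rw [hvol] at h2
    have h3 : ENNReal.ofReal ((1 / 2 : ℝ) ^ h) / 4 + ENNReal.ofReal ((1 / 2 : ℝ) ^ h) / 4
        = ENNReal.ofReal ((1 / 2 : ℝ) ^ h) / 2 := by
      have h4 : ∀ V : ENNReal, V / 4 = V / 2 / 2 := by
        intro V
        rw [div_eq_mul_inv (V / 2) 2, div_eq_mul_inv V 2, mul_assoc,
          ← ENNReal.mul_inv (by norm_num) (by norm_num), div_eq_mul_inv V 4]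
        norm_num
      rw [h4, ENNReal.add_halves]
    rw [h3] at h2
    exact absurd h2 (not_le.2 (ENNReal.half_lt_self hpos.ne' hfin))
  refine ⟨x, hx, ?_, ?_⟩
  · intro r hr
    obtain ⟨k, rfl⟩ : ∃ k, r = k + h := ⟨r - h, by omega⟩
    have h1 := hx1 k
    simp only [hB1, mem_ofPred_eq, not_and, not_forall, not_lt] at h1
    obtain ⟨u, hu, h2⟩ := h1 hx
    refine ⟨u, hu, ?_⟩
    have h3 : (C : ℝ) ≤ ((k + h : ℕ) : ℝ) / ((2 * E : ℕ) : ℝ) := by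
      rw [le_div_iff₀ (by positivity)]
      have h4 : C * (2 * E) ≤ k + h := by nlinarith
      exact_mod_cast h4
    have h5 : ((k + h : ℕ) : ℝ) / (E : ℝ) = ((k + h : ℕ) : ℝ) / ((2 * E : ℕ) : ℝ) +
        ((k + h : ℕ) : ℝ) / ((2 * E : ℕ) : ℝ) := by
      rw [Nat.cast_mul]
      field_simp
      push_cast
      ring
    rw [h5]
    linarith
  · intro r hr
    obtain ⟨k, rfl⟩ : ∃ k, r = k + R := ⟨r - R, by omega⟩
    have h1 := hx2 k
    have hx01 : x ∈ Ico (((0 : ℕ) : ℝ) / 2 ^ 0) ((((0 : ℕ) : ℝ) + 1) / 2 ^ 0) := by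
      have h0 : (0 : ℝ) ≤ (g : ℝ) / 2 ^ h := by positivity
      have h2 : ((g : ℝ) + 1) / 2 ^ h ≤ 1 := by
        rw [div_le_one (by positivity)]
        have : g + 1 ≤ 2 ^ h := hg
        exact_mod_cast this
      constructor
      · simpa using h0.trans hx.1
      · simpa using hx.2.trans_le h2
    simp only [hB2, mem_ofPred_eq, not_and, not_forall, not_lt] at h1
    obtain ⟨u, hu, h2⟩ := h1 hx01
    have h3 : (((4 * E) * u : ℕ) : ℝ) ≤ (((4 * E) * M 0 0 u + u + C' : ℕ) : ℝ) := by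
      exact_mod_cast hC' u
    push_cast at h3 h2
    have hur : (u : ℝ) ≤ (k : ℝ) + R := by exact_mod_cast hu
    have h4 : ((4 * E * (C + C') : ℕ) : ℝ) ≤ (k : ℝ) + R := by
      have : 4 * E * (C + C') ≤ k + R := by omega
      exact_mod_cast this
    push_cast at h4
    have hE1 : (1 : ℝ) ≤ E := by exact_mod_cast hE
    have hC0 : (0 : ℝ) ≤ C := by positivity
    have hC'0 : (0 : ℝ) ≤ C' := by positivity
    have h5 : (4 * (E : ℝ)) * ((2 - 1 / (E : ℝ)) * ((k + R : ℕ) : ℝ)) ≤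
        (4 * (E : ℝ)) * G (k + R) x := by
      have h6 : (4 * (E : ℝ)) * ((2 - 1 / (E : ℝ)) * ((k + R : ℕ) : ℝ)) =
          8 * E * ((k : ℝ) + R) - 4 * ((k : ℝ) + R) := by
        push_cast
        field_simp
        ring
      have h7 : (4 * (E : ℝ)) * ((M 0 0 u : ℝ) + 2 * ((k : ℝ) + R) - u - 0 -
          ((k : ℝ) + R) / (2 * E) - C) =
          4 * E * (M 0 0 u : ℝ) + 8 * E * ((k : ℝ) + R) - 4 * E * u - 2 * ((k : ℝ) + R) -
            4 * E * C := by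
        field_simp
        ring
      have h8 := mul_le_mul_of_nonneg_left h2 (by positivity : (0 : ℝ) ≤ 4 * (E : ℝ))
      rw [h7] at h8
      rw [h6]
      have h9 : (C' : ℝ) ≤ 4 * E * C' := by nlinarith
      nlinarith
    exact le_of_mul_le_mul_left h5 (by positivity)

end Assembly

end Pool.Agent.Helper24.DS
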