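import Pool.Agent.Helper24.DS.SysEx
import Pool.Agent.Helper24.DS.DimEq
import Pool.Agent.Helper24.DS.Assembly

/-!
# Dimension spectra of polynomial graphs: module Final
-/

set_option autoImplicit false

namespace Pool.Agent.Helper24.DS

open Filter Set

theorem Final_ev (A : Polynomial ℝ) (x : ℝ) :
    ev (fun i : Fin (A.natDegree + 1) => A.coeff i) x = A.eval x := by
  rw [ev, Polynomial.eval_eq_sum_range, Finset.sum_range]

theorem spectrum_of_KEYG {U : Mach} (hU : IsUniversal U) (A : Polynomial ℝ)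
    (hK : ∀ B, KEYG (A.natDegree + 1) B)
    (ha : 1 ≤ dim U (fun i : Fin (A.natDegree + 1) => A.coeff i)) (t : ℝ) (ht1 : 1 ≤ t)
    (ht2 : t ≤ 2) : ENNReal.ofReal t ∈ spectrum U A := by
  obtain ⟨c, hS⟩ := exists_sys hU (Nat.le_add_left 1 _) hK _ ha
  obtain ⟨x, hx, h1, h2⟩ := assembly hS (s := t - 1) (by linarith) (by linarith)
  have h3 := dim_eq_of hU _ (by linarith) hx h1 h2
  rw [Final_ev, show 1 + (t - 1) = t by ring] at h3
  exact ⟨x, h3⟩

end Pool.Agent.Helper24.DS
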