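import Pool.Agent.Helper24.DS.Machine
import Pool.Agent.Helper24.DS.PrimFl
import Pool.Agent.Helper24.DS.Poly
import Pool.Agent.Helper24.DS.IntPrim
import Pool.Agent.Helper24.DS.PrimCodes
import Pool.Agent.Helper1.DS.Help

/-!
# Dimension spectra of polynomial graphs: module GleM
-/

set_option autoImplicit false

namespace Pool.Agent.Helper24.DS

open Filter Set

/-- the decoding function of `G_le_M` -/
def GleM_F (δ D : ℕ) (x : ℕ × ℕ × (ℕ × List ℤ)) : ℤ × ℤ :=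
  (((x.2.2.1 * 2 ^ (x.1.unpair.1 - x.1.unpair.2) + x.2.1 / 2 ^ δ : ℕ) : ℤ),
    fl (x.1.unpair.1 - x.1.unpair.2) x.2.2.2 (x.2.1 / 2 ^ δ) + ((x.2.1 % 2 ^ δ : ℕ) : ℤ) - (D : ℤ))

theorem GleM_F_primrec (δ D : ℕ) : Primrec (GleM_F δ D) := by
  have hp : Primrec (fun x : ℕ × ℕ × (ℕ × List ℤ) => x.1.unpair.1 - x.1.unpair.2) :=
    Primrec.nat_sub.comp (Primrec.fst.comp (Primrec.unpair.comp Primrec.fst))
      (Primrec.snd.comp (Primrec.unpair.comp Primrec.fst))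
  have hi : Primrec (fun x : ℕ × ℕ × (ℕ × List ℤ) => x.2.1) := Primrec.fst.comp Primrec.snd
  have hg : Primrec (fun x : ℕ × ℕ × (ℕ × List ℤ) => x.2.2.1) :=
    Primrec.fst.comp (Primrec.snd.comp Primrec.snd)
  have hv : Primrec (fun x : ℕ × ℕ × (ℕ × List ℤ) => x.2.2.2) :=
    Primrec.snd.comp (Primrec.snd.comp Primrec.snd)
  have hi1 : Primrec (fun x : ℕ × ℕ × (ℕ × List ℤ) => x.2.1 / 2 ^ δ) :=
    Primrec.nat_div.comp hi (Primrec.const (2 ^ δ))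
  have hi2 : Primrec (fun x : ℕ × ℕ × (ℕ × List ℤ) => x.2.1 % 2 ^ δ) :=
    Primrec.nat_mod.comp hi (Primrec.const (2 ^ δ))
  refine Primrec.pair ?_ ?_
  · exact primrec_int_ofNat.comp (Primrec.nat_add.comp
      (Primrec.nat_mul.comp hg (primrec_pow.comp (Primrec.const 2) hp)) hi1)
  · exact primrec_int_sub.comp (primrec_int_add.comp
      (primrec_fl.comp (Primrec.pair hp (Primrec.pair hv hi1)))
      (primrec_int_ofNat.comp hi2)) (Primrec.const (D : ℤ))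

theorem G_le_M {U : Mach} (hU : IsUniversal U) {n : ℕ} (a : Fin n → ℝ) :
    ∃ c : ℕ, ∀ (h g u : ℕ) (x : ℝ), h ≤ u → x ∈ Icc (0 : ℝ) 1 →
      x ∈ Icc ((g : ℝ) / 2 ^ h) (((g : ℝ) + 1) / 2 ^ h) →
      G U a u x ≤ M U a h g u + (u - h) + c * (Nat.size u + 1) := by
  obtain ⟨D₁, hD₁⟩ := aux_ev_lip a
  set D : ℕ := D₁ + n + 1 with hD
  obtain ⟨δ, hδ⟩ : ∃ δ : ℕ, 2 * D + 1 ≤ 2 ^ δ := ⟨2 * D + 1, Nat.lt_two_pow_self.le⟩
  obtain ⟨c, hc⟩ := KC_le_prim hU (GleM_F_primrec δ D)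
  refine ⟨1 + δ + 2 * (Nat.size (1 + δ) + 1) + c + 6, fun h g u x hhu hx hxg => ?_⟩
  -- the local coordinate
  have h2h : (0 : ℝ) < 2 ^ h := by positivity
  set t : ℝ := 2 ^ h * x - g with ht
  have ht0 : 0 ≤ t := by
    have := (div_le_iff₀ h2h).1 hxg.1
    rw [ht]; linarith
  have ht1 : t ≤ 1 := by
    have := (le_div_iff₀ h2h).1 hxg.2
    rw [ht]; linarith
  have hxt : x = ((g : ℝ) + t) / 2 ^ h := by
    rw [ht]; field_simp; ring
  set k : ℕ := u - h with hk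
  have h2k : (0 : ℝ) < 2 ^ k := by positivity
  have huk : (2 : ℝ) ^ u = 2 ^ k * 2 ^ h := by
    rw [← pow_add, hk, Nat.sub_add_cancel hhu]
  have hn0 : (0 : ℝ) ≤ 2 ^ k * t := by positivity
  set i₁ : ℕ := ⌊(2 : ℝ) ^ k * t⌋₊ with hi₁
  have hi₁a : (i₁ : ℝ) ≤ 2 ^ k * t := Nat.floor_le hn0
  have hi₁b : 2 ^ k * t < (i₁ : ℝ) + 1 := Nat.lt_floor_add_one _
  have hi₁k : i₁ ≤ 2 ^ k := by
    have : (i₁ : ℝ) ≤ ((2 ^ k : ℕ) : ℝ) := by
      push_cast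
      calc (i₁ : ℝ) ≤ 2 ^ k * t := hi₁a
        _ ≤ 2 ^ k * 1 := mul_le_mul_of_nonneg_left ht1 h2k.le
        _ = 2 ^ k := mul_one _
    exact_mod_cast this
  -- first coordinate
  have hgp : gp u x = ((g * 2 ^ k + i₁ : ℕ) : ℤ) := by
    unfold gp
    rw [Int.floor_eq_iff]
    have e : (2 : ℝ) ^ u * x = g * 2 ^ k + 2 ^ k * t := by
      rw [hxt, huk]; field_simp
    rw [e]
    push_cast
    constructor <;> linarith
  -- second coordinate
  set t' : ℝ := (i₁ : ℝ) / 2 ^ k with ht'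
  have ht'0 : 0 ≤ t' := by positivity
  have ht't : t' ≤ t := by
    rw [ht', div_le_iff₀ h2k]; linarith
  have ht'1 : t' ≤ 1 := ht't.trans ht1
  have htt' : t - t' ≤ 1 / 2 ^ k := by
    rw [ht', sub_le_iff_le_add, ← add_div, le_div_iff₀ h2k]; linarith
  have hev1 : |ev a x - ev a (((g : ℝ) + t') / 2 ^ h)| ≤ D₁ * (1 / 2 ^ u) := by
    have hy : ((g : ℝ) + t') / 2 ^ h ∈ Icc (0 : ℝ) 1 := by
      refine ⟨by positivity, le_trans ?_ hx.2⟩
      rw [hxt]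
      exact div_le_div_of_nonneg_right (by linarith) h2h.le
    refine (hD₁ x hx _ hy).trans ?_
    refine mul_le_mul_of_nonneg_left ?_ (Nat.cast_nonneg _)
    rw [hxt, ← sub_div, abs_div, abs_of_pos h2h, huk, one_div, mul_inv, div_eq_mul_inv]
    refine mul_le_mul_of_nonneg_right ?_ (by positivity)
    rw [show (g : ℝ) + t - (g + t') = t - t' by ring, abs_of_nonneg (by linarith)]
    rw [← one_div]; exact htt'
  have hev2 : |2 ^ u * ev a x - ∑ j, (gp u (bc a h g j) : ℝ) * t' ^ (j : ℕ)| ≤ ((D₁ + n : ℕ) : ℝ) := by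
    have h1 := aux_round (bc a h g) u (t := t') ⟨ht'0, ht'1⟩
    rw [ev_bc] at h1
    have h2 : |2 ^ u * ev a x - 2 ^ u * ev a (((g : ℝ) + t') / 2 ^ h)| ≤ D₁ := by
      rw [← mul_sub, abs_mul, abs_of_pos (by positivity : (0 : ℝ) < 2 ^ u)]
      calc 2 ^ u * |ev a x - ev a (((g : ℝ) + t') / 2 ^ h)| ≤ 2 ^ u * (D₁ * (1 / 2 ^ u)) :=
            mul_le_mul_of_nonneg_left hev1 (by positivity)
        _ = D₁ := by field_simp
    push_cast
    calc |2 ^ u * ev a x - ∑ j, (gp u (bc a h g j) : ℝ) * t' ^ (j : ℕ)|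
        ≤ |2 ^ u * ev a x - 2 ^ u * ev a (((g : ℝ) + t') / 2 ^ h)| +
          |2 ^ u * ev a (((g : ℝ) + t') / 2 ^ h) - ∑ j, (gp u (bc a h g j) : ℝ) * t' ^ (j : ℕ)| :=
          abs_sub_le _ _ _
      _ ≤ D₁ + n := add_le_add h2 h1
  have hfl := aux_fl (fun j => gp u (bc a h g j)) k i₁
  have hdiff := aux_floor hev2
  rw [ht', ← hfl] at hdiff
  change |gp u (ev a x) - fl k (List.ofFn fun j => gp u (bc a h g j)) i₁| ≤ _ at hdiff
  set f₀ : ℤ := fl k (List.ofFn fun j => gp u (bc a h g j)) i₁ with hf₀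
  rw [abs_le] at hdiff
  obtain ⟨d, hd⟩ : ∃ d : ℕ, (d : ℤ) = gp u (ev a x) - f₀ + D :=
    ⟨(gp u (ev a x) - f₀ + D).toNat, by rw [Int.toNat_of_nonneg]; push_cast at hdiff ⊢; omega⟩
  have hdlt : d < 2 ^ δ := by
    have : (d : ℤ) ≤ 2 * D := by rw [hd]; push_cast at hdiff ⊢; omega
    omega
  -- the index
  have hidx : i₁ * 2 ^ δ + d < 2 ^ (k + 1 + δ) := by
    have h1 : i₁ * 2 ^ δ ≤ 2 ^ k * 2 ^ δ := Nat.mul_le_mul_right _ hi₁k
    have h2 : 2 ^ (k + 1 + δ) = 2 * (2 ^ k * 2 ^ δ) := by rw [pow_add, pow_add]; ring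
    have h3 : 2 ^ δ ≤ 2 ^ k * 2 ^ δ := Nat.le_mul_of_pos_left _ (by positivity)
    omega
  have key := hc (Nat.pair u h) (k + 1 + δ) (i₁ * 2 ^ δ + d)
    (g, List.ofFn fun j => gp u (bc a h g j)) hidx
  have hdiv : (i₁ * 2 ^ δ + d) / 2 ^ δ = i₁ := by
    rw [mul_comm, Nat.mul_add_div (by positivity), Nat.div_eq_of_lt hdlt, add_zero]
  have hmod : (i₁ * 2 ^ δ + d) % 2 ^ δ = d := by
    rw [mul_comm, Nat.mul_add_mod, Nat.mod_eq_of_lt hdlt]
  have hF : GleM_F δ D (Nat.pair u h, i₁ * 2 ^ δ + d, (g, List.ofFn fun j => gp u (bc a h g j))) =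
      (gp u x, gp u (ev a x)) := by
    simp only [GleM_F, Nat.unpair_pair, hdiv, hmod]
    rw [← hk, ← hf₀, ← hgp]
    congr 1
    omega
  rw [hF] at key
  have s1 : Nat.size (k + 1 + δ) ≤ Nat.size u + Nat.size (1 + δ) + 1 := by
    have h1 := aux_size_add k (1 + δ)
    have h2 : Nat.size k ≤ Nat.size u := aux_size_mono (by omega)
    rw [add_assoc]; omega
  have s2 : Nat.size (Nat.pair u h) ≤ 2 * Nat.size u := by
    have h1 := size_pair_le u h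
    have h2 : Nat.size h ≤ Nat.size u := aux_size_mono hhu
    rw [max_eq_left h2] at h1
    exact h1
  change KC U ((gp u x, gp u (ev a x)) : ℤ × ℤ) ≤
    KC U ((g, List.ofFn fun j => gp u (bc a h g j)) : ℕ × List ℤ) + k + _
  refine key.trans ?_
  have e1 : (1 + δ + 2 * (Nat.size (1 + δ) + 1) + c + 6) * (Nat.size u + 1) =
      (1 + δ + 2 * (Nat.size (1 + δ) + 1) + c + 6) * Nat.size u +
      (1 + δ + 2 * (Nat.size (1 + δ) + 1) + c + 6) := by ring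
  have e2 : 6 * Nat.size u ≤ (1 + δ + 2 * (Nat.size (1 + δ) + 1) + c + 6) * Nat.size u :=
    Nat.mul_le_mul_right _ (by omega)
  rw [e1]
  omega

end Pool.Agent.Helper24.DS
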