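import Pool.Agent.Helper24.DS.Machine
import Pool.Agent.Helper24.DS.PrimFl
import Pool.Agent.Helper24.DS.Poly
import Pool.Agent.Helper24.DS.IntPrim
import Pool.Agent.Helper24.DS.PrimCodes
import Pool.Agent.Helper1.DS.Help

/-!
# Dimension spectra of polynomial graphs: module GleM2
-/

set_option autoImplicit false

namespace Pool.Agent.Helper24.DS

open Filter Set

/-- the decoding function of `G_le_M'` -/
def GleM2_F (x : ℕ × ℕ × (ℕ × List ℤ)) : ℤ × ℤ :=
  ((x.2.2.1 : ℤ), x.2.2.2.headI * ((2 ^ x.1 : ℕ) : ℤ) + (x.2.1 : ℤ))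

theorem GleM2_F_primrec : Primrec GleM2_F := by
  have hi : Primrec (fun x : ℕ × ℕ × (ℕ × List ℤ) => x.2.1) := Primrec.fst.comp Primrec.snd
  have hg : Primrec (fun x : ℕ × ℕ × (ℕ × List ℤ) => x.2.2.1) :=
    Primrec.fst.comp (Primrec.snd.comp Primrec.snd)
  have hv : Primrec (fun x : ℕ × ℕ × (ℕ × List ℤ) => x.2.2.2) :=
    Primrec.snd.comp (Primrec.snd.comp Primrec.snd)
  refine Primrec.pair (primrec_int_ofNat.comp hg) ?_
  exact primrec_int_add.comp (primrec_int_mul.comp (Primrec.list_headI.comp hv)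
    (primrec_int_ofNat.comp (primrec_pow.comp (Primrec.const 2) Primrec.fst)))
    (primrec_int_ofNat.comp hi)

theorem GleM2_head {n : ℕ} (a : Fin n → ℝ) (h g u : ℕ) :
    (List.ofFn fun j => gp u (bc a h g j)).headI = gp u (ev a ((g : ℝ) / 2 ^ h)) := by
  have e := ev_bc a h g 0
  rw [add_zero] at e
  rw [← e]
  rcases n with _ | n
  · simp [ev, gp]
  · rw [List.ofFn_succ]
    change gp u (bc a h g 0) = _
    congr 1
    rw [ev, Fin.sum_univ_succ]
    simp

theorem G_le_M' {U : Mach} (hU : IsUniversal U) {n : ℕ} (a : Fin n → ℝ) :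
    ∃ c : ℕ, ∀ (h g u : ℕ), u ≤ h → g ≤ 2 ^ h →
      G U a h ((g : ℝ) / 2 ^ h) ≤ M U a h g u + (h - u) + c * (Nat.size h + 1) := by
  obtain ⟨c, hc⟩ := KC_le_prim hU GleM2_F_primrec
  refine ⟨c + 4, fun h g u huh _ => ?_⟩
  set y : ℝ := ev a ((g : ℝ) / 2 ^ h) with hy
  have hdiv := gp_div h u huh y
  set i : ℕ := (gp h y % (2 : ℤ) ^ (h - u)).toNat with hi
  have hpos : (0 : ℤ) < 2 ^ (h - u) := by positivity
  have hi0 : (i : ℤ) = gp h y % (2 : ℤ) ^ (h - u) :=
    Int.toNat_of_nonneg (Int.emod_nonneg _ hpos.ne')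
  have hilt : i < 2 ^ (h - u) := by
    have : (i : ℤ) < ((2 ^ (h - u) : ℕ) : ℤ) := by
      rw [hi0]; push_cast; exact Int.emod_lt_of_pos _ hpos
    exact_mod_cast this
  have key := hc (h - u) (h - u) i (g, List.ofFn fun j => gp u (bc a h g j)) hilt
  have hgp : gp h ((g : ℝ) / 2 ^ h) = (g : ℤ) := by
    unfold gp
    rw [mul_div_cancel₀ _ (by positivity)]
    exact Int.floor_natCast g
  have hF : GleM2_F (h - u, i, (g, List.ofFn fun j => gp u (bc a h g j))) =
      (gp h ((g : ℝ) / 2 ^ h), gp h y) := by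
    simp only [GleM2_F]
    rw [GleM2_head, ← hy, hgp, hi0, ← hdiv]
    congr 1
    push_cast
    rw [mul_comm]
    exact Int.mul_ediv_add_emod _ _
  rw [hF] at key
  have s1 : Nat.size (h - u) ≤ Nat.size h := aux_size_mono (by omega)
  change KC U ((gp h ((g : ℝ) / 2 ^ h), gp h y) : ℤ × ℤ) ≤
    KC U ((g, List.ofFn fun j => gp u (bc a h g j)) : ℕ × List ℤ) + (h - u) + _
  refine key.trans ?_
  have e1 : (c + 4) * (Nat.size h + 1) = (c * Nat.size h) + 4 * Nat.size h + (c + 4) := by ring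
  rw [e1]
  omega

end Pool.Agent.Helper24.DS
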