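import Pool.Agent.Helper24.DS.ExistsGood
import Pool.Agent.Helper24.DS.Codes

/-!
# Dimension spectra of polynomial graphs: module GoodTail
-/

set_option autoImplicit false

namespace Pool.Agent.Helper24.DS

open Filter Set

section Assembly

variable {G : ℕ → ℝ → ℕ} {M : ℕ → ℕ → ℕ → ℕ} {c : ℕ}

theorem good_tail (hS : Sys G M c) {s : ℝ} (hs0 : 0 ≤ s) (hs1 : s ≤ 1) {h g : ℕ} (hg : g ≤ 2 ^ h)
    (hG : Good G M s h g) (r u : ℕ) (hr : h ≤ r) (hu : u ≤ r) :
    (1 + s) * r - c * (Nat.size h + 1) ≤ (M h g u : ℝ) + 2 * r - u - h := by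
  have hc : (0 : ℝ) ≤ c * (Nat.size h + 1) := by positivity
  have hrR : (h : ℝ) ≤ r := by exact_mod_cast hr
  have huR : (u : ℝ) ≤ r := by exact_mod_cast hu
  rcases le_total h u with h1 | h1
  · have h2 := hG.1 u h1
    nlinarith
  · have h2 := hS.up' h g u h1 hg
    have h3 : (G h ((g : ℝ) / 2 ^ h) : ℝ) ≤ M h g u + (h - u) + c * (Nat.size h + 1) := by
      have : ((h - u : ℕ) : ℝ) = (h : ℝ) - u := by
        rw [Nat.cast_sub h1]
      rw [← this]
      exact_mod_cast h2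
    have h4 := hG.2
    nlinarith

theorem init_good (hS : Sys G M c) {s : ℝ} (hs1 : s < 1) (H₁ : ℕ) :
    ∃ H γ : ℕ, H₁ ≤ H ∧ γ < 2 ^ H ∧ Good G M s H γ := by
  obtain ⟨E, hE⟩ := exists_nat_gt (2 / (1 - s))
  have h1s : 0 < 1 - s := by linarith
  have hEpos : (0 : ℝ) < E := lt_trans (by positivity) hE
  have hE0 : 0 < E := by exact_mod_cast hEpos
  have hE2 : 2 / (E : ℝ) ≤ 1 - s := by
    rw [div_le_iff₀ hEpos]
    rw [div_lt_iff₀ h1s] at hE
    linarith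
  obtain ⟨h₀, hh₀⟩ := exists_good hS E hE0
  obtain ⟨R₀, hR₀⟩ := hh₀ h₀ 0 le_rfl (by positivity)
  obtain ⟨x, hx, -, hx2⟩ := hR₀ R₀ le_rfl
  obtain ⟨R₁, hR₁⟩ := size_small c E
  have hx0 : 0 ≤ x := by simpa using hx.1
  have hx1 : x < 1 := by
    refine hx.2.trans_le ?_
    rw [div_le_one (by positivity)]
    have : (1 : ℝ) ≤ 2 ^ h₀ := one_le_pow₀ (by norm_num)
    simpa using this
  -- the bound for the logarithmic errors
  have hlog : ∀ u : ℕ, R₁ ≤ u → (c : ℝ) * (Nat.size u + 1) ≤ u / E := by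
    intro u hu
    rw [le_div_iff₀ hEpos]
    have h2 : (E : ℝ) * (c * (Nat.size u + 1)) ≤ u := by exact_mod_cast hR₁ u hu
    linarith
  set H : ℕ := max H₁ (max R₀ R₁) with hH
  have hH1 : H₁ ≤ H := le_max_left _ _
  have hH2 : R₀ ≤ H := (le_max_left _ _).trans (le_max_right _ _)
  have hH3 : R₁ ≤ H := (le_max_right _ _).trans (le_max_right _ _)
  have h2H : (0 : ℝ) < 2 ^ H := by positivity
  have hf0 : 0 ≤ 2 ^ H * x := by positivity
  set γ : ℕ := Nat.floor (2 ^ H * x) with hγ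
  have e1 : (γ : ℝ) ≤ 2 ^ H * x := Nat.floor_le hf0
  have e2 : 2 ^ H * x < (γ : ℝ) + 1 := Nat.lt_floor_add_one _
  have hγ1 : (γ : ℝ) / 2 ^ H ≤ x := by
    rw [div_le_iff₀ h2H]
    linarith
  have hγ2 : x ≤ ((γ : ℝ) + 1) / 2 ^ H := by
    rw [le_div_iff₀ h2H]
    linarith
  have hγlt : γ < 2 ^ H := by
    rw [hγ, Nat.floor_lt hf0]
    push_cast
    nlinarith
  refine ⟨H, γ, hH1, hγlt, ?_, ?_⟩
  · intro u hu
    have h3 := hS.up H γ u x hu ⟨hx0, hx1.le⟩ ⟨hγ1, hγ2⟩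
    have h4 : (G u x : ℝ) ≤ M H γ u + (u - H) + c * (Nat.size u + 1) := by
      have : ((u - H : ℕ) : ℝ) = (u : ℝ) - H := by
        rw [Nat.cast_sub hu]
      rw [← this]
      exact_mod_cast h3
    have h5 := hx2 u (hH2.trans hu)
    have h6 := hlog u (hH3.trans hu)
    have h7 : (0 : ℝ) ≤ u := Nat.cast_nonneg u
    have h8 : (2 - 1 / (E : ℝ)) * u - u / E = (2 - 2 / E) * u := by ring
    have h9 : (1 + s) * u ≤ (2 - 2 / (E : ℝ)) * u := by
      apply mul_le_mul_of_nonneg_right _ h7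
      linarith
    linarith
  · have h3 := hS.near H x ((γ : ℝ) / 2 ^ H) ⟨hx0, hx1.le⟩
      ⟨by positivity, hγ1.trans hx1.le⟩ (by
        rw [abs_of_nonneg (by linarith), one_div, inv_pow]
        have : ((γ : ℝ) + 1) / 2 ^ H = (γ : ℝ) / 2 ^ H + (2 ^ H)⁻¹ := by
          rw [add_div, one_div]
        linarith)
    have h4 : (G H x : ℝ) ≤ G H ((γ : ℝ) / 2 ^ H) + c := by exact_mod_cast h3
    have h5 := hx2 H hH2
    have h6 := hlog H hH3
    have h7 : (0 : ℝ) ≤ H := Nat.cast_nonneg H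
    have h8 : (2 - 1 / (E : ℝ)) * H - H / E = (2 - 2 / E) * H := by ring
    have h9 : (1 + s) * H ≤ (2 - 2 / (E : ℝ)) * H := by
      apply mul_le_mul_of_nonneg_right _ h7
      linarith
    have h10 : (c : ℝ) ≤ c * (Nat.size H + 1) := by
      have : (0 : ℝ) ≤ c * Nat.size H := by positivity
      linarith
    linarith

end Assembly

end Pool.Agent.Helper24.DS
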