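import Pool.Agent.Helper24.DS.Poly

/-!
# Dimension spectra of polynomial graphs: module HitGe
-/

set_option autoImplicit false

namespace Pool.Agent.Helper24.DS

open Filter Set

theorem HitGe_pow (x y : ℝ) (hx0 : 0 ≤ x) (hx1 : x ≤ 1) (hy0 : 0 ≤ y) (hy1 : y ≤ 1) (j : ℕ) :
    |x ^ j - y ^ j| ≤ j * |x - y| := by
  induction j with
  | zero => simp
  | succ j ih =>
    have e : x ^ (j + 1) - y ^ (j + 1) = x * (x ^ j - y ^ j) + (x - y) * y ^ j := by ring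
    rw [e]
    have h1 : |x * (x ^ j - y ^ j)| ≤ |x ^ j - y ^ j| := by
      rw [abs_mul, abs_of_nonneg hx0]
      exact mul_le_of_le_one_left (abs_nonneg _) hx1
    have h2 : |(x - y) * y ^ j| ≤ |x - y| := by
      rw [abs_mul, abs_of_nonneg (pow_nonneg hy0 j)]
      exact mul_le_of_le_one_right (abs_nonneg _) (pow_le_one₀ hy0 hy1)
    have h3 := abs_add_le (x * (x ^ j - y ^ j)) ((x - y) * y ^ j)
    push_cast
    nlinarith

theorem HitGe_lip {n : ℕ} (a : Fin n → ℝ) :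
    ∃ K : ℕ, ∀ x y : ℝ, 0 ≤ x → x ≤ 1 → 0 ≤ y → y ≤ 1 → |ev a x - ev a y| ≤ K * |x - y| := by
  obtain ⟨K, hK⟩ := exists_nat_ge (∑ j : Fin n, |a j| * (j : ℕ))
  refine ⟨K, fun x y hx0 hx1 hy0 hy1 => ?_⟩
  unfold ev
  rw [← Finset.sum_sub_distrib]
  calc |∑ j : Fin n, (a j * x ^ (j : ℕ) - a j * y ^ (j : ℕ))|
      ≤ ∑ j : Fin n, |a j * x ^ (j : ℕ) - a j * y ^ (j : ℕ)| := Finset.abs_sum_le_sum_abs _ _
    _ ≤ ∑ j : Fin n, (|a j| * (j : ℕ)) * |x - y| := by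
        refine Finset.sum_le_sum fun j _ => ?_
        rw [← mul_sub, abs_mul, mul_assoc]
        exact mul_le_mul_of_nonneg_left (HitGe_pow x y hx0 hx1 hy0 hy1 j) (abs_nonneg _)
    _ = (∑ j : Fin n, |a j| * (j : ℕ)) * |x - y| := by rw [Finset.sum_mul]
    _ ≤ K * |x - y| := mul_le_mul_of_nonneg_right hK (abs_nonneg _)

theorem HitGe_round {n : ℕ} (b : Fin n → ℝ) (r : ℕ) (t : ℝ) (ht0 : 0 ≤ t) (ht1 : t ≤ 1) :
    |∑ j, ((gp r (b j) : ℤ) : ℝ) * t ^ (j : ℕ) - 2 ^ r * ev b t| ≤ n := by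
  unfold ev
  rw [Finset.mul_sum, ← Finset.sum_sub_distrib]
  calc |∑ j : Fin n, (((gp r (b j) : ℤ) : ℝ) * t ^ (j : ℕ) - 2 ^ r * (b j * t ^ (j : ℕ)))|
      ≤ ∑ j : Fin n, |((gp r (b j) : ℤ) : ℝ) * t ^ (j : ℕ) - 2 ^ r * (b j * t ^ (j : ℕ))| :=
        Finset.abs_sum_le_sum_abs _ _
    _ ≤ ∑ _j : Fin n, (1 : ℝ) := by
        refine Finset.sum_le_sum fun j _ => ?_
        have e : ((gp r (b j) : ℤ) : ℝ) * t ^ (j : ℕ) - 2 ^ r * (b j * t ^ (j : ℕ)) =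
            (((gp r (b j) : ℤ) : ℝ) - 2 ^ r * b j) * t ^ (j : ℕ) := by ring
        rw [e, abs_mul, abs_of_nonneg (pow_nonneg ht0 _)]
        have h1 : |((gp r (b j) : ℤ) : ℝ) - 2 ^ r * b j| ≤ 1 := by
          have h2 := Int.floor_le ((2 : ℝ) ^ r * b j)
          have h3 := Int.lt_floor_add_one ((2 : ℝ) ^ r * b j)
          unfold gp
          rw [abs_le]
          constructor <;> linarith
        calc |((gp r (b j) : ℤ) : ℝ) - 2 ^ r * b j| * t ^ (j : ℕ)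
            ≤ 1 * 1 := mul_le_mul h1 (pow_le_one₀ ht0 ht1) (pow_nonneg ht0 _) zero_le_one
          _ = 1 := one_mul 1
    _ = n := by simp

theorem HitGe_near {n : ℕ} (hn : 1 ≤ n) (a : Fin n → ℝ) :
    ∃ D : ℕ, ∀ (h r g i : ℕ), h ≤ r → g < 2 ^ h → i < 2 ^ r →
      |gp r (ev a (((g * 2 ^ (r - h) + i / 2 ^ h : ℕ) : ℝ) / 2 ^ r)) -
        fl r (List.ofFn fun j => gp r (bc a h g j)) i| ≤ (D : ℤ) := by
  obtain ⟨K, hK⟩ := HitGe_lip a
  refine ⟨K + n + 1, fun h r g i hhr hg hi => ?_⟩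
  rw [fl_ofFn hn]
  set t : ℝ := (i : ℝ) / 2 ^ r with ht
  have hr0 : (0 : ℝ) < 2 ^ r := by positivity
  have hh0 : (0 : ℝ) < 2 ^ h := by positivity
  have ht0 : 0 ≤ t := by positivity
  have ht1 : t ≤ 1 := by
    rw [ht, div_le_one hr0]
    exact_mod_cast hi.le
  set P : ℕ := g * 2 ^ (r - h) + i / 2 ^ h with hP
  set x : ℝ := ((g : ℝ) + t) / 2 ^ h with hx
  set y : ℝ := (P : ℝ) / 2 ^ r with hy
  have hpow : (2 : ℝ) ^ r = 2 ^ (r - h) * 2 ^ h := by rw [← pow_add]; congr 1; omega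
  have hpown : (2 : ℕ) ^ r = 2 ^ (r - h) * 2 ^ h := by rw [← pow_add]; congr 1; omega
  have hg1 : (g : ℝ) + 1 ≤ 2 ^ h := by exact_mod_cast hg
  have hx0 : 0 ≤ x := by positivity
  have hx1 : x ≤ 1 := by
    rw [hx, div_le_one hh0]
    linarith
  have hy0 : 0 ≤ y := by positivity
  have hdiv1 : i / 2 ^ h * 2 ^ h ≤ i := Nat.div_mul_le_self i _
  have hdiv2 : i < (i / 2 ^ h + 1) * 2 ^ h := by
    have h3 := Nat.lt_mul_div_succ i (show 0 < 2 ^ h by positivity)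
    rw [mul_comm] at h3
    exact h3
  have hd1 : ((i / 2 ^ h : ℕ) : ℝ) * 2 ^ h ≤ i := by exact_mod_cast hdiv1
  have hd2 : (i : ℝ) ≤ (((i / 2 ^ h : ℕ) : ℝ) + 1) * 2 ^ h := by exact_mod_cast hdiv2.le
  have hPle : P < 2 ^ r := by
    have h4 : i / 2 ^ h < 2 ^ (r - h) := by
      rw [Nat.div_lt_iff_lt_mul (by positivity)]
      rw [← hpown]
      exact hi
    calc P < g * 2 ^ (r - h) + 2 ^ (r - h) := by omega
      _ = (g + 1) * 2 ^ (r - h) := by ring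
      _ ≤ 2 ^ h * 2 ^ (r - h) := Nat.mul_le_mul_right _ hg
      _ = 2 ^ r := by rw [hpown, mul_comm]
  have hy1 : y ≤ 1 := by
    rw [hy, div_le_one hr0]
    exact_mod_cast hPle.le
  have hxy : 2 ^ r * (x - y) = ((i : ℝ) - ((i / 2 ^ h : ℕ) : ℝ) * 2 ^ h) / 2 ^ h := by
    rw [hx, hy, ht, hP]
    push_cast
    rw [hpow]
    field_simp
    ring
  have hxy0 : 0 ≤ 2 ^ r * (x - y) := by
    rw [hxy]
    exact div_nonneg (by linarith) hh0.le
  have hxy1 : 2 ^ r * (x - y) ≤ 1 := by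
    rw [hxy, div_le_one hh0]
    linarith
  have hlip : |2 ^ r * ev a x - 2 ^ r * ev a y| ≤ K := by
    rw [← mul_sub, abs_mul, abs_of_pos hr0]
    have h5 := hK x y hx0 hx1 hy0 hy1
    have h6 : |x - y| = x - y := abs_of_nonneg (by
      by_contra hc
      push Not at hc
      nlinarith)
    rw [h6] at h5
    calc 2 ^ r * |ev a x - ev a y| ≤ 2 ^ r * (K * (x - y)) := mul_le_mul_of_nonneg_left h5 hr0.le
      _ = K * (2 ^ r * (x - y)) := by ring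
      _ ≤ K * 1 := mul_le_mul_of_nonneg_left hxy1 (Nat.cast_nonneg K)
      _ = K := mul_one _
  have hround := HitGe_round (bc a h g) r t ht0 ht1
  rw [ev_bc] at hround
  have h7 := Int.floor_le (∑ j : Fin n, ((gp r (bc a h g j) : ℤ) : ℝ) * t ^ (j : ℕ))
  have h8 := Int.lt_floor_add_one (∑ j : Fin n, ((gp r (bc a h g j) : ℤ) : ℝ) * t ^ (j : ℕ))
  have h9 := Int.floor_le ((2 : ℝ) ^ r * ev a y)
  have h10 := Int.lt_floor_add_one ((2 : ℝ) ^ r * ev a y)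
  rw [abs_le] at hlip hround
  have hgoal : |((gp r (ev a y) : ℤ) : ℝ) -
      ((⌊∑ j : Fin n, ((gp r (bc a h g j) : ℤ) : ℝ) * t ^ (j : ℕ)⌋ : ℤ) : ℝ)| ≤
        ((K + n + 1 : ℕ) : ℝ) := by
    rw [abs_le]
    push_cast
    have h11 : ((gp r (ev a y) : ℤ) : ℝ) = ((⌊(2 : ℝ) ^ r * ev a y⌋ : ℤ) : ℝ) := rfl
    rw [h11]
    constructor
    · linarith [hlip.1, hlip.2, hround.1, hround.2]
    · linarith [hlip.1, hlip.2, hround.1, hround.2]
  exact_mod_cast hgoal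

/-- the polynomial passes near the enumerated points -/
theorem hit_ge {n : ℕ} (hn : 1 ≤ n) (a : Fin n → ℝ) :
    ∃ D : ℕ, ∀ (h r g : ℕ) (L : List (ℤ × ℤ)), h ≤ r → g < 2 ^ h →
      ((Finset.range (2 ^ (r - h))).filter fun p : ℕ =>
        (((g * 2 ^ (r - h) + p : ℕ) : ℤ),
          gp r (ev a (((g * 2 ^ (r - h) + p : ℕ) : ℝ) / 2 ^ r))) ∈ L).card * 2 ^ h ≤
      hit D h r g L (List.ofFn fun j => gp r (bc a h g j)) := by
  obtain ⟨D, hD⟩ := HitGe_near hn a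
  refine ⟨D, fun h r g L hhr hg => ?_⟩
  have hpown : (2 : ℕ) ^ r = 2 ^ (r - h) * 2 ^ h := by rw [← pow_add]; congr 1; omega
  set β := List.ofFn fun j => gp r (bc a h g j) with hβ
  set S := (Finset.range (2 ^ (r - h))).filter fun p : ℕ =>
        (((g * 2 ^ (r - h) + p : ℕ) : ℤ),
          gp r (ev a (((g * 2 ^ (r - h) + p : ℕ) : ℝ) / 2 ^ r))) ∈ L with hS
  set T := (List.range (2 ^ r)).filter fun i =>
    decide (∃ d < 2 * D + 1, ((((g * 2 ^ (r - h) + i / 2 ^ h : ℕ) : ℤ),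
      fl r β i + (d : ℤ) - (D : ℤ)) : ℤ × ℤ) ∈ L) with hT
  have hTn : T.Nodup := List.Nodup.filter _ List.nodup_range
  have hlen : hit D h r g L β = T.toFinset.card := by
    rw [List.toFinset_card_of_nodup hTn]
    rfl
  rw [hlen]
  have hcard : S.card * 2 ^ h = (S ×ˢ Finset.range (2 ^ h)).card := by
    rw [Finset.card_product, Finset.card_range]
  rw [hcard]
  refine Finset.card_le_card_of_injOn (fun q => q.1 * 2 ^ h + q.2) ?_ ?_
  · intro q hq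
    have hq1 := (Finset.mem_product.1 (Finset.mem_coe.1 hq)).1
    have hq2 := Finset.mem_range.1 (Finset.mem_product.1 (Finset.mem_coe.1 hq)).2
    obtain ⟨hq3, hq4⟩ := Finset.mem_filter.1 hq1
    rw [Finset.mem_range] at hq3
    have hdiv : (q.1 * 2 ^ h + q.2) / 2 ^ h = q.1 := by
      rw [mul_comm, Nat.mul_add_div (by positivity), Nat.div_eq_of_lt hq2, add_zero]
    have hlt : q.1 * 2 ^ h + q.2 < 2 ^ r := by
      calc q.1 * 2 ^ h + q.2 < q.1 * 2 ^ h + 2 ^ h := by omega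
        _ = (q.1 + 1) * 2 ^ h := by ring
        _ ≤ 2 ^ (r - h) * 2 ^ h := Nat.mul_le_mul_right _ hq3
        _ = 2 ^ r := hpown.symm
    simp only [Finset.mem_coe, List.mem_toFinset, hT, List.mem_filter, List.mem_range,
      decide_eq_true_eq]
    refine ⟨hlt, ?_⟩
    have hn := hD h r g (q.1 * 2 ^ h + q.2) hhr hg hlt
    rw [hdiv] at hn ⊢
    rw [← hβ] at hn
    rw [abs_le] at hn
    set A := gp r (ev a (((g * 2 ^ (r - h) + q.1 : ℕ) : ℝ) / 2 ^ r)) with hA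
    set F := fl r β (q.1 * 2 ^ h + q.2) with hF
    refine ⟨(A - F + D).toNat, by omega, ?_⟩
    have h1 : F + ((A - F + D).toNat : ℤ) - D = A := by
      rw [Int.toNat_of_nonneg (by omega)]
      ring
    rw [h1]
    exact hq4
  · intro q hq q' hq' hqq
    have hq2 := Finset.mem_range.1 (Finset.mem_product.1 (Finset.mem_coe.1 hq)).2
    have hq2' := Finset.mem_range.1 (Finset.mem_product.1 (Finset.mem_coe.1 hq')).2
    have hdiv : (q.1 * 2 ^ h + q.2) / 2 ^ h = q.1 := by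
      rw [mul_comm, Nat.mul_add_div (by positivity), Nat.div_eq_of_lt hq2, add_zero]
    have hdiv' : (q'.1 * 2 ^ h + q'.2) / 2 ^ h = q'.1 := by
      rw [mul_comm, Nat.mul_add_div (by positivity), Nat.div_eq_of_lt hq2', add_zero]
    have hqq' : q.1 * 2 ^ h + q.2 = q'.1 * 2 ^ h + q'.2 := hqq
    have h1 : q.1 = q'.1 := by rw [← hdiv, ← hdiv', hqq']
    refine Prod.ext h1 ?_
    rw [h1] at hqq'
    omega

end Pool.Agent.Helper24.DS
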