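import Pool.Agent.Helper24.DS.Prog

/-!
# Dimension spectra of polynomial graphs: module Machine
-/

set_option autoImplicit false

namespace Pool.Agent.Helper24.DS

open Filter Set

/-- The search space of the machine. -/
abbrev Machine_X : Type := ℕ × ℕ × ℕ × ℕ × ℕ

/-- Check a candidate: `x = (stage, length of the program, par, k, i)`. -/
def Machine_chk (β : Type) [Encodable β] (t : ℕ → List Bool → Option (List Bool))
    (s : List Bool) (x : Machine_X) : Option (ℕ × ℕ × β) :=
  if x.2.2.2.2 < 2 ^ x.2.2.2.1 ∧ s.drop x.2.1 = cw x.2.2.1 x.2.2.2.1 x.2.2.2.2 then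
    (t x.1 (s.take x.2.1)).bind fun v =>
      (Encodable.decode (α := β) (val v)).map fun z => (x.2.2.1, x.2.2.2.2, z)
  else none

theorem Machine_chk_eq {β : Type} [Encodable β] {t : ℕ → List Bool → Option (List Bool)}
    {s : List Bool} {x : Machine_X} {r : ℕ × ℕ × β} :
    Machine_chk β t s x = some r ↔
      x.2.2.2.2 < 2 ^ x.2.2.2.1 ∧ s.drop x.2.1 = cw x.2.2.1 x.2.2.2.1 x.2.2.2.2 ∧
      ∃ v, t x.1 (s.take x.2.1) = some v ∧ ∃ z, Encodable.decode (α := β) (val v) = some z ∧
        r = (x.2.2.1, x.2.2.2.2, z) := by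
  unfold Machine_chk
  split_ifs with h
  · rw [Option.bind_eq_some_iff]
    constructor
    · rintro ⟨v, hv, h2⟩
      rw [Option.map_eq_some_iff] at h2
      obtain ⟨z, hz, rfl⟩ := h2
      exact ⟨h.1, h.2, v, hv, z, hz, rfl⟩
    · rintro ⟨-, -, v, hv, z, hz, rfl⟩
      exact ⟨v, hv, by rw [Option.map_eq_some_iff]; exact ⟨z, hz, rfl⟩⟩
  · simp only [false_iff]
    rintro ⟨h1, h2, -⟩
    exact h ⟨h1, h2⟩

theorem Machine_unique {U : Mach} (hU : IsUniversal U) {β : Type} [Encodable β]
    {t : ℕ → List Bool → Option (List Bool)}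
    (ht : ∀ p v, v ∈ U p [] ↔ ∃ s, t s p = some v)
    {s s' : List Bool} {x x' : Machine_X} {r r' : ℕ × ℕ × β} (hs : s <+: s')
    (h : Machine_chk β t s x = some r) (h' : Machine_chk β t s' x' = some r') :
    r = r' ∧ s = s' := by
  rw [Machine_chk_eq] at h h'
  obtain ⟨h1, h2, v, hv, z, hz, rfl⟩ := h
  obtain ⟨h1', h2', v', hv', z', hz', rfl⟩ := h'
  have e1 : v ∈ U (s.take x.2.1) [] := (ht _ _).2 ⟨_, hv⟩
  have e2 : v' ∈ U (s'.take x'.2.1) [] := (ht _ _).2 ⟨_, hv'⟩
  have d1 : (U (s.take x.2.1) []).Dom := Part.dom_iff_mem.2 ⟨_, e1⟩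
  have d2 : (U (s'.take x'.2.1) []).Dom := Part.dom_iff_mem.2 ⟨_, e2⟩
  have p1 : s.take x.2.1 <+: s' := (List.take_prefix _ _).trans hs
  have p2 : s'.take x'.2.1 <+: s' := List.take_prefix _ _
  have e3 : s.take x.2.1 = s'.take x'.2.1 := by
    rcases List.prefix_or_prefix_of_prefix p1 p2 with h3 | h3
    · exact hU.prefixFree [] _ _ d1 d2 h3
    · exact (hU.prefixFree [] _ _ d2 d1 h3).symm
  have e4 : s.drop x.2.1 <+: s'.drop x'.2.1 := by
    have h5 : s.take x.2.1 ++ s.drop x.2.1 <+: s.take x.2.1 ++ s'.drop x'.2.1 := by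
      rw [List.take_append_drop]
      conv_rhs => rw [e3, List.take_append_drop]
      exact hs
    exact (List.prefix_append_right_inj _).1 h5
  rw [h2, h2'] at e4
  obtain ⟨f1, f2, f3⟩ := cw_prefix h1 h1' e4
  have e5 : v = v' := by
    rw [e3] at e1
    exact Part.mem_unique e1 e2
  subst e5
  rw [hz, Option.some_inj] at hz'
  subst hz'
  refine ⟨by rw [f1, f3], ?_⟩
  rw [← List.take_append_drop x.2.1 s, ← List.take_append_drop x'.2.1 s', e3, h2, h2', f1, f2, f3]

theorem Machine_chk_primrec {β : Type} [Primcodable β] {t : ℕ → List Bool → Option (List Bool)}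
    (ht : Primrec₂ t) :
    Primrec₂ (Machine_chk β t) := by
  have hX : Primrec fun q : List Bool × Machine_X => q.2 := Primrec.snd
  have h0 : Primrec fun q : List Bool × Machine_X => q.2.1 := Primrec.fst.comp hX
  have h1 : Primrec fun q : List Bool × Machine_X => q.2.2.1 :=
    Primrec.fst.comp (Primrec.snd.comp hX)
  have h2 : Primrec fun q : List Bool × Machine_X => q.2.2.2.1 :=
    Primrec.fst.comp (Primrec.snd.comp (Primrec.snd.comp hX))
  have h3 : Primrec fun q : List Bool × Machine_X => q.2.2.2.2.1 :=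
    Primrec.fst.comp (Primrec.snd.comp (Primrec.snd.comp (Primrec.snd.comp hX)))
  have h4 : Primrec fun q : List Bool × Machine_X => q.2.2.2.2.2 :=
    Primrec.snd.comp (Primrec.snd.comp (Primrec.snd.comp (Primrec.snd.comp hX)))
  have htake : Primrec fun q : List Bool × Machine_X => q.1.take q.2.2.1 :=
    Primrec.list_take.comp h1 Primrec.fst
  have hdrop : Primrec fun q : List Bool × Machine_X => q.1.drop q.2.2.1 :=
    Primrec.list_drop.comp h1 Primrec.fst
  have hc1 : PrimrecPred fun q : List Bool × Machine_X => q.2.2.2.2.2 < 2 ^ q.2.2.2.2.1 :=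
    Primrec.nat_lt.comp h4 (primrec_pow.comp (Primrec.const 2) h3)
  have hcw : Primrec fun q : List Bool × Machine_X => cw q.2.2.2.1 q.2.2.2.2.1 q.2.2.2.2.2 :=
    primrec_cw.comp (h2.pair (h3.pair h4))
  have hc2 : PrimrecPred fun q : List Bool × Machine_X =>
      q.1.drop q.2.2.1 = cw q.2.2.2.1 q.2.2.2.2.1 q.2.2.2.2.2 :=
    Primrec.eq.comp hdrop hcw
  refine Primrec.ite (hc1.and hc2) ?_ (Primrec.const none)
  refine Primrec.option_bind (ht.comp h0 htake) ?_
  have g1 : Primrec fun q : (List Bool × Machine_X) × List Bool =>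
      Encodable.decode (α := β) (val q.2) :=
    Primrec.decode.comp (primrec_val.comp Primrec.snd)
  refine Primrec.option_map g1 ?_
  have g2 : Primrec fun q : ((List Bool × Machine_X) × List Bool) × β => q.1.1.2.2.2.1 :=
    h2.comp (Primrec.fst.comp Primrec.fst)
  have g4 : Primrec fun q : ((List Bool × Machine_X) × List Bool) × β => q.1.1.2.2.2.2.2 :=
    h4.comp (Primrec.fst.comp Primrec.fst)
  exact g2.pair (g4.pair Primrec.snd)

/-- The candidate with a given code. -/
def Machine_srch (β : Type) [Encodable β] (t : ℕ → List Bool → Option (List Bool))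
    (s : List Bool) (n : ℕ) : Option (ℕ × ℕ × β) :=
  (Encodable.decode (α := Machine_X) n).bind fun x => Machine_chk β t s x

theorem Machine_srch_primrec {β : Type} [Primcodable β]
    {t : ℕ → List Bool → Option (List Bool)} (ht : Primrec₂ t) :
    Primrec₂ (Machine_srch β t) := by
  refine Primrec.option_bind (Primrec.decode.comp Primrec.snd) ?_
  exact (Machine_chk_primrec ht).comp (Primrec.fst.comp Primrec.fst) Primrec.snd

/-- The machine. -/
noncomputable def Machine_V {β γ : Type} [Encodable β] [Encodable γ]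
    (t : ℕ → List Bool → Option (List Bool)) (f : ℕ × ℕ × β →. γ) : Mach := fun s _ =>
  (Nat.rfindOpt fun n => Machine_srch β t s n).bind fun x =>
    (f x).map fun y => str (Encodable.encode y)

theorem Machine_V_partrec {β γ : Type} [Primcodable β] [Primcodable γ]
    {t : ℕ → List Bool → Option (List Bool)} (ht : Primrec₂ t) {f : ℕ × ℕ × β →. γ}
    (hf : Partrec f) : Partrec₂ (Machine_V t f) := by
  have h1 : Partrec fun a : List Bool × List Bool =>
      Nat.rfindOpt fun n => Machine_srch β t a.1 n := by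
    refine Partrec.rfindOpt ?_
    exact ((Machine_srch_primrec ht).comp (Primrec.fst.comp Primrec.fst) Primrec.snd).to_comp
  refine h1.bind ?_
  have h2 : Partrec fun q : (List Bool × List Bool) × (ℕ × ℕ × β) => f q.2 :=
    hf.comp Computable.snd
  refine h2.map ?_
  exact (primrec_str.comp (Primrec.encode.comp Primrec.snd)).to_comp

theorem Machine_mem {U : Mach} (hU : IsUniversal U) {β γ : Type} [Encodable β] [Encodable γ]
    {t : ℕ → List Bool → Option (List Bool)}
    (ht : ∀ p v, v ∈ U p [] ↔ ∃ s, t s p = some v) {f : ℕ × ℕ × β →. γ}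
    {s w v : List Bool} :
    v ∈ Machine_V t f s w ↔ ∃ x r, Machine_chk β t s x = some r ∧
      ∃ y ∈ f r, v = str (Encodable.encode y) := by
  unfold Machine_V
  rw [Part.mem_bind_iff]
  constructor
  · rintro ⟨r, hr, h2⟩
    obtain ⟨n, hn⟩ := Nat.rfindOpt_spec hr
    rw [Option.mem_def, Machine_srch, Option.bind_eq_some_iff] at hn
    obtain ⟨x, -, hx⟩ := hn
    rw [Part.mem_map_iff] at h2
    obtain ⟨y, hy, rfl⟩ := h2
    exact ⟨x, r, hx, y, hy, rfl⟩
  · rintro ⟨x, r, hx, y, hy, rfl⟩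
    have hd : (Nat.rfindOpt fun n => Machine_srch β t s n).Dom := by
      rw [Nat.rfindOpt_dom]
      refine ⟨Encodable.encode x, r, ?_⟩
      rw [Option.mem_def, Machine_srch, Encodable.encodek]
      exact hx
    obtain ⟨r', hr'⟩ := Part.dom_iff_mem.1 hd
    obtain ⟨n, hn⟩ := Nat.rfindOpt_spec hr'
    rw [Option.mem_def, Machine_srch, Option.bind_eq_some_iff] at hn
    obtain ⟨x', -, hx'⟩ := hn
    have := (Machine_unique hU ht (List.prefix_refl s) hx hx').1
    subst this
    exact ⟨r, hr', Part.mem_map_iff _ |>.2 ⟨y, hy, rfl⟩⟩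

theorem Machine_free {U : Mach} (hU : IsUniversal U) {β γ : Type} [Encodable β] [Encodable γ]
    {t : ℕ → List Bool → Option (List Bool)}
    (ht : ∀ p v, v ∈ U p [] ↔ ∃ s, t s p = some v) {f : ℕ × ℕ × β →. γ} :
    IsPrefixFree (Machine_V t f) := by
  intro w p q hp hq hpq
  obtain ⟨v, hv⟩ := Part.dom_iff_mem.1 hp
  obtain ⟨v', hv'⟩ := Part.dom_iff_mem.1 hq
  obtain ⟨x, r, hx, -⟩ := (Machine_mem hU ht).1 hv
  obtain ⟨x', r', hx', -⟩ := (Machine_mem hU ht).1 hv'
  exact (Machine_unique hU ht hpq hx hx').2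

/-- **Main machine lemma.** -/
theorem KC_le {U : Mach} (hU : IsUniversal U) {β γ : Type} [Primcodable β] [Primcodable γ]
    {f : ℕ × ℕ × β →. γ} (hf : Partrec f) :
    ∃ c : ℕ, ∀ (par k i : ℕ) (z : β) (y : γ), i < 2 ^ k → y ∈ f (par, i, z) →
      KC U y ≤ KC U z + k + 2 * Nat.size k + 2 * Nat.size par + c := by
  obtain ⟨t, ht1, -, ht3⟩ := exists_stage hU
  obtain ⟨c, hc⟩ := hU.univ (Machine_V t f) (Machine_V_partrec ht1 hf) (Machine_free hU ht3)
  refine ⟨c + 2, fun par k i z y hi hy => ?_⟩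
  obtain ⟨p, hp1, hp2⟩ := exists_prog hU z
  obtain ⟨st, hst⟩ := (ht3 _ _).1 hp2
  have hx : Machine_chk β t (p ++ cw par k i) (st, p.length, par, k, i) = some (par, i, z) := by
    rw [Machine_chk_eq]
    refine ⟨hi, by simp, str (Encodable.encode z), ?_, z, ?_, rfl⟩
    · simpa using hst
    · rw [val_str, Encodable.encodek]
  obtain ⟨p', hp', hv⟩ := hc (p ++ cw par k i) [] (str (Encodable.encode y))
    ((Machine_mem hU ht3).2 ⟨_, _, hx, y, hy, rfl⟩)
  have h1 := KC_le_length y hv
  rw [List.length_append, length_cw, hp1] at hp'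
  omega

/-- Total primitive recursive version. -/
theorem KC_le_prim {U : Mach} (hU : IsUniversal U) {β γ : Type} [Primcodable β] [Primcodable γ]
    {F : ℕ × ℕ × β → γ} (hF : Primrec F) :
    ∃ c : ℕ, ∀ (par k i : ℕ) (z : β), i < 2 ^ k →
      KC U (F (par, i, z)) ≤ KC U z + k + 2 * Nat.size k + 2 * Nat.size par + c := by
  have h1 : Partrec (F : ℕ × ℕ × β →. γ) := hF.to_comp
  obtain ⟨c, hc⟩ := KC_le hU h1
  exact ⟨c, fun par k i z hi => hc par k i z _ hi (Part.mem_some _)⟩

/-- Version without an input. -/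
theorem KC_le_prim₀ {U : Mach} (hU : IsUniversal U) {γ : Type} [Primcodable γ]
    {F : ℕ × ℕ → γ} (hF : Primrec F) :
    ∃ c : ℕ, ∀ (par k i : ℕ), i < 2 ^ k →
      KC U (F (par, i)) ≤ k + 2 * Nat.size k + 2 * Nat.size par + c := by
  have h1 : Primrec fun x : ℕ × ℕ × Unit => F (x.1, x.2.1) :=
    hF.comp (Primrec.fst.pair (Primrec.fst.comp Primrec.snd))
  obtain ⟨c, hc⟩ := KC_le_prim hU h1
  refine ⟨c + KC U (), fun par k i hi => ?_⟩
  have := hc par k i () hi
  simp only at this
  omega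

end Pool.Agent.Helper24.DS
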