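import Pool.Agent.Helper24.DS.Machine
import Pool.Agent.Helper24.DS.IntPrim2
import Pool.Agent.Helper24.DS.Poly
import Pool.Agent.Helper24.DS.Dyad

/-!
# Dimension spectra of polynomial graphs: module Msucc
-/

set_option autoImplicit false

namespace Pool.Agent.Helper24.DS

open Filter Set

/-- the matrix of the substitution `t ↦ t + s` -/
noncomputable def Msucc_A (s : ℤ) {n : ℕ} (i j : Fin n) : ℤ :=
  ((Polynomial.X + Polynomial.C s : Polynomial ℤ) ^ (i : ℕ)).coeff (j : ℕ)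

/-- the polynomial with given coefficients -/
noncomputable def Msucc_P {n : ℕ} (b : Fin n → ℝ) : Polynomial ℝ :=
  ∑ i : Fin n, Polynomial.C (b i) * Polynomial.X ^ (i : ℕ)

theorem Msucc_coeff {n : ℕ} (b : Fin n → ℝ) (j : Fin n) : (Msucc_P b).coeff (j : ℕ) = b j := by
  rw [Msucc_P, Polynomial.finsetSum_coeff, Finset.sum_eq_single j]
  · simp
  · intro i _ hij
    rw [Polynomial.coeff_C_mul_X_pow, if_neg]
    exact fun h => hij (Fin.ext h.symm)
  · simp

theorem Msucc_eval {n : ℕ} (b : Fin n → ℝ) (t : ℝ) : (Msucc_P b).eval t = ev b t := by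
  simp [Msucc_P, ev, Polynomial.eval_finsetSum]

theorem Msucc_lin {n : ℕ} (s : ℤ) (b b' : Fin n → ℝ)
    (h : ∀ t : ℝ, ev b' t = ev b (t + s)) (j : Fin n) :
    b' j = ∑ i : Fin n, (Msucc_A s i j : ℝ) * b i := by
  have h1 : Msucc_P b' = (Msucc_P b).comp (Polynomial.X + Polynomial.C (s : ℝ)) := by
    apply Polynomial.funext
    intro t
    rw [Polynomial.eval_comp, Msucc_eval, Msucc_eval, h]
    simp
  have h3 : (Msucc_P b).comp (Polynomial.X + Polynomial.C (s : ℝ)) =
      ∑ i : Fin n, (Polynomial.C (b i) * Polynomial.X ^ (i : ℕ)).comp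
        (Polynomial.X + Polynomial.C (s : ℝ)) := by
    rw [Msucc_P]
    exact map_sum (Polynomial.compRingHom (Polynomial.X + Polynomial.C (s : ℝ))) _ _
  rw [← Msucc_coeff b' j, h1, h3, Polynomial.finsetSum_coeff]
  apply Finset.sum_congr rfl
  intro i _
  rw [Polynomial.mul_comp, Polynomial.C_comp, Polynomial.X_pow_comp, Polynomial.coeff_C_mul,
    mul_comm]
  congr 1
  have h2 : ((Polynomial.X + Polynomial.C (s : ℝ) : Polynomial ℝ) ^ (i : ℕ)) =
      ((Polynomial.X + Polynomial.C s : Polynomial ℤ) ^ (i : ℕ)).map (Int.castRingHom ℝ) := by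
    simp
  rw [h2, Polynomial.coeff_map]
  rfl

theorem Msucc_sum_primrec {α : Type} [Primcodable α] : ∀ {n : ℕ} {f : Fin n → α → ℤ}
    (_ : ∀ i, Primrec (f i)), Primrec fun x => ∑ i : Fin n, f i x := by
  intro n
  induction n with
  | zero =>
    intro f _
    simpa using Primrec.const (0 : ℤ)
  | succ n ih =>
    intro f hf
    refine (primrec_int_add.comp (hf 0) (ih fun i => hf i.succ)).of_eq fun x => ?_
    rw [Fin.sum_univ_succ]

/-- the decoding function -/
def Msucc_F {n : ℕ} (A : Fin n → Fin n → ℤ) (op : ℕ → ℕ) (δ D : ℕ)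
    (x : ℕ × ℕ × (ℕ × List ℤ)) : ℕ × List ℤ :=
  (op x.2.2.1, List.ofFn fun j : Fin n =>
    (∑ i : Fin n, A i j * x.2.2.2.getD i 0) + ((x.2.1 / (2 ^ δ) ^ (j : ℕ) % 2 ^ δ : ℕ) : ℤ) - D)

theorem Msucc_F_primrec {n : ℕ} (A : Fin n → Fin n → ℤ) {op : ℕ → ℕ} (hop : Primrec op)
    (δ D : ℕ) : Primrec (Msucc_F A op δ D) := by
  have hi : Primrec (fun x : ℕ × ℕ × (ℕ × List ℤ) => x.2.1) := Primrec.fst.comp Primrec.snd
  have hg : Primrec (fun x : ℕ × ℕ × (ℕ × List ℤ) => x.2.2.1) :=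
    Primrec.fst.comp (Primrec.snd.comp Primrec.snd)
  have hv : Primrec (fun x : ℕ × ℕ × (ℕ × List ℤ) => x.2.2.2) :=
    Primrec.snd.comp (Primrec.snd.comp Primrec.snd)
  refine Primrec.pair (hop.comp hg) (Primrec.list_ofFn fun j => ?_)
  refine primrec_int_sub.comp (primrec_int_add.comp (Msucc_sum_primrec fun i => ?_)
    (primrec_int_ofNat.comp (Primrec.nat_mod.comp (Primrec.nat_div.comp hi (Primrec.const _))
      (Primrec.const _)))) (Primrec.const (D : ℤ))
  exact primrec_int_mul.comp (Primrec.const (A i j))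
    ((Primrec.list_getD (0 : ℤ)).comp hv (Primrec.const (i : ℕ)))

theorem Msucc_digit {q g : ℕ} (L : List ℕ) (hL : ∀ v ∈ L, v < q) : ∀ (j : ℕ) (hj : j < L.length),
    Dyad_enc q g L / q ^ j % q = L[j] := by
  induction L with
  | nil => intro j hj; simp at hj
  | cons v L ih =>
    intro j hj
    have h2 : v < q := hL v List.mem_cons_self
    rcases j with _ | j
    · change (v + q * Dyad_enc q g L) / q ^ 0 % q = v
      rw [pow_zero, Nat.div_one, Nat.add_mul_mod_self_left, Nat.mod_eq_of_lt h2]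
    · have hj' : j < L.length := by simpa using hj
      change (v + q * Dyad_enc q g L) / q ^ (j + 1) % q = L[j]
      have h3 : (v + q * Dyad_enc q g L) / q = Dyad_enc q g L := by
        rw [Nat.add_mul_div_left _ _ (by omega), Nat.div_eq_of_lt h2, zero_add]
      rw [pow_succ', ← Nat.div_div_eq_div_mul, h3]
      exact ih (fun w hw => hL w (List.mem_cons_of_mem _ hw)) j hj'

theorem Msucc_gen {U : Mach} (hU : IsUniversal U) {n : ℕ} (A : Fin n → Fin n → ℤ)
    {op : ℕ → ℕ} (hop : Primrec op) :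
    ∃ c : ℕ, ∀ (g : ℕ) (b b' : Fin n → ℝ) (u : ℕ), (∀ j, b' j = ∑ i, (A i j : ℝ) * b i) →
      KC U ((op g, List.ofFn fun j => gp u (b' j)) : ℕ × List ℤ) ≤
        KC U ((g, List.ofFn fun j => gp u (b j)) : ℕ × List ℤ) + c := by
  obtain ⟨S, hS⟩ := exists_nat_ge (∑ j, ∑ i, |(A i j : ℝ)|)
  set D : ℕ := S + 1 with hD
  obtain ⟨δ, hδ⟩ : ∃ δ : ℕ, 2 * D + 1 ≤ 2 ^ δ := ⟨2 * D + 1, Nat.lt_two_pow_self.le⟩
  obtain ⟨c, hc⟩ := KC_le_prim hU (Msucc_F_primrec A hop δ D)
  refine ⟨δ * n + 2 * Nat.size (δ * n) + 2 * Nat.size 0 + c, fun g b b' u hb => ?_⟩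
  have hd : ∀ j, |gp u (b' j) - ∑ i, A i j * gp u (b i)| ≤ (S : ℤ) + 1 := by
    intro j
    have h1 : |2 ^ u * b' j - ((∑ i, A i j * gp u (b i) : ℤ) : ℝ)| ≤ S := by
      have e : 2 ^ u * b' j - ((∑ i, A i j * gp u (b i) : ℤ) : ℝ) =
          ∑ i, (A i j : ℝ) * (2 ^ u * b i - gp u (b i)) := by
        rw [hb, Finset.mul_sum]
        push_cast
        rw [← Finset.sum_sub_distrib]
        exact Finset.sum_congr rfl fun i _ => by ring
      rw [e]
      calc |∑ i, (A i j : ℝ) * (2 ^ u * b i - gp u (b i))|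
          ≤ ∑ i, |(A i j : ℝ) * (2 ^ u * b i - gp u (b i))| := Finset.abs_sum_le_sum_abs _ _
        _ ≤ ∑ i, |(A i j : ℝ)| := by
            apply Finset.sum_le_sum
            intro i _
            rw [abs_mul]
            have h2 := Int.floor_le ((2 : ℝ) ^ u * b i)
            have h3 := Int.lt_floor_add_one ((2 : ℝ) ^ u * b i)
            have h4 : |2 ^ u * b i - (gp u (b i) : ℝ)| ≤ 1 := by
              unfold gp
              rw [abs_le]
              constructor <;> linarith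
            exact mul_le_of_le_one_right (abs_nonneg _) h4
        _ ≤ ∑ j, ∑ i, |(A i j : ℝ)| :=
            Finset.single_le_sum (f := fun j => ∑ i, |(A i j : ℝ)|)
              (fun j _ => Finset.sum_nonneg fun i _ => abs_nonneg _) (Finset.mem_univ j)
        _ ≤ S := hS
    have h2 := aux_floor h1
    rw [Int.floor_intCast] at h2
    exact h2
  set v : Fin n → ℕ := fun j => (gp u (b' j) - ∑ i, A i j * gp u (b i) + D).toNat with hv
  have hvj : ∀ j, (v j : ℤ) = gp u (b' j) - ∑ i, A i j * gp u (b i) + D := by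
    intro j
    apply Int.toNat_of_nonneg
    have := (abs_le.1 (hd j)).1
    rw [hD]; push_cast; omega
  have hvlt : ∀ j, v j < 2 ^ δ := by
    intro j
    have h0 := (abs_le.1 (hd j)).2
    have h1 : (v j : ℤ) ≤ 2 * (D : ℤ) := by rw [hvj, hD]; push_cast; omega
    omega
  have hL : ∀ w ∈ List.ofFn v, w < 2 ^ δ := by
    intro w hw
    obtain ⟨j, rfl⟩ := (List.mem_ofFn' v w).1 hw
    exact hvlt j
  have hlen : (List.ofFn v).length = n := List.length_ofFn
  have hilt : Dyad_enc (2 ^ δ) 0 (List.ofFn v) < 2 ^ (δ * n) := by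
    have h2 := Dyad_enc_lt (g := 0) (b := 1) zero_lt_one _ hL
    rw [hlen, mul_one, ← pow_mul] at h2
    exact h2
  have key := hc 0 (δ * n) _ (g, List.ofFn fun j => gp u (b j)) hilt
  have hF : Msucc_F A op δ D (0, Dyad_enc (2 ^ δ) 0 (List.ofFn v),
      (g, List.ofFn fun j => gp u (b j))) = (op g, List.ofFn fun j => gp u (b' j)) := by
    simp only [Msucc_F]
    congr 2
    funext j
    have h1 := Msucc_digit (g := 0) (List.ofFn v) hL (j : ℕ) (by rw [hlen]; exact j.2)
    rw [h1, List.getElem_ofFn]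
    have h2 : (v ⟨(j : ℕ), j.2⟩ : ℤ) = gp u (b' j) - ∑ i, A i j * gp u (b i) + D := hvj j
    rw [h2]
    have h3 : ∀ i : Fin n, (List.ofFn fun j => gp u (b j)).getD (i : ℕ) 0 = gp u (b i) := by
      intro i
      rw [List.getD_eq_getElem _ _ (by rw [List.length_ofFn]; exact i.2), List.getElem_ofFn]
    simp only [h3]
    ring
  rw [hF] at key
  omega

theorem M_succ {U : Mach} (hU : IsUniversal U) {n : ℕ} (a : Fin n → ℝ) :
    ∃ c : ℕ, ∀ (h g u : ℕ), M U a h (g + 1) u ≤ M U a h g u + c ∧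
      M U a h g u ≤ M U a h (g + 1) u + c := by
  obtain ⟨c₁, h₁⟩ := Msucc_gen hU (Msucc_A (n := n) 1) Primrec.succ
  obtain ⟨c₂, h₂⟩ := Msucc_gen hU (Msucc_A (n := n) (-1)) Primrec.pred
  refine ⟨c₁ + c₂, fun h g u => ⟨?_, ?_⟩⟩
  · have := h₁ g (bc a h g) (bc a h (g + 1)) u (Msucc_lin 1 _ _ fun t => by
      rw [ev_bc, ev_bc]; push_cast; ring_nf)
    change KC U ((g + 1, List.ofFn fun j => gp u (bc a h (g + 1) j)) : ℕ × List ℤ) ≤
      KC U ((g, List.ofFn fun j => gp u (bc a h g j)) : ℕ × List ℤ) + _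
    exact this.trans (by omega)
  · have := h₂ (g + 1) (bc a h (g + 1)) (bc a h g) u (Msucc_lin (-1) _ _ fun t => by
      rw [ev_bc, ev_bc]; push_cast; ring_nf)
    change KC U ((g, List.ofFn fun j => gp u (bc a h g j)) : ℕ × List ℤ) ≤
      KC U ((g + 1, List.ofFn fun j => gp u (bc a h (g + 1) j)) : ℕ × List ℤ) + _
    exact this.trans (by omega)

end Pool.Agent.Helper24.DS
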