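import Pool.Agent.Helper24.DS.Machine
import Pool.Agent.Helper24.DS.IntPrim

/-!
# Dimension spectra of polynomial graphs: module Near
-/

set_option autoImplicit false

namespace Pool.Agent.Helper24.DS

open Filter Set

/-- a polynomial is Lipschitz on the unit interval -/
lemma Near_lip {n : ℕ} (a : Fin n → ℝ) : ∃ D : ℕ, ∀ x y : ℝ, x ∈ Icc (0 : ℝ) 1 →
    y ∈ Icc (0 : ℝ) 1 → |ev a x - ev a y| ≤ D * |x - y| := by
  set S : ℝ := ∑ j : Fin n, |a j| * ((j : ℕ) : ℝ) with hS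
  refine ⟨⌈S⌉₊, fun x y hx hy => ?_⟩
  have hpow : ∀ j : ℕ, |x ^ j - y ^ j| ≤ j * |x - y| := by
    intro j
    induction j with
    | zero => simp
    | succ j ih =>
      have h1 : x ^ (j + 1) - y ^ (j + 1) = x * (x ^ j - y ^ j) + (x - y) * y ^ j := by ring
      have hx1 : |x| ≤ 1 := abs_le.2 ⟨by linarith [hx.1], hx.2⟩
      have hy1 : |y ^ j| ≤ 1 := by
        rw [abs_pow]
        exact pow_le_one₀ (abs_nonneg _) (abs_le.2 ⟨by linarith [hy.1], hy.2⟩)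
      rw [h1]
      refine (abs_add_le _ _).trans ?_
      rw [abs_mul, abs_mul]
      push_cast
      have h2 : |x| * |x ^ j - y ^ j| ≤ 1 * (j * |x - y|) :=
        mul_le_mul hx1 ih (abs_nonneg _) zero_le_one
      have h3 : |x - y| * |y ^ j| ≤ |x - y| * 1 := mul_le_mul_of_nonneg_left hy1 (abs_nonneg _)
      linarith
  unfold ev
  rw [← Finset.sum_sub_distrib]
  refine (Finset.abs_sum_le_sum_abs _ _).trans ?_
  calc ∑ j : Fin n, |a j * x ^ (j : ℕ) - a j * y ^ (j : ℕ)|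
      ≤ ∑ j : Fin n, |a j| * ((j : ℕ) : ℝ) * |x - y| := by
        refine Finset.sum_le_sum fun j _ => ?_
        rw [← mul_sub, abs_mul, mul_assoc]
        exact mul_le_mul_of_nonneg_left (hpow _) (abs_nonneg _)
    _ = S * |x - y| := by rw [← Finset.sum_mul]
    _ ≤ (⌈S⌉₊ : ℝ) * |x - y| := mul_le_mul_of_nonneg_right (Nat.le_ceil S) (abs_nonneg _)

lemma Near_floor {u v : ℝ} {D : ℕ} (h : |u - v| ≤ D) : |⌊u⌋ - ⌊v⌋| ≤ (D : ℤ) := by
  have h' := abs_le.1 h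
  have h1 : ⌊u⌋ ≤ ⌊v⌋ + D := by
    have : ⌊u⌋ ≤ ⌊v + (D : ℕ)⌋ := Int.floor_le_floor (by linarith [h'.2])
    rwa [Int.floor_add_natCast] at this
  have h2 : ⌊v⌋ ≤ ⌊u⌋ + D := by
    have : ⌊v⌋ ≤ ⌊u + (D : ℕ)⌋ := Int.floor_le_floor (by linarith [h'.1])
    rwa [Int.floor_add_natCast] at this
  rw [abs_le]
  constructor <;> linarith

theorem G_near {U : Mach} (hU : IsUniversal U) {n : ℕ} (a : Fin n → ℝ) :
    ∃ c : ℕ, ∀ (r : ℕ) (x y : ℝ), x ∈ Icc (0 : ℝ) 1 → y ∈ Icc (0 : ℝ) 1 →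
      |x - y| ≤ (1 / 2) ^ r → G U a r x ≤ G U a r y + c := by
  obtain ⟨D, hD⟩ := Near_lip a
  have hF : Primrec (fun q : ℕ × ℕ × (ℤ × ℤ) =>
      ((q.2.2.1 + ((q.2.1 % 3 : ℕ) : ℤ) - 1, q.2.2.2 + ((q.2.1 / 3 : ℕ) : ℤ) - (D : ℤ)) : ℤ × ℤ)) := by
    have hi : Primrec (fun q : ℕ × ℕ × (ℤ × ℤ) => q.2.1) := Primrec.fst.comp Primrec.snd
    have h1 : Primrec (fun q : ℕ × ℕ × (ℤ × ℤ) => q.2.2.1) :=
      Primrec.fst.comp (Primrec.snd.comp Primrec.snd)
    have h2 : Primrec (fun q : ℕ × ℕ × (ℤ × ℤ) => q.2.2.2) :=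
      Primrec.snd.comp (Primrec.snd.comp Primrec.snd)
    refine Primrec.pair ?_ ?_
    · exact primrec_int_sub.comp (primrec_int_add.comp h1
        (primrec_int_ofNat.comp (Primrec.nat_mod.comp hi (Primrec.const 3)))) (Primrec.const 1)
    · exact primrec_int_sub.comp (primrec_int_add.comp h2
        (primrec_int_ofNat.comp (Primrec.nat_div.comp hi (Primrec.const 3)))) (Primrec.const _)
  obtain ⟨c, hc⟩ := KC_le_prim hU hF
  set k : ℕ := 3 * (2 * D + 1) with hk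
  refine ⟨k + 2 * Nat.size k + 2 * Nat.size 0 + c, ?_⟩
  intro r x y hx hy hxy
  have hp : (0 : ℝ) < 2 ^ r := by positivity
  have hr1 : (2 : ℝ) ^ r * (1 / 2) ^ r = 1 := by
    rw [← mul_pow]; norm_num
  have e1 : |gp r x - gp r y| ≤ ((1 : ℕ) : ℤ) := by
    refine Near_floor ?_
    rw [← mul_sub, abs_mul, abs_of_pos hp]
    calc (2 : ℝ) ^ r * |x - y| ≤ 2 ^ r * (1 / 2) ^ r := mul_le_mul_of_nonneg_left hxy hp.le
      _ = 1 := hr1
      _ ≤ ((1 : ℕ) : ℝ) := by simp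
  have e2 : |gp r (ev a x) - gp r (ev a y)| ≤ (D : ℤ) := by
    refine Near_floor ?_
    rw [← mul_sub, abs_mul, abs_of_pos hp]
    calc (2 : ℝ) ^ r * |ev a x - ev a y| ≤ 2 ^ r * (D * |x - y|) :=
          mul_le_mul_of_nonneg_left (hD x y hx hy) hp.le
      _ ≤ 2 ^ r * (D * (1 / 2) ^ r) :=
          mul_le_mul_of_nonneg_left (mul_le_mul_of_nonneg_left hxy (Nat.cast_nonneg D)) hp.le
      _ = D * (2 ^ r * (1 / 2) ^ r) := by ring
      _ = D := by rw [hr1, mul_one]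
  rw [abs_le] at e1 e2
  push_cast at e1
  -- the index
  set i1 : ℕ := (gp r x - gp r y + 1).toNat with hi1
  set i2 : ℕ := (gp r (ev a x) - gp r (ev a y) + D).toNat with hi2
  have hi1' : i1 < 3 := by omega
  have hi2' : i2 < 2 * D + 1 := by omega
  have hmod : (i1 + 3 * i2) % 3 = i1 := by omega
  have hdiv : (i1 + 3 * i2) / 3 = i2 := by omega
  have hlt : i1 + 3 * i2 < 2 ^ k := by
    have h1 : i1 + 3 * i2 < k := by omega
    exact h1.trans Nat.lt_two_pow_self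
  have h := hc 0 k (i1 + 3 * i2) (gp r y, gp r (ev a y)) hlt
  simp only [hmod, hdiv] at h
  have hx' : gp r y + (i1 : ℤ) - 1 = gp r x := by omega
  have hy' : gp r (ev a y) + (i2 : ℤ) - (D : ℤ) = gp r (ev a x) := by omega
  rw [hx', hy'] at h
  unfold G
  omega

end Pool.Agent.Helper24.DS
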