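import Pool.Agent.Helper24.DS.PrimValid

/-!
# Dimension spectra of polynomial graphs: module PrimPP
-/

set_option autoImplicit false

namespace Pool.Agent.Helper24.DS

open Filter Set

section PrimPPAux

variable {α β : Type} [Primcodable α] [Primcodable β]

private theorem PrimPP_forall_lt {n : α → ℕ} {R : ℕ → α → Prop} (hn : Primrec n)
    (hR : PrimrecRel R) : PrimrecPred fun x => ∀ u < n x, R u x :=
  (hR.forall_mem_list.comp (Primrec.list_range.comp hn) Primrec.id).of_eq (by simp)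

private theorem PrimPP_exists_opt {o : α → Option β} {R : β → α → Prop} (ho : Primrec o)
    (hR : PrimrecRel R) : PrimrecPred fun x => ∃ b ∈ o x, R b x :=
  (hR.exists_mem_list.comp (Primrec.optionToList.comp ho) Primrec.id).of_eq (by simp)

private theorem PrimPP_mem {l : α → List β} {f : α → β} (hl : Primrec l) (hf : Primrec f) :
    PrimrecPred fun x => f x ∈ l x := by
  have h1 : PrimrecRel fun (b : β) (x : α) => b = f x :=
    Primrec.eq.comp Primrec.fst (hf.comp Primrec.snd)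
  refine (h1.exists_mem_list.comp hl Primrec.id).of_eq fun x => ?_
  constructor
  · rintro ⟨b, hb, rfl⟩
    exact hb
  · intro h
    exact ⟨_, h, rfl⟩

end PrimPPAux

section PrimPPWl

variable {e : ℕ → ℕ → Option ℕ}

private theorem primrec_ep (he : Primrec₂ e) : Primrec₂ (ep e) :=
  Primrec.option_bind he (Primrec.decode.comp Primrec.snd).to₂

private theorem primrecRel_isNew (he : Primrec₂ e) : PrimrecRel (IsNew e) := by
  have h1 : PrimrecPred fun p : ℕ × ℕ => (ep e p.1 p.2).isSome = true :=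
    Primrec.eq.comp (Primrec.option_isSome.comp (primrec_ep he)) (Primrec.const true)
  have h2 : PrimrecRel fun (t : ℕ) (p : ℕ × ℕ) => ep e p.1 t ≠ ep e p.1 p.2 := by
    have h3 : PrimrecPred fun y : ℕ × (ℕ × ℕ) => ep e y.2.1 y.1 = ep e y.2.1 y.2.2 :=
      Primrec.eq.comp
        ((primrec_ep he).comp (Primrec.fst.comp Primrec.snd) Primrec.fst)
        ((primrec_ep he).comp (Primrec.fst.comp Primrec.snd) (Primrec.snd.comp Primrec.snd))
    exact h3.not
  exact h1.and (PrimPP_forall_lt Primrec.snd h2)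

/-- the parameters of `wl` -/
private abbrev WX : Type := ℕ × ℕ × ℕ × ℕ × ℕ

private theorem primrecPred_col (he : Primrec₂ e) :
    PrimrecPred fun y : WX × ℕ => IsNew e y.1.1 y.2 ∧
      ∃ z ∈ ep e y.1.1 y.2, z.1 / (2 : ℤ) ^ (y.1.2.1 - y.1.2.2.1) = (y.1.2.2.2.1 : ℤ) := by
  have hw : Primrec fun y : WX × ℕ => y.1.1 := Primrec.fst.comp Primrec.fst
  have ht : Primrec fun y : WX × ℕ => y.2 := Primrec.snd
  have hr : Primrec fun y : WX × ℕ => y.1.2.1 := Primrec.fst.comp (Primrec.snd.comp Primrec.fst)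
  have hh : Primrec fun y : WX × ℕ => y.1.2.2.1 :=
    Primrec.fst.comp (Primrec.snd.comp (Primrec.snd.comp Primrec.fst))
  have hg : Primrec fun y : WX × ℕ => y.1.2.2.2.1 :=
    Primrec.fst.comp (Primrec.snd.comp (Primrec.snd.comp (Primrec.snd.comp Primrec.fst)))
  have h1 : PrimrecPred fun y : WX × ℕ => IsNew e y.1.1 y.2 :=
    (primrecRel_isNew he).comp hw ht
  have h2 : PrimrecRel fun (z : ℤ × ℤ) (y : WX × ℕ) =>
      z.1 / (2 : ℤ) ^ (y.1.2.1 - y.1.2.2.1) = (y.1.2.2.2.1 : ℤ) := by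
    have hp : Primrec fun q : (ℤ × ℤ) × (WX × ℕ) => 2 ^ (q.2.1.2.1 - q.2.1.2.2.1) :=
      primrec_pow.comp (Primrec.const 2)
        (Primrec.nat_sub.comp (hr.comp Primrec.snd) (hh.comp Primrec.snd))
    have hd : Primrec fun q : (ℤ × ℤ) × (WX × ℕ) =>
        q.1.1 / ((2 ^ (q.2.1.2.1 - q.2.1.2.2.1) : ℕ) : ℤ) :=
      primrec_int_ediv_nat.comp (Primrec.fst.comp Primrec.fst) hp
    have hg' : Primrec fun q : (ℤ × ℤ) × (WX × ℕ) => ((q.2.1.2.2.2.1 : ℕ) : ℤ) :=
      primrec_int_ofNat.comp (hg.comp Primrec.snd)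
    have h3 : PrimrecPred fun q : (ℤ × ℤ) × (WX × ℕ) =>
        q.1.1 / ((2 ^ (q.2.1.2.1 - q.2.1.2.2.1) : ℕ) : ℤ) = ((q.2.1.2.2.2.1 : ℕ) : ℤ) :=
      Primrec.eq.comp hd hg'
    refine h3.of_eq fun q => ?_
    rw [Nat.cast_pow, Nat.cast_ofNat]
  have h4 : Primrec fun y : WX × ℕ => ep e y.1.1 y.2 := (primrec_ep he).comp hw ht
  exact h1.and (PrimPP_exists_opt h4 h2)

end PrimPPWl

theorem primrec_wl {e : ℕ → ℕ → Option ℕ} (he : Primrec₂ e) :
    Primrec (fun x : ℕ × ℕ × ℕ × ℕ × ℕ => wl e x.1 x.2.1 x.2.2.1 x.2.2.2.1 x.2.2.2.2) := by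
  have hs : Primrec fun x : WX => List.range x.2.2.2.2 :=
    Primrec.list_range.comp
      (Primrec.snd.comp (Primrec.snd.comp (Primrec.snd.comp Primrec.snd)))
  have hf : Primrec₂ fun (x : WX) (t : ℕ) =>
      if IsNew e x.1 t ∧ ∃ z ∈ ep e x.1 t, z.1 / (2 : ℤ) ^ (x.2.1 - x.2.2.1) = (x.2.2.2.1 : ℤ)
        then ep e x.1 t else none := by
    refine Primrec.ite (primrecPred_col he) ?_ (Primrec.const none)
    exact (primrec_ep he).comp (Primrec.fst.comp Primrec.fst) Primrec.snd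
  exact Primrec.listFilterMap hs hf

private theorem primrec_block : Primrec fun x : List (ℤ × ℤ) × ℕ × ℕ => block x.1 x.2.1 x.2.2 := by
  have hm : Primrec fun x : List (ℤ × ℤ) × ℕ × ℕ => x.2.1 := Primrec.fst.comp Primrec.snd
  have hk : Primrec fun x : List (ℤ × ℤ) × ℕ × ℕ => 2 ^ x.2.2 :=
    primrec_pow.comp (Primrec.const 2) (Primrec.snd.comp Primrec.snd)
  have hd : Primrec fun x : List (ℤ × ℤ) × ℕ × ℕ => x.1.drop ((x.2.1 - 1) * 2 ^ x.2.2) :=
    Primrec.list_drop.comp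
      (Primrec.nat_mul.comp (Primrec.nat_sub.comp hm (Primrec.const 1)) hk) Primrec.fst
  exact Primrec.list_take.comp hk hd

/-- the parameters of `PP` -/
private abbrev PPX : Type :=
  (ℕ × ℕ × ℕ × ℕ × ℕ × ℕ) × (ℕ × List ℤ) × (ℕ × ℕ × List (ℕ × List ℤ))

private theorem primrec_wlX {e : ℕ → ℕ → Option ℕ} (he : Primrec₂ e) :
    Primrec fun x : PPX => wl e x.1.2.2.1 x.1.2.1 x.1.1 x.2.1.1 x.2.2.1 := by
  have hp : Primrec fun x : PPX => ((x.1.2.2.1, x.1.2.1, x.1.1, x.2.1.1, x.2.2.1) : WX) := by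
    refine Primrec.pair ?_ (Primrec.pair ?_ (Primrec.pair ?_ (Primrec.pair ?_ ?_)))
    · exact Primrec.fst.comp (Primrec.snd.comp (Primrec.snd.comp Primrec.fst))
    · exact Primrec.fst.comp (Primrec.snd.comp Primrec.fst)
    · exact Primrec.fst.comp Primrec.fst
    · exact Primrec.fst.comp (Primrec.fst.comp Primrec.snd)
    · exact Primrec.fst.comp (Primrec.snd.comp Primrec.snd)
  have h := (primrec_wl he).comp hp
  exact h

private theorem primrec_blockX {e : ℕ → ℕ → Option ℕ} (he : Primrec₂ e) :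
    Primrec fun x : PPX =>
      block (wl e x.1.2.2.1 x.1.2.1 x.1.1 x.2.1.1 x.2.2.1) x.2.2.2.1 x.1.2.2.2.2.1 := by
  have hp : Primrec fun x : PPX => ((wl e x.1.2.2.1 x.1.2.1 x.1.1 x.2.1.1 x.2.2.1,
      x.2.2.2.1, x.1.2.2.2.2.1) : List (ℤ × ℤ) × ℕ × ℕ) := by
    refine Primrec.pair (primrec_wlX he) (Primrec.pair ?_ ?_)
    · exact Primrec.fst.comp (Primrec.snd.comp (Primrec.snd.comp Primrec.snd))
    · exact Primrec.fst.comp (Primrec.snd.comp (Primrec.snd.comp (Primrec.snd.comp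
        (Primrec.snd.comp Primrec.fst))))
  have h := primrec_block.comp hp
  exact h

private theorem primrecPred_leastX {e : ℕ → ℕ → Option ℕ} (he : Primrec₂ e)
    (n B C D E N : ℕ) : PrimrecPred fun x : PPX => LeastValid n B C D E N x.1.1 x.1.2.1 x.2.1.1
      (block (wl e x.1.2.2.1 x.1.2.1 x.1.1 x.2.1.1 x.2.2.1) x.2.2.2.1 x.1.2.2.2.2.1)
      x.2.2.2.2 := by
  have hp : Primrec fun x : PPX => (((x.1.1, x.1.2.1, x.2.1.1),
      block (wl e x.1.2.2.1 x.1.2.1 x.1.1 x.2.1.1 x.2.2.1) x.2.2.2.1 x.1.2.2.2.2.1,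
      x.2.2.2.2) : (ℕ × ℕ × ℕ) × List (ℤ × ℤ) × List (ℕ × List ℤ)) := by
    refine Primrec.pair (Primrec.pair ?_ (Primrec.pair ?_ ?_))
      (Primrec.pair (primrec_blockX he) ?_)
    · exact Primrec.fst.comp Primrec.fst
    · exact Primrec.fst.comp (Primrec.snd.comp Primrec.fst)
    · exact Primrec.fst.comp (Primrec.fst.comp Primrec.snd)
    · exact Primrec.snd.comp (Primrec.snd.comp (Primrec.snd.comp Primrec.snd))
  have h := (primrecPred_leastValid n B C D E N).comp hp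
  exact h

theorem primrecPred_PP {e : ℕ → ℕ → Option ℕ} (he : Primrec₂ e) (n B C D E N : ℕ) :
    PrimrecPred (PP e n B C D E N) := by
  have hh : Primrec fun x : PPX => x.1.1 := Primrec.fst.comp Primrec.fst
  have hr : Primrec fun x : PPX => x.1.2.1 :=
    Primrec.fst.comp (Primrec.snd.comp Primrec.fst)
  have hw : Primrec fun x : PPX => x.1.2.2.1 :=
    Primrec.fst.comp (Primrec.snd.comp (Primrec.snd.comp Primrec.fst))
  have hv : Primrec fun x : PPX => x.1.2.2.2.1 :=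
    Primrec.fst.comp (Primrec.snd.comp (Primrec.snd.comp (Primrec.snd.comp Primrec.fst)))
  have hk : Primrec fun x : PPX => x.1.2.2.2.2.1 :=
    Primrec.fst.comp (Primrec.snd.comp (Primrec.snd.comp (Primrec.snd.comp
      (Primrec.snd.comp Primrec.fst))))
  have hu : Primrec fun x : PPX => x.1.2.2.2.2.2 :=
    Primrec.snd.comp (Primrec.snd.comp (Primrec.snd.comp (Primrec.snd.comp
      (Primrec.snd.comp Primrec.fst))))
  have hg : Primrec fun x : PPX => x.2.1.1 :=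
    Primrec.fst.comp (Primrec.fst.comp Primrec.snd)
  have hvec : Primrec fun x : PPX => x.2.1.2 :=
    Primrec.snd.comp (Primrec.fst.comp Primrec.snd)
  have hs : Primrec fun x : PPX => x.2.2.1 :=
    Primrec.fst.comp (Primrec.snd.comp Primrec.snd)
  have hm : Primrec fun x : PPX => x.2.2.2.1 :=
    Primrec.fst.comp (Primrec.snd.comp (Primrec.snd.comp Primrec.snd))
  have hQ : Primrec fun x : PPX => x.2.2.2.2 :=
    Primrec.snd.comp (Primrec.snd.comp (Primrec.snd.comp Primrec.snd))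
  have hwl := primrec_wlX he
  have hlen := Primrec.list_length.comp hwl
  have h2k : Primrec fun x : PPX => x.2.2.2.1 * 2 ^ x.1.2.2.2.2.1 :=
    Primrec.nat_mul.comp hm (primrec_pow.comp (Primrec.const 2) hk)
  have p1 : PrimrecPred fun x : PPX =>
      2 ^ x.1.2.2.2.1 ≤ (wl e x.1.2.2.1 x.1.2.1 x.1.1 x.2.1.1 x.2.2.1).length :=
    Primrec.nat_le.comp (primrec_pow.comp (Primrec.const 2) hv) hlen
  have p2 : PrimrecPred fun x : PPX => 1 ≤ x.2.2.2.1 :=
    Primrec.nat_le.comp (Primrec.const 1) hm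
  have p3 : PrimrecPred fun x : PPX =>
      x.2.2.2.1 * 2 ^ x.1.2.2.2.2.1 < 2 ^ (x.1.2.2.2.1 + 1) :=
    Primrec.nat_lt.comp h2k (primrec_pow.comp (Primrec.const 2) (Primrec.succ.comp hv))
  have p4 : PrimrecPred fun x : PPX => x.2.2.2.1 * 2 ^ x.1.2.2.2.2.1 ≤
      (wl e x.1.2.2.1 x.1.2.1 x.1.1 x.2.1.1 x.2.2.1).length :=
    Primrec.nat_le.comp h2k hlen
  have p5 := primrecPred_leastX he n B C D E N
  have p6 : PrimrecPred fun x : PPX => (x.1.2.2.2.2.2, x.2.1.2) ∈ x.2.2.2.2 :=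
    PrimPP_mem hQ (hu.pair hvec)
  refine (p1.and (p2.and (p3.and (p4.and (p5.and p6))))).of_eq fun x => ?_
  obtain ⟨⟨h, r, w, v, k, u⟩, ⟨g, vec⟩, ⟨s, m, Q⟩⟩ := x
  exact Iff.rfl

end Pool.Agent.Helper24.DS
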