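import Pool.Agent.Helper24.DS.Poly

/-!
# Dimension spectra of polynomial graphs: module ValidEx
-/

set_option autoImplicit false

namespace Pool.Agent.Helper24.DS

open Filter Set

theorem exists_valid {n B : ℕ} (hn : 1 ≤ n) (hK : KEYG n B) (D E : ℕ) (hE : 0 < E) :
    ∃ N C : ℕ, 0 < N ∧ ∀ (h r g : ℕ) (L : List (ℤ × ℤ)), h ≤ r →
      ∃ Q, Valid n B C D E N h r g L Q := by
  classical
  obtain ⟨N, C0, hN, hKEY⟩ := hK E hE
  refine ⟨N, C0 * (2 * D + 1), hN, ?_⟩
  intro h r g L _
  set φ : (ℤ × ℤ) × ℕ × ℕ → ℤ × ℤ := fun x =>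
    ((x.1.1 - ((g * 2 ^ (r - h) : ℕ) : ℤ)) * 2 ^ h + (x.2.2 : ℤ), x.1.2 - (x.2.1 : ℤ) + (D : ℤ))
    with hφ
  set L' : Finset (ℤ × ℤ) :=
    (L.toFinset ×ˢ (Finset.range (2 * D + 1) ×ˢ Finset.range (2 ^ h))).image φ with hL'
  have hL'card : L'.card ≤ L.length * ((2 * D + 1) * 2 ^ h) := by
    refine Finset.card_image_le.trans ?_
    rw [Finset.card_product, Finset.card_product, Finset.card_range, Finset.card_range]
    exact Nat.mul_le_mul_right _ (List.toFinset_card_le L)
  obtain ⟨Qf, hQ1, hQ2⟩ := hKEY r L'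
  set QF : Finset (ℕ × List ℤ) := (Finset.range (r + 1)).biUnion fun u =>
    (Qf u).image fun v => (u, List.ofFn v) with hQF
  refine ⟨QF.toList, ?_, ?_⟩
  · intro u hu
    have h1 : (QF.toList.filter fun q => decide (q.1 = u)).length ≤ (Qf u).card := by
      have h2 : (QF.toList.filter fun q => decide (q.1 = u)).length =
          (QF.filter fun q => q.1 = u).card := by
        have h3 : (QF.toList.filter fun q => decide (q.1 = u)).Nodup :=
          (Finset.nodup_toList QF).filter _
        rw [← List.toFinset_card_of_nodup h3]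
        congr 1
        ext q
        simp
      rw [h2]
      have h4 : (QF.filter fun q => q.1 = u) ⊆ (Qf u).image fun v => (u, List.ofFn v) := by
        intro q hq
        rw [Finset.mem_filter, hQF, Finset.mem_biUnion] at hq
        obtain ⟨⟨u', -, hu'⟩, hqu⟩ := hq
        obtain ⟨v, hv, hvq⟩ := Finset.mem_image.1 hu'
        have : u' = u := by rw [← hqu, ← hvq]
        rw [← this]
        exact Finset.mem_image.2 ⟨v, hv, hvq⟩
      exact (Finset.card_le_card h4).trans Finset.card_image_le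
    calc (QF.toList.filter fun q => decide (q.1 = u)).length * 4 ^ r ≤ (Qf u).card * 4 ^ r :=
          Nat.mul_le_mul_right _ h1
      _ ≤ C0 * 2 ^ (u + r / E) * L'.card := hQ1 u (Nat.lt_succ_iff.1 hu)
      _ ≤ C0 * 2 ^ (u + r / E) * (L.length * ((2 * D + 1) * 2 ^ h)) :=
          Nat.mul_le_mul_left _ hL'card
      _ = C0 * (2 * D + 1) * 2 ^ (u + r / E + h) * L.length := by
          rw [pow_add 2 (u + r / E) h]; ring
  · intro β hβ hhit
    rw [mem_boxL] at hβ
    obtain ⟨hlen, hbd⟩ := hβ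
    set βf : Fin n → ℤ := fun j => β.get (j.cast hlen.symm) with hβf
    have hof : List.ofFn βf = β := by
      apply List.ext_getElem
      · rw [List.length_ofFn, hlen]
      · intro i h1 h2
        rw [List.getElem_ofFn]
        rfl
    have hβb : ∀ j, |βf j| ≤ (B : ℤ) * 2 ^ r := by
      intro j
      have := hbd (βf j) (List.get_mem _ _)
      push_cast at this
      exact this
    have hcard : 2 ^ (r - r / N) ≤ ((Finset.range (2 ^ r)).filter fun i : ℕ =>
          ((i : ℤ), ⌊∑ j, (βf j : ℝ) * ((i : ℝ) / 2 ^ r) ^ (j : ℕ)⌋) ∈ L').card := by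
      refine hhit.trans ?_
      unfold hit
      have h1 : ((List.range (2 ^ r)).filter fun i =>
          decide (∃ d < 2 * D + 1, ((((g * 2 ^ (r - h) + i / 2 ^ h : ℕ) : ℤ),
            fl r β i + (d : ℤ) - (D : ℤ)) : ℤ × ℤ) ∈ L)).Nodup := List.nodup_range.filter _
      rw [← List.toFinset_card_of_nodup h1]
      apply Finset.card_le_card
      intro i hi
      rw [List.mem_toFinset, List.mem_filter, List.mem_range, decide_eq_true_iff] at hi
      obtain ⟨hi1, d, hd, hiL⟩ := hi
      rw [Finset.mem_filter, Finset.mem_range]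
      refine ⟨hi1, ?_⟩
      rw [hL', Finset.mem_image]
      refine ⟨((((g * 2 ^ (r - h) + i / 2 ^ h : ℕ) : ℤ), fl r β i + (d : ℤ) - (D : ℤ)),
        d, i % 2 ^ h), ?_, ?_⟩
      · rw [Finset.mem_product, Finset.mem_product, List.mem_toFinset, Finset.mem_range,
          Finset.mem_range]
        exact ⟨hiL, hd, Nat.mod_lt _ (by positivity)⟩
      · rw [hφ]
        apply Prod.ext
        · simp only
          have h2 : (((g * 2 ^ (r - h) + i / 2 ^ h : ℕ) : ℤ) - ((g * 2 ^ (r - h) : ℕ) : ℤ)) =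
              ((i / 2 ^ h : ℕ) : ℤ) := by push_cast; ring
          rw [h2]
          have h3 := Nat.div_add_mod i (2 ^ h)
          have h4 : ((2 ^ h * (i / 2 ^ h) + i % 2 ^ h : ℕ) : ℤ) = (i : ℤ) := by rw [h3]
          rw [← h4]
          push_cast
          ring
        · simp only
          rw [← fl_ofFn hn βf r i, hof]
          ring
    obtain ⟨u, hu, huQ⟩ := hQ2 βf hβb hcard
    refine ⟨u, Nat.lt_succ_of_le hu, ?_⟩
    rw [Finset.mem_toList, hQF, Finset.mem_biUnion]
    refine ⟨u, Finset.mem_range.2 (Nat.lt_succ_of_le hu), ?_⟩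
    rw [Finset.mem_image]
    refine ⟨_, huQ, ?_⟩
    rw [← hof, List.map_ofFn]
    rfl

end Pool.Agent.Helper24.DS
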