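import Pool.Agent.Helper24.DS.Enum
import Pool.Agent.Helper24.DS.PrimPP
import Pool.Agent.Helper24.DS.CardPP
import Pool.Agent.Helper24.DS.HitGe
import Pool.Agent.Helper24.DS.Block
import Pool.Agent.Helper24.DS.ValidEx
import Pool.Agent.Helper24.DS.Dyad

/-!
# Dimension spectra of polynomial graphs: module RTmain
-/

set_option autoImplicit false

namespace Pool.Agent.Helper24.DS

open Filter Set

/-- parameters -/
abbrev RTmainA : Type := ℕ × ℕ × ℕ × ℕ × ℕ × ℕ

/-- witnesses -/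
abbrev RTmainW : Type := ℕ × ℕ × List (ℕ × List ℤ)

/-- decoding the parameters and the witness -/
theorem RTmain_prim {Q : RTmainA × (ℕ × List ℤ) × RTmainW → Prop} (hQ : PrimrecPred Q) :
    PrimrecPred (fun x : ℕ × (ℕ × List ℤ) × ℕ =>
      ∃ a ∈ (Encodable.decode x.1 : Option RTmainA),
        ∃ b ∈ (Encodable.decode x.2.2 : Option RTmainW), Q (a, x.2.1, b)) := by
  obtain ⟨hd, hp⟩ := hQ
  have h1 : Primrec (fun x : ℕ × (ℕ × List ℤ) × ℕ =>
      (Encodable.decode x.1 : Option RTmainA).bind fun a =>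
        (Encodable.decode x.2.2 : Option RTmainW).map fun b => decide (Q (a, x.2.1, b))) := by
    refine Primrec.option_bind (Primrec.decode.comp Primrec.fst) ?_
    refine Primrec₂.mk ?_
    refine Primrec.option_map
      (Primrec.decode.comp (Primrec.snd.comp (Primrec.snd.comp Primrec.fst))) ?_
    refine Primrec₂.mk ?_
    exact hp.comp (Primrec.pair (Primrec.snd.comp Primrec.fst)
      (Primrec.pair (Primrec.fst.comp (Primrec.snd.comp (Primrec.fst.comp Primrec.fst)))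
        Primrec.snd))
  have h2 : PrimrecPred (fun x : ℕ × (ℕ × List ℤ) × ℕ =>
      ((Encodable.decode x.1 : Option RTmainA).bind fun a =>
        (Encodable.decode x.2.2 : Option RTmainW).map fun b => decide (Q (a, x.2.1, b))) =
          some true) := PrimrecRel.comp Primrec.eq h1 (Primrec.const (some true))
  refine PrimrecPred.of_eq h2 fun x => ?_
  constructor
  · intro h
    obtain ⟨a, ha, h⟩ := Option.bind_eq_some_iff.1 h
    obtain ⟨b, hb, h⟩ := Option.map_eq_some_iff.1 h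
    exact ⟨a, ha, b, hb, of_decide_eq_true h⟩
  · rintro ⟨a, ha, b, hb, h⟩
    refine Option.bind_eq_some_iff.2 ⟨a, ha, Option.map_eq_some_iff.2 ⟨b, hb, ?_⟩⟩
    exact decide_eq_true h

theorem RTmain_size_mul (a b : ℕ) : Nat.size (a * b) ≤ Nat.size a + Nat.size b := by
  rw [Nat.size_le, pow_add]
  exact Nat.mul_lt_mul'' (Nat.lt_size_self a) (Nat.lt_size_self b)

/-- the size of the code of the parameters -/
theorem RTmain_size_enc {t : ℕ} (h r w v k u : ℕ) (hh : Nat.size h ≤ t) (hr : Nat.size r ≤ t)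
    (hw : Nat.size w ≤ t) (hv : Nat.size v ≤ t) (hk : Nat.size k ≤ t) (hu : Nat.size u ≤ t) :
    Nat.size (Encodable.encode ((h, r, w, v, k, u) : RTmainA)) ≤ 32 * t := by
  have e1 : Encodable.encode ((h, r, w, v, k, u) : RTmainA) =
      Nat.pair h (Nat.pair r (Nat.pair w (Nat.pair v (Nat.pair k u)))) := rfl
  rw [e1]
  have h1 := size_pair_le k u
  have h2 := size_pair_le v (Nat.pair k u)
  have h3 := size_pair_le w (Nat.pair v (Nat.pair k u))
  have h4 := size_pair_le r (Nat.pair w (Nat.pair v (Nat.pair k u)))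
  have h5 := size_pair_le h (Nat.pair r (Nat.pair w (Nat.pair v (Nat.pair k u))))
  omega

/-- the integer part of a grid point -/
theorem RTmain_gp (r q : ℕ) : gp r (((q : ℕ) : ℝ) / 2 ^ r) = (q : ℤ) := by
  unfold gp
  rw [mul_div_cancel₀ _ (by positivity : (2 : ℝ) ^ r ≠ 0)]
  exact Int.floor_natCast q

/-- a numerical inequality -/
theorem RTmain_hit {r N1 Bd X hh H : ℕ} (hN : 0 < N1)
    (hr : N1 * 2 * (2 * (Nat.size r + 1)) ≤ r)
    (h1 : 2 ^ r ≤ Bd * 2 ^ (hh + r / (N1 * 2))) (h2 : Bd * 2 ^ hh ≤ X * H) (h3 : X ≤ 2 * r + 2) :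
    2 ^ (r - r / N1) ≤ H := by
  set q := r / (N1 * 2) with hq
  have hq1 : 2 * (Nat.size r + 1) ≤ q := by
    rw [hq, Nat.le_div_iff_mul_le (by positivity)]
    calc 2 * (Nat.size r + 1) * (N1 * 2) = N1 * 2 * (2 * (Nat.size r + 1)) := by ring
      _ ≤ r := hr
  have hq2 : q * 2 ≤ r / N1 := by
    rw [hq, ← Nat.div_div_eq_div_mul]
    exact Nat.div_mul_le_self _ _
  have h4 : 2 * r + 2 ≤ 2 ^ q := by
    have h5 : r < 2 ^ Nat.size r := Nat.lt_size_self r
    calc 2 * r + 2 ≤ 2 * 2 ^ Nat.size r := by omega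
      _ = 2 ^ (Nat.size r + 1) := by rw [pow_succ]; ring
      _ ≤ 2 ^ q := Nat.pow_le_pow_right (by norm_num) (by omega)
  have h5 : 2 ^ r ≤ 2 ^ (2 * q) * H := by
    calc 2 ^ r ≤ Bd * 2 ^ (hh + q) := h1
      _ = Bd * 2 ^ hh * 2 ^ q := by rw [pow_add]; ring
      _ ≤ X * H * 2 ^ q := Nat.mul_le_mul_right _ h2
      _ ≤ 2 ^ q * H * 2 ^ q := by
          apply Nat.mul_le_mul_right
          apply Nat.mul_le_mul_right
          omega
      _ = 2 ^ (2 * q) * H := by rw [two_mul, pow_add]; ring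
  have h6 : 2 ^ (2 * q) * 2 ^ (r - 2 * q) = 2 ^ r := by
    rw [← pow_add]
    congr 1
    have : r / N1 ≤ r := Nat.div_le_self _ _
    omega
  rw [← h6] at h5
  have h7 : 2 ^ (r - 2 * q) ≤ H := Nat.le_of_mul_le_mul_left h5 (by positivity)
  exact (Nat.pow_le_pow_right (by norm_num) (by omega)).trans h7

/-- the final numerical inequality -/
theorem RTmain_fin {E r w u h c lc M κ T par : ℕ} (hE : 0 < E)
    (hT : T = lc + (w + u + h + r / (4 * E) + 2)) (hκ : κ + 2 * r = T)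
    (hM : M ≤ κ + 2 * Nat.size κ + 2 * Nat.size par + c) (hw : w < 2 * r) (hu : u ≤ r) (hh : h ≤ r)
    (hpar : Nat.size par ≤ 32 * (Nat.size r + 2))
    (hr : 2 * E * ((2 * Nat.size (lc + 7) + 200 + c + lc) * (Nat.size r + 1)) ≤ r) :
    E * (M + 2 * r) ≤ E * (w + u + h) + r := by
  have hr1 : 1 ≤ r := by omega
  have h1 : κ ≤ (lc + 7) * r := by
    have h2 : r / (4 * E) ≤ r := Nat.div_le_self _ _
    have h3 : κ ≤ lc + 2 + 3 * r := by omega
    nlinarith
  have h2 : Nat.size κ ≤ Nat.size (lc + 7) + Nat.size r :=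
    (Nat.size_le_size h1).trans (RTmain_size_mul _ _)
  set S := Nat.size r with hS
  set Z := Nat.size (lc + 7) with hZ
  have h3 : M + 2 * r ≤ (w + u + h) + r / (4 * E) + (2 * Z + 200 + c + lc) * (S + 1) := by
    have h4 : M + 2 * r ≤ T + 2 * (Z + S) + 2 * (32 * (S + 2)) + c := by omega
    have h5 : lc + 2 + 2 * (Z + S) + 2 * (32 * (S + 2)) + c ≤
        (2 * Z + 200 + c + lc) * (S + 1) := by nlinarith
    omega
  have h4 : E * (r / (4 * E)) * 4 ≤ r := by
    calc E * (r / (4 * E)) * 4 = (r / (4 * E)) * (4 * E) := by ring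
      _ ≤ r := Nat.div_mul_le_self _ _
  have h5 : E * (M + 2 * r) ≤ E * ((w + u + h) + r / (4 * E) +
      (2 * Z + 200 + c + lc) * (S + 1)) := Nat.mul_le_mul_left _ h3
  have h6 : E * ((w + u + h) + r / (4 * E) + (2 * Z + 200 + c + lc) * (S + 1)) =
      E * (w + u + h) + E * (r / (4 * E)) + E * ((2 * Z + 200 + c + lc) * (S + 1)) := by ring
  rw [h6] at h5
  have h7 : 2 * (E * ((2 * Z + 200 + c + lc) * (S + 1))) ≤ r := by
    rw [← mul_assoc]
    exact hr
  omega

theorem RT {U : Mach} (hU : IsUniversal U) {n : ℕ} (hn : 1 ≤ n) (hK : ∀ B, KEYG n B)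
    (a : Fin n → ℝ) :
    ∀ E : ℕ, 0 < E → ∃ N C : ℕ, 0 < N ∧ ∀ h r g w : ℕ, h ≤ r → g < 2 ^ h →
      2 ^ r ≤ ((Finset.range (2 ^ (r - h))).filter fun p : ℕ =>
        G U a r (((g * 2 ^ (r - h) + p : ℕ) : ℝ) / 2 ^ r) ≤ w).card * 2 ^ (h + r / N) →
      ∃ u ≤ r, E * (M U a h g u + 2 * r) ≤ E * (w + u + h) + r + C := by
  classical
  intro E hE
  obtain ⟨D, hD⟩ := hit_ge hn a
  obtain ⟨B, hB⟩ := bc_bound a
  obtain ⟨N1, C1, hN1, hvalid⟩ := exists_valid hn (hK B) D (4 * E) (by positivity)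
  obtain ⟨c0, hc0⟩ := M_le hU a
  obtain ⟨e, heprim, he⟩ := exists_enum hU
  obtain ⟨c, hc⟩ := KC_le_of_enum hU (β := ℕ × List ℤ)
    (RTmain_prim (primrecPred_PP heprim n B C1 D (4 * E) N1))
  set lc := Nat.size C1 with hlc
  obtain ⟨R1, hR1⟩ := size_small (2 * Nat.size (lc + 7) + 200 + c + lc) (2 * E)
  obtain ⟨R2, hR2⟩ := size_small 2 (N1 * 2)
  obtain ⟨R3, hR3⟩ := size_small c0 E
  set R := R1 + R2 + R3 with hR
  refine ⟨N1 * 2, E * (R + c0 * (Nat.size R + 1) + 2 * R), by positivity, ?_⟩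
  intro h r g w hhr hg hcount
  have hM0 := hc0 h g 0 hg.le
  have hM0' : M U a h g 0 ≤ h + c0 * (Nat.size h + 1) := by simpa using hM0
  by_cases hrR : r < R
  · refine ⟨0, Nat.zero_le _, ?_⟩
    have h1 : Nat.size h ≤ Nat.size R := Nat.size_le_size (by omega)
    have h2 : c0 * (Nat.size h + 1) ≤ c0 * (Nat.size R + 1) := by gcongr
    have h3 : E * (M U a h g 0 + 2 * r) ≤ E * (R + c0 * (Nat.size R + 1) + 2 * R) := by
      apply Nat.mul_le_mul_left
      omega
    omega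
  have hrR' : R ≤ r := not_lt.1 hrR
  by_cases hw : 2 * r ≤ w
  · refine ⟨0, Nat.zero_le _, ?_⟩
    have h1 : Nat.size h ≤ Nat.size r := Nat.size_le_size hhr
    have h2 : E * (c0 * (Nat.size h + 1)) ≤ r :=
      le_trans (by gcongr) (hR3 r (by omega))
    have h3 : E * (M U a h g 0 + 2 * r) ≤ E * (h + c0 * (Nat.size h + 1) + w) := by
      apply Nat.mul_le_mul_left
      omega
    have h4 : E * (h + c0 * (Nat.size h + 1) + w) =
        E * (w + 0 + h) + E * (c0 * (Nat.size h + 1)) := by ring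
    omega
  have hw' : w < 2 * r := not_le.1 hw
  -- the main case
  set x : ℕ → ℝ := fun p => ((g * 2 ^ (r - h) + p : ℕ) : ℝ) / 2 ^ r with hx
  set F := (Finset.range (2 ^ (r - h))).filter fun p : ℕ =>
    G U a r (((g * 2 ^ (r - h) + p : ℕ) : ℝ) / 2 ^ r) ≤ w with hF
  set zz : ℕ → ℤ × ℤ := fun p => (((g * 2 ^ (r - h) + p : ℕ) : ℤ), gp r (ev a (x p))) with hzz
  have hzKC : ∀ p, KC U (zz p) = G U a r (x p) := by
    intro p
    unfold G
    rw [hx]
    simp only
    rw [RTmain_gp]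
  have hzinj : Function.Injective zz := by
    intro p p' hpp
    have := congrArg Prod.fst hpp
    simp only [hzz] at this
    omega
  set S : Finset (ℤ × ℤ) := F.image zz with hSdef
  have hScard : S.card = F.card := Finset.card_image_of_injective _ hzinj
  have hFpos : 0 < F.card := by
    rcases Nat.eq_zero_or_pos F.card with h0 | h0
    · rw [h0, zero_mul] at hcount
      have : 0 < 2 ^ r := by positivity
      omega
    · exact h0
  have hSne : S.Nonempty := by
    rw [← Finset.card_pos, hScard]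
    exact hFpos
  have hSKC : ∀ z ∈ S, KC U z ≤ w := by
    intro z hz
    obtain ⟨p, hp, rfl⟩ := Finset.mem_image.1 hz
    rw [hzKC]
    exact (Finset.mem_filter.1 hp).2
  have hScol : ∀ z ∈ S, z.1 / (2 : ℤ) ^ (r - h) = (g : ℤ) := by
    intro z hz
    obtain ⟨p, hp, rfl⟩ := Finset.mem_image.1 hz
    have hp1 := Finset.mem_range.1 (Finset.mem_filter.1 hp).1
    have h1 : ((g * 2 ^ (r - h) + p : ℕ) : ℤ) / (2 : ℤ) ^ (r - h) =
        (((g * 2 ^ (r - h) + p) / 2 ^ (r - h) : ℕ) : ℤ) := by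
      push_cast
      rfl
    have h2 : (g * 2 ^ (r - h) + p) / 2 ^ (r - h) = g := by
      rw [mul_comm, Nat.mul_add_div (by positivity), Nat.div_eq_of_lt hp1, add_zero]
    show ((g * 2 ^ (r - h) + p : ℕ) : ℤ) / (2 : ℤ) ^ (r - h) = (g : ℤ)
    rw [h1, h2]
  -- a common stage
  have hstage : ∀ z ∈ S, ∃ t, ep e w t = some z := by
    intro z hz
    exact (ep_eq_some_iff he w z).2 (hSKC z hz)
  choose! tt htt using hstage
  obtain ⟨s, hs⟩ : ∃ s, ∀ z ∈ S, tt z < s := by
    refine ⟨S.sup tt + 1, fun z hz => ?_⟩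
    have := Finset.le_sup (f := tt) hz
    omega
  set l := wl e w r h g s with hl
  have hSl : ∀ z ∈ S, z ∈ l := by
    intro z hz
    rw [hl, mem_wl]
    exact ⟨⟨tt z, hs z hz, htt z hz⟩, hScol z hz⟩
  have hlne : l.length ≠ 0 := by
    obtain ⟨z, hz⟩ := hSne
    intro h0
    have := hSl z hz
    rw [List.length_eq_zero_iff.1 h0] at this
    simp at this
  set v := Nat.log 2 l.length with hv
  have hv1 : 2 ^ v ≤ l.length := Nat.pow_log_le_self 2 hlne
  have hv2 : l.length < 2 ^ (v + 1) := Nat.lt_pow_succ_log_self (by norm_num) _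
  have hlen : l.length ≤ 2 ^ (w + 1) := by
    have h1 : (l.toFinset : Set (ℤ × ℤ)) ⊆ {z : ℤ × ℤ | KC U z ≤ w} := by
      intro z hz
      have hz' : z ∈ l := by simpa using hz
      rw [hl, mem_wl] at hz'
      obtain ⟨⟨t, -, ht⟩, -⟩ := hz'
      exact (ep_eq_some_iff he w z).1 ⟨t, ht⟩
    have h2 := (Set.encard_le_encard h1).trans (card_KC_le hU w)
    rw [Set.encard_coe_eq_coe_finsetCard, List.toFinset_card_of_nodup (wl_nodup _ _ _ _ _ _)] at h2
    exact_mod_cast h2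
  have hvw : v ≤ w + 1 := by
    have h1 : 2 ^ v ≤ 2 ^ (w + 1) := hv1.trans hlen
    exact (Nat.pow_le_pow_iff_right (by norm_num)).1 h1
  obtain ⟨m, k, hm1, hkv, hmk, hblock⟩ := exists_block (wl_nodup e w r h g s) hv2 S hSne hSl
  set L := block l m k with hL
  -- many points of the block
  have hBd : (S.filter fun z => z ∈ L).card ≤
      ((Finset.range (2 ^ (r - h))).filter fun p : ℕ =>
        (((g * 2 ^ (r - h) + p : ℕ) : ℤ),
          gp r (ev a (((g * 2 ^ (r - h) + p : ℕ) : ℝ) / 2 ^ r))) ∈ L).card := by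
    have h1 : (S.filter fun z => z ∈ L) ⊆
        (((Finset.range (2 ^ (r - h))).filter fun p : ℕ =>
        (((g * 2 ^ (r - h) + p : ℕ) : ℤ),
          gp r (ev a (((g * 2 ^ (r - h) + p : ℕ) : ℝ) / 2 ^ r))) ∈ L).image zz) := by
      intro z hz
      rw [Finset.mem_filter] at hz
      obtain ⟨p, hp, rfl⟩ := Finset.mem_image.1 hz.1
      refine Finset.mem_image.2 ⟨p, ?_, rfl⟩
      rw [Finset.mem_filter]
      exact ⟨(Finset.mem_filter.1 hp).1, hz.2⟩
    exact (Finset.card_le_card h1).trans Finset.card_image_le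
  have hhit := hD h r g L hhr hg
  set β : List ℤ := List.ofFn fun j => gp r (bc a h g j) with hβ
  have hH : 2 ^ (r - r / N1) ≤ hit D h r g L β := by
    refine RTmain_hit (Bd := F.card) (X := v + 1) (hh := h) hN1 (hR2 r (by omega)) hcount ?_
      (by omega)
    calc F.card * 2 ^ h = S.card * 2 ^ h := by rw [hScard]
      _ ≤ (S.filter fun z => z ∈ L).card * (v + 1) * 2 ^ h := Nat.mul_le_mul_right _ hblock
      _ = (v + 1) * ((S.filter fun z => z ∈ L).card * 2 ^ h) := by ring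
      _ ≤ (v + 1) * hit D h r g L β := by
          apply Nat.mul_le_mul_left
          exact (Nat.mul_le_mul_right _ hBd).trans hhit
  obtain ⟨Q, hQ⟩ := exists_leastValid (hvalid h r g L hhr)
  have hβbox : β ∈ boxL n (B * 2 ^ r) := by
    rw [mem_boxL]
    refine ⟨by rw [hβ, List.length_ofFn], ?_⟩
    intro b hb
    rw [hβ, List.mem_ofFn] at hb
    obtain ⟨j, rfl⟩ := hb
    have := hB h r g j hg
    exact_mod_cast this
  obtain ⟨u, hu, huQ⟩ := hQ.1.2 β hβbox hH
  have hur : u ≤ r := Nat.lt_succ_iff.1 hu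
  have hvec : (β.map fun b => b / (2 : ℤ) ^ (r - u)) =
      List.ofFn fun j => gp u (bc a h g j) := by
    rw [hβ, List.map_ofFn]
    congr 1
    funext j
    exact gp_div r u hur _
  rw [hvec] at huQ
  set vec := List.ofFn fun j => gp u (bc a h g j) with hvecdef
  have hPP : PP e n B C1 D (4 * E) N1 ((h, r, w, v, k, u), (g, vec), (s, m, Q)) :=
    ⟨hv1, hm1, lt_of_le_of_lt hmk hv2, hmk, hQ, huQ⟩
  set par := Encodable.encode ((h, r, w, v, k, u) : RTmainA) with hpar
  have hset : {y : ℕ × List ℤ | ∃ s' : ℕ, ∃ a' ∈ (Encodable.decode par : Option RTmainA),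
      ∃ b ∈ (Encodable.decode s' : Option RTmainW),
        PP e n B C1 D (4 * E) N1 (a', y, b)} =
      {y : ℕ × List ℤ | ∃ x, PP e n B C1 D (4 * E) N1 ((h, r, w, v, k, u), y, x)} := by
    ext y
    constructor
    · rintro ⟨s', a', ha', b, -, hP⟩
      rw [hpar, Encodable.encodek] at ha'
      have : (h, r, w, v, k, u) = a' := Option.some_injective _ ha'
      rw [← this] at hP
      exact ⟨b, hP⟩
    · rintro ⟨b, hP⟩
      refine ⟨Encodable.encode b, (h, r, w, v, k, u), ?_, b, ?_, hP⟩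
      · rw [hpar, Encodable.encodek]
        rfl
      · rw [Encodable.encodek]
        rfl
  have hcard := card_PP hU he n B C1 D (4 * E) N1 h r w v k u hur
  set T := lc + (w + u + h + r / (4 * E) + 2) with hT
  have hcard2 : {y : ℕ × List ℤ | ∃ x, PP e n B C1 D (4 * E) N1
      ((h, r, w, v, k, u), y, x)}.encard * 4 ^ r ≤ 2 ^ T := by
    refine hcard.trans ?_
    have h1 : C1 ≤ 2 ^ lc := (Nat.lt_size_self C1).le
    have h2 : C1 * 2 ^ (w + u + h + r / (4 * E) + 2) ≤ 2 ^ T := by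
      rw [hT, pow_add 2 lc]
      exact Nat.mul_le_mul_right _ h1
    exact_mod_cast h2
  have hne : (g, vec) ∈ {y : ℕ × List ℤ | ∃ x, PP e n B C1 D (4 * E) N1
      ((h, r, w, v, k, u), y, x)} := ⟨_, hPP⟩
  have h4r : (4 : ℕ∞) ^ r = 2 ^ (2 * r) := by
    rw [pow_mul]
    norm_num
  have hTr : 2 * r ≤ T := by
    have h1 : (1 : ℕ∞) ≤ {y : ℕ × List ℤ | ∃ x, PP e n B C1 D (4 * E) N1
        ((h, r, w, v, k, u), y, x)}.encard := by
      rw [Set.one_le_encard_iff_nonempty]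
      exact ⟨_, hne⟩
    have h2 : (2 : ℕ∞) ^ (2 * r) ≤ 2 ^ T := by
      calc (2 : ℕ∞) ^ (2 * r) = 1 * 4 ^ r := by rw [h4r, one_mul]
        _ ≤ _ := mul_le_mul_left h1 _
        _ ≤ 2 ^ T := hcard2
    have h3 : 2 ^ (2 * r) ≤ 2 ^ T := by exact_mod_cast h2
    exact (Nat.pow_le_pow_iff_right (by norm_num)).1 h3
  obtain ⟨κ, hκ⟩ : ∃ κ, κ + 2 * r = T := ⟨T - 2 * r, by omega⟩
  have hcard3 : {y : ℕ × List ℤ | ∃ x, PP e n B C1 D (4 * E) N1
      ((h, r, w, v, k, u), y, x)}.encard ≤ 2 ^ κ := by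
    rw [h4r, ← hκ, pow_add] at hcard2
    by_contra hcon
    rw [not_le] at hcon
    have h1 : (2 : ℕ∞) ^ κ + 1 ≤ {y : ℕ × List ℤ | ∃ x, PP e n B C1 D (4 * E) N1
      ((h, r, w, v, k, u), y, x)}.encard := Order.add_one_le_of_lt hcon
    have h2 : ((2 : ℕ∞) ^ κ + 1) * 2 ^ (2 * r) ≤ 2 ^ κ * 2 ^ (2 * r) :=
      (mul_le_mul_left h1 _).trans hcard2
    have h3 : (2 ^ κ + 1) * 2 ^ (2 * r) ≤ 2 ^ κ * 2 ^ (2 * r) := by exact_mod_cast h2
    have h4 : 0 < 2 ^ (2 * r) := by positivity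
    have h5 := Nat.le_of_mul_le_mul_right h3 h4
    omega
  have hKC := hc par κ (g, vec) ?_ ?_
  · refine ⟨u, hur, ?_⟩
    have hMdef : M U a h g u = KC U ((g, vec) : ℕ × List ℤ) := rfl
    have hpars : Nat.size par ≤ 32 * (Nat.size r + 2) := by
      have hsr : ∀ y : ℕ, y ≤ 2 * r + 1 → Nat.size y ≤ Nat.size r + 2 := by
        intro y hy
        rw [Nat.size_le]
        have h1 := Nat.lt_size_self r
        calc y ≤ 2 * r + 1 := hy
          _ < 4 * 2 ^ Nat.size r := by omega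
          _ = 2 ^ (Nat.size r + 2) := by rw [pow_add]; ring
      exact RTmain_size_enc h r w v k u (hsr _ (by omega)) (hsr _ (by omega)) (hsr _ (by omega))
        (hsr _ (by omega)) (hsr _ (by omega)) (hsr _ (by omega))
    have hfin := RTmain_fin (E := E) (r := r) (w := w) (u := u) (h := h) (c := c) (lc := lc)
      (M := M U a h g u) (κ := κ) (T := T) (par := par) hE hT hκ (by rw [hMdef]; exact hKC) hw'
      hur hhr hpars (hR1 r (by omega))
    omega
  · refine ⟨Encodable.encode ((s, m, Q) : RTmainW), (h, r, w, v, k, u), ?_, (s, m, Q), ?_, hPP⟩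
    · rw [hpar, Encodable.encodek]
      rfl
    · rw [Encodable.encodek]
      rfl
  · rw [hset]
    exact hcard3

end Pool.Agent.Helper24.DS
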