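import Pool.Agent.Helper24.DS.Machine
import Pool.Agent.Helper24.DS.IntPrim2

/-!
# Dimension spectra of polynomial graphs: module Rat1
-/

set_option autoImplicit false

namespace Pool.Agent.Helper24.DS

open Filter Set

/-- numerator and denominator of `z / 2 ^ par` for all entries `z` of a list -/
def Rat1_F : ℕ × ℕ × List ℤ → List (ℤ × ℕ) := fun x =>
  x.2.2.map fun z => ((mkRat z (2 ^ x.1)).num, (mkRat z (2 ^ x.1)).den)

theorem Rat1_pow2 : Primrec (fun n : ℕ => 2 ^ n) := by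
  have h : Primrec₂ (fun _ : ℕ => fun p : ℕ × ℕ => 2 * p.2) :=
    (Primrec.nat_mul.comp (Primrec.const 2) (Primrec.snd.comp Primrec.snd)).to₂
  have h2 := Primrec.nat_rec' (f := fun n : ℕ => n) (g := fun _ : ℕ => (1 : ℕ)) Primrec.id
    (Primrec.const 1) h
  refine h2.of_eq fun n => ?_
  induction n with
  | zero => rfl
  | succ n ih => rw [pow_succ, ← ih]; simp [mul_comm]

theorem Rat1_primrec : Primrec Rat1_F := by
  refine Primrec.list_map (Primrec.snd.comp Primrec.snd) ?_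
  have h1 : Primrec fun y : (ℕ × ℕ × List ℤ) × ℤ => ((y.2, 2 ^ y.1.1) : ℤ × ℕ) :=
    Primrec.snd.pair (Rat1_pow2.comp (Primrec.fst.comp Primrec.fst))
  exact (primrec_mkRat.comp h1).to₂

theorem Rat1_dist (r : ℕ) (x : ℝ) :
    ((((mkRat (gp r x) (2 ^ r) : ℚ)) : ℝ) - x) ^ 2 ≤ ((1 / 2 : ℝ) ^ r) ^ 2 := by
  have h2 : (0 : ℝ) < 2 ^ r := by positivity
  have e : (((mkRat (gp r x) (2 ^ r) : ℚ)) : ℝ) = (gp r x : ℝ) / 2 ^ r := by
    rw [Rat.mkRat_eq_div]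
    push_cast
    rfl
  have h3 : (gp r x : ℝ) ≤ 2 ^ r * x := Int.floor_le _
  have h4 : 2 ^ r * x < (gp r x : ℝ) + 1 := Int.lt_floor_add_one _
  have h5 : (1 / 2 : ℝ) ^ r = 1 / 2 ^ r := by rw [one_div_pow]
  rw [e, h5]
  have h6 : (gp r x : ℝ) / 2 ^ r - x ≤ 0 := by
    rw [sub_nonpos, div_le_iff₀ h2]; linarith
  have h7 : -(1 / 2 ^ r) ≤ (gp r x : ℝ) / 2 ^ r - x := by
    rw [neg_le_sub_iff_le_add, ← add_div, le_div_iff₀ h2]; linarith
  nlinarith [div_pos one_pos h2]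

theorem Kr_le_KC {U : Mach} (hU : IsUniversal U) (m : ℕ) :
    ∃ c : ℕ, ∀ (x : Fin m → ℝ) (r : ℕ), c ≤ r →
      Kr U x (r - c) ≤ KC U (List.ofFn fun i => gp r (x i)) + c * (Nat.size r + 1) := by
  obtain ⟨c0, hc0⟩ := KC_le_prim hU Rat1_primrec
  refine ⟨m + c0 + 2, fun x r hr => ?_⟩
  set c := m + c0 + 2 with hc
  have h1 := hc0 r 0 0 (List.ofFn fun i => gp r (x i)) (by norm_num)
  set q : Fin m → ℚ := fun i => mkRat (gp r (x i)) (2 ^ r) with hq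
  have h2 : Rat1_F (r, 0, List.ofFn fun i => gp r (x i)) =
      List.ofFn fun i => ((q i).num, (q i).den) := by
    simp only [Rat1_F, List.map_ofFn]
    rfl
  have h3 : KC U (Rat1_F (r, 0, List.ofFn fun i => gp r (x i))) = K U (ratCode q) := by
    rw [h2]; rfl
  have h4 : Kr U x (r - c) ≤ K U (ratCode q) := by
    refine Nat.sInf_le ⟨q, ?_, rfl⟩
    rw [Real.sqrt_lt' (by positivity)]
    have h5 : ∑ i, ((q i : ℝ) - x i) ^ 2 ≤ m * ((1 / 2 : ℝ) ^ r) ^ 2 := by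
      calc ∑ i, ((q i : ℝ) - x i) ^ 2 ≤ ∑ _i : Fin m, ((1 / 2 : ℝ) ^ r) ^ 2 :=
            Finset.sum_le_sum fun i _ => Rat1_dist r (x i)
        _ = m * ((1 / 2 : ℝ) ^ r) ^ 2 := by
            rw [Finset.sum_const, Finset.card_univ, Fintype.card_fin, nsmul_eq_mul]
    have h6 : (1 / 2 : ℝ) ^ (r - c) = 2 ^ c * (1 / 2 : ℝ) ^ r := by
      have : (1 / 2 : ℝ) ^ r = (1 / 2 : ℝ) ^ (r - c) * (1 / 2 : ℝ) ^ c := by
        rw [← pow_add]; congr 1; omega
      rw [this, mul_comm ((1 / 2 : ℝ) ^ (r - c)), ← mul_assoc, ← mul_pow]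
      norm_num
    rw [h6, mul_pow]
    refine lt_of_le_of_lt h5 ?_
    have h7 : (m : ℝ) < (2 ^ c) ^ 2 := by
      have h8 : (m : ℝ) < 2 ^ m := by exact_mod_cast Nat.lt_two_pow_self
      have h9 : (2 : ℝ) ^ m ≤ 2 ^ c := pow_le_pow_right₀ (by norm_num) (by omega)
      have h10 : (1 : ℝ) ≤ 2 ^ c := one_le_pow₀ (by norm_num)
      nlinarith
    exact mul_lt_mul_of_pos_right h7 (by positivity)
  rw [← h3] at h4
  refine h4.trans (h1.trans ?_)
  rw [Nat.size_zero]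
  have h11 : 2 * Nat.size r + c0 ≤ c * (Nat.size r + 1) := by
    rw [hc]; nlinarith
  omega

end Pool.Agent.Helper24.DS
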