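import Pool.Agent.Helper24.DS.GoodTail

/-!
# Dimension spectra of polynomial graphs: module Step
-/

set_option autoImplicit false

namespace Pool.Agent.Helper24.DS

open Filter Set

section Assembly

variable {G : ℕ → ℝ → ℕ} {M : ℕ → ℕ → ℕ → ℕ} {c : ℕ}

/-- discrete intermediate value principle -/
theorem Step_discrete (P : ℕ → Prop) {a b : ℕ} (hab : a ≤ b) (ha : P a) (hb : ¬ P b) :
    ∃ γ, a ≤ γ ∧ γ + 1 ≤ b ∧ P γ ∧ ¬ P (γ + 1) := by
  induction b, hab using Nat.le_induction with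
  | base => exact absurd ha hb
  | succ b hab ih =>
    by_cases h : P b
    · exact ⟨b, hab, le_rfl, h, hb⟩
    · obtain ⟨γ, h1, h2, h3, h4⟩ := ih h
      exact ⟨γ, h1, by omega, h3, h4⟩

/-- the threshold: the error terms are at most `r / (8 E)` -/
theorem Step_thr (c E : ℕ) (hE0 : 0 < E) : ∃ R : ℕ, 0 < R ∧ ∀ r : ℕ, R ≤ r →
    (c : ℝ) * (Nat.size r + 1) ≤ r / (8 * E) ∧ (c : ℝ) ≤ r / (8 * E) ∧ (1 : ℝ) ≤ r / (8 * E) := by
  obtain ⟨R, hR⟩ := size_small (c + 1) (8 * E)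
  refine ⟨R + 1, by omega, fun r hr => ?_⟩
  have h1 := hR r (by omega)
  have h2 : ((8 * E : ℕ) : ℝ) * (((c : ℝ) + 1) * ((Nat.size r : ℝ) + 1)) ≤ r := by
    exact_mod_cast h1
  have hE : (0 : ℝ) < 8 * E := by positivity
  have h3 : ((c : ℝ) + 1) * ((Nat.size r : ℝ) + 1) ≤ r / (8 * E) := by
    rw [le_div_iff₀ hE]
    push_cast at h2
    linarith
  have hs : (0 : ℝ) ≤ (Nat.size r : ℝ) := by positivity
  have hc : (0 : ℝ) ≤ (c : ℝ) := by positivity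
  refine ⟨le_trans ?_ h3, le_trans ?_ h3, le_trans ?_ h3⟩ <;> nlinarith [mul_nonneg hc hs]

theorem step_good (hS : Sys G M c) {s s' : ℝ} (hs0 : 0 ≤ s) (hs1 : s ≤ 1) (hs0' : 0 < s')
    (hs1' : s' < 1) (E : ℕ) (hE : 8 / (E : ℝ) < 1 - s') (hE0 : 0 < E) :
    ∃ h₀ : ℕ, ∀ h g : ℕ, h₀ ≤ h → g < 2 ^ h → Good G M s h g → ∀ H₁ : ℕ,
      ∃ H γ : ℕ, H₁ ≤ H ∧ h ≤ H ∧ γ < 2 ^ H ∧ Iv H γ ⊆ Iv h g ∧ Good G M s' H γ ∧
        (∀ x ∈ Iv H γ, ∀ r : ℕ, h ≤ r → r ≤ H → (1 + min s s' - 4 / (E : ℝ)) * r ≤ G r x) ∧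
        ∃ r : ℕ, H₁ ≤ r ∧ ∀ x ∈ Iv H γ, (G r x : ℝ) ≤ (1 + s' + 1 / (E : ℝ)) * r := by
  obtain ⟨h₁, hex⟩ := exists_good hS E hE0
  obtain ⟨R₁, hR₁0, hthr⟩ := Step_thr c E hE0
  have hEpos : (0 : ℝ) < E := by exact_mod_cast hE0
  refine ⟨max h₁ R₁, fun h g hh hg hGood H₁ => ?_⟩
  obtain ⟨R₀, hR₀⟩ := hex h g (le_trans (le_max_left _ _) hh) hg
  -- choice of `H`
  obtain ⟨H₂, hH₂⟩ := exists_nat_gt (((R₀ + h + H₁ + R₁ : ℕ) : ℝ) / s')
  set H : ℕ := H₂ + R₀ + h + H₁ + R₁ with hH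
  have hHbig : ((R₀ + h + H₁ + R₁ : ℕ) : ℝ) ≤ s' * H := by
    have h1 : ((R₀ + h + H₁ + R₁ : ℕ) : ℝ) < H₂ * s' := by
      rwa [div_lt_iff₀ hs0'] at hH₂
    have h2 : (H₂ : ℝ) ≤ H := by
      have : H₂ ≤ H := by omega
      exact_mod_cast this
    have h3 : s' * (H₂ : ℝ) ≤ s' * H := mul_le_mul_of_nonneg_left h2 hs0'.le
    linarith
  set m : ℕ := ⌈s' * (H : ℝ)⌉₊ with hm
  have hm1 : s' * (H : ℝ) ≤ m := Nat.le_ceil _
  have hm2 : (m : ℝ) < s' * H + 1 := Nat.ceil_lt_add_one (by positivity)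
  have hmH : m ≤ H := by
    apply Nat.ceil_le.2
    have : (0 : ℝ) ≤ H := by positivity
    have h1 : s' * (H : ℝ) ≤ 1 * H := mul_le_mul_of_nonneg_right hs1'.le this
    linarith
  have hmbig : R₀ + h + H₁ + R₁ ≤ m := by
    have : ((R₀ + h + H₁ + R₁ : ℕ) : ℝ) ≤ m := le_trans hHbig hm1
    exact_mod_cast this
  obtain ⟨xb, hxb, hxa, hxc⟩ := hR₀ m (by omega)
  -- basic facts on xb
  have hh2 : (0 : ℝ) < 2 ^ h := by positivity
  have hg1 : ((g : ℝ) + 1) / 2 ^ h ≤ 1 := by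
    rw [div_le_one hh2]
    have : g + 1 ≤ 2 ^ h := hg
    exact_mod_cast this
  have hxb0 : 0 ≤ xb := le_trans (by positivity) hxb.1
  have hxb1 : xb < 1 := lt_of_lt_of_le hxb.2 hg1
  have hm2p : (0 : ℝ) < 2 ^ m := by positivity
  have hH2p : (0 : ℝ) < 2 ^ H := by positivity
  set ρ : ℕ := ⌊(2 : ℝ) ^ m * xb⌋₊ with hρ
  set gb : ℕ := ⌊(2 : ℝ) ^ H * xb⌋₊ with hgb
  set ga : ℕ := ρ * 2 ^ (H - m) with hga
  have hρ1 : (ρ : ℝ) ≤ 2 ^ m * xb := Nat.floor_le (by positivity)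
  have hρ2 : 2 ^ m * xb < (ρ : ℝ) + 1 := Nat.lt_floor_add_one _
  have hgb1 : (gb : ℝ) ≤ 2 ^ H * xb := Nat.floor_le (by positivity)
  have hgb2 : 2 ^ H * xb < (gb : ℝ) + 1 := Nat.lt_floor_add_one _
  have hpow : (2 : ℝ) ^ H = 2 ^ m * 2 ^ (H - m) := by
    rw [← pow_add]; congr 1; omega
  have hgaR : (ga : ℝ) / 2 ^ H = (ρ : ℝ) / 2 ^ m := by
    rw [hga, hpow]; push_cast
    field_simp
  have hgab : ga ≤ gb := by
    apply Nat.le_floor
    rw [hga, hpow]; push_cast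
    have : (0 : ℝ) < 2 ^ (H - m) := by positivity
    have h1 := mul_le_mul_of_nonneg_right hρ1 this.le
    linarith
  have hgbH : gb < 2 ^ H := by
    have : (gb : ℝ) < 2 ^ H := by
      have h1 := mul_lt_mul_of_pos_left hxb1 hH2p
      linarith
    exact_mod_cast this
  have hρm : ρ ≤ 2 ^ m := by
    have : (ρ : ℝ) ≤ 2 ^ m := by
      have h1 := mul_lt_mul_of_pos_left hxb1 hm2p
      linarith
    exact_mod_cast this
  -- distances
  have hdist : ∀ r : ℕ, r ≤ H → ∀ x y : ℝ, |x - y| ≤ (1 / 2) ^ H → |x - y| ≤ (1 / 2) ^ r := by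
    intro r hr x y hxy
    refine le_trans hxy ?_
    exact pow_le_pow_of_le_one (by norm_num) (by norm_num) hr
  have hhalf : ∀ k : ℕ, ((1 : ℝ) / 2) ^ k = 1 / 2 ^ k := by
    intro k; rw [div_pow, one_pow]
  have hgbxb : |xb - (gb : ℝ) / 2 ^ H| ≤ (1 / 2) ^ H := by
    rw [hhalf, abs_le]
    constructor
    · have : (gb : ℝ) / 2 ^ H ≤ xb := by
        rw [div_le_iff₀ hH2p]; linarith
      have h2 : (0 : ℝ) < 1 / 2 ^ H := by positivity
      linarith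
    · rw [sub_le_iff_le_add, ← add_div, le_div_iff₀ hH2p]; linarith
  have hgbIcc : (gb : ℝ) / 2 ^ H ∈ Icc (0 : ℝ) 1 := by
    refine ⟨by positivity, ?_⟩
    rw [div_le_one hH2p]; exact_mod_cast hgbH.le
  have hxbIcc : xb ∈ Icc (0 : ℝ) 1 := ⟨hxb0, hxb1.le⟩
  have hxbIv : xb ∈ Icc ((gb : ℝ) / 2 ^ H) (((gb : ℝ) + 1) / 2 ^ H) := by
    constructor
    · rw [div_le_iff₀ hH2p]; linarith
    · rw [le_div_iff₀ hH2p]; linarith
  -- the property `low`
  let low : ℕ → Prop := fun γ =>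
    (∃ r : ℕ, m ≤ r ∧ r ≤ H ∧ (G r ((γ : ℝ) / 2 ^ H) : ℝ) ≤ (1 + s' + 1 / (2 * E)) * r) ∨
    (∃ u : ℕ, H ≤ u ∧ (M H γ u : ℝ) + (u - H) ≤ (1 + s' + 1 / (2 * E)) * u)
  have key1 : (1 : ℝ) / (2 * E) = 4 * (1 / (8 * E)) := by field_simp; norm_num
  have key2 : (1 : ℝ) / E = 8 * (1 / (8 * E)) := by field_simp
  have key8 : (8 : ℝ) / E = 64 * (1 / (8 * E)) := by field_simp; norm_num
  set ε : ℝ := 1 / (8 * E) with hε
  have hεpos : 0 < ε := by positivity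
  have hthr' : ∀ r : ℕ, R₁ ≤ r →
      (c : ℝ) * (Nat.size r + 1) ≤ ε * r ∧ (c : ℝ) ≤ ε * r ∧ (1 : ℝ) ≤ ε * r := by
    intro r hr
    obtain ⟨h1, h2, h3⟩ := hthr r hr
    have h4 : (r : ℝ) / (8 * E) = ε * r := by rw [hε]; ring
    rw [h4] at h1 h2 h3
    exact ⟨h1, h2, h3⟩
  have hlowa : low ga := by
    left
    refine ⟨H, hmH, le_rfl, ?_⟩
    rw [hgaR]
    have h1 := hS.dyad m H ρ hmH hρm
    have h2 : (G H ((ρ : ℝ) / 2 ^ m) : ℝ) ≤ m + H + c * (Nat.size H + 1) := by exact_mod_cast h1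
    obtain ⟨h3, h4, h5⟩ := hthr' H (by omega)
    rw [key1]
    linarith
  have hnlowb : ¬ low gb := by
    rintro (⟨r, hmr, hrH, hr⟩ | ⟨u, hHu, hu⟩)
    · have h1 := hS.near r xb ((gb : ℝ) / 2 ^ H) hxbIcc hgbIcc (hdist r hrH _ _ hgbxb)
      have h2 : (G r xb : ℝ) ≤ G r ((gb : ℝ) / 2 ^ H) + c := by exact_mod_cast h1
      have h3 := hxc r hmr
      obtain ⟨h4, h5, h6⟩ := hthr' r (by omega)
      have hr0 : (0 : ℝ) < r := by
        have : 0 < r := by omega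
        exact_mod_cast this
      rw [key1] at hr
      rw [key2] at h3
      rw [key8] at hE
      have h7 := mul_lt_mul_of_pos_right hE hr0
      have h8 := mul_pos hεpos hr0
      linarith
    · have h1 := hS.up H gb u xb hHu hxbIcc hxbIv
      have h2 : (G u xb : ℝ) ≤ M H gb u + (u - H) + c * (Nat.size u + 1) := by
        have : ((u - H : ℕ) : ℝ) = (u : ℝ) - H := by rw [Nat.cast_sub hHu]
        rw [← this]
        exact_mod_cast h1
      have h3 := hxc u (by omega)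
      obtain ⟨h4, h5, h6⟩ := hthr' u (by omega)
      have hr0 : (0 : ℝ) < u := by
        have : 0 < u := by omega
        exact_mod_cast this
      rw [key1] at hu
      rw [key2] at h3
      rw [key8] at hE
      have h7 := mul_lt_mul_of_pos_right hE hr0
      have h8 := mul_pos hεpos hr0
      linarith
  obtain ⟨γ, hγ1, hγ2, hγ3, hγ4⟩ := Step_discrete low hgab hlowa hnlowb
  have hγH : γ < 2 ^ H := by omega
  have hγIcc : (γ : ℝ) / 2 ^ H ∈ Icc (0 : ℝ) 1 := by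
    refine ⟨by positivity, ?_⟩
    rw [div_le_one hH2p]; exact_mod_cast hγH.le
  have hγIcc' : ((γ + 1 : ℕ) : ℝ) / 2 ^ H ∈ Icc (0 : ℝ) 1 := by
    refine ⟨by positivity, ?_⟩
    rw [div_le_one hH2p]
    have : γ + 1 ≤ 2 ^ H := hγH
    exact_mod_cast this
  have hγg : |((γ + 1 : ℕ) : ℝ) / 2 ^ H - (γ : ℝ) / 2 ^ H| ≤ (1 / 2) ^ H := by
    rw [hhalf, ← sub_div]
    push_cast
    rw [add_sub_cancel_left, abs_of_pos (by positivity)]
  -- all ratios at `γ` are at least `1 + s'`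
  have hrat1 : ∀ r : ℕ, m ≤ r → r ≤ H → (1 + s') * r ≤ G r ((γ : ℝ) / 2 ^ H) := by
    intro r hmr hrH
    by_contra hcon
    push Not at hcon
    apply hγ4
    left
    refine ⟨r, hmr, hrH, ?_⟩
    have h1 := hS.near r _ _ hγIcc' hγIcc (hdist r hrH _ _ hγg)
    have h2 : (G r (((γ + 1 : ℕ) : ℝ) / 2 ^ H) : ℝ) ≤ G r ((γ : ℝ) / 2 ^ H) + c := by
      exact_mod_cast h1
    obtain ⟨h4, h5, h6⟩ := hthr' r (by omega)
    rw [key1]
    linarith
  have hrat2 : ∀ u : ℕ, H ≤ u → (1 + s') * u ≤ M H γ u + (u - H : ℝ) := by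
    intro u hHu
    by_contra hcon
    push Not at hcon
    apply hγ4
    right
    refine ⟨u, hHu, ?_⟩
    have h1 := (hS.succ H γ u).1
    have h2 : (M H (γ + 1) u : ℝ) ≤ M H γ u + c := by exact_mod_cast h1
    obtain ⟨h4, h5, h6⟩ := hthr' u (by omega)
    rw [key1]
    linarith
  -- position of `Iv H γ`
  have hga' : (ρ : ℝ) / 2 ^ m ≤ (γ : ℝ) / 2 ^ H := by
    rw [← hgaR]
    have : (ga : ℝ) ≤ γ := by exact_mod_cast hγ1
    gcongr
  have hgb' : ((γ : ℝ) + 1) / 2 ^ H ≤ xb := by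
    have h1 : ((γ : ℝ) + 1) ≤ gb := by exact_mod_cast hγ2
    rw [div_le_iff₀ hH2p]; linarith
  have hgρ : (g : ℝ) / 2 ^ h ≤ (ρ : ℝ) / 2 ^ m := by
    have hhm : h ≤ m := by omega
    have hpow2 : (2 : ℝ) ^ m = 2 ^ h * 2 ^ (m - h) := by
      rw [← pow_add]; congr 1; omega
    have h1 : g * 2 ^ (m - h) ≤ ρ := by
      apply Nat.le_floor
      rw [hpow2]; push_cast
      have h2 : (g : ℝ) ≤ 2 ^ h * xb := by
        have := hxb.1
        rw [div_le_iff₀ hh2] at this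
        linarith
      have : (0 : ℝ) < 2 ^ (m - h) := by positivity
      have h1 := mul_le_mul_of_nonneg_right h2 this.le
      linarith
    have h2 : (g : ℝ) * 2 ^ (m - h) ≤ ρ := by exact_mod_cast h1
    rw [div_le_div_iff₀ hh2 hm2p, hpow2]
    have h3 := mul_le_mul_of_nonneg_left h2 hh2.le
    linarith
  have hIvIcc : ∀ x ∈ Iv H γ, x ∈ Icc (0 : ℝ) 1 := by
    intro x hx
    exact ⟨le_trans hγIcc.1 hx.1, le_trans hx.2 (le_trans hgb' hxb1.le)⟩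
  have hIvγ : ∀ x ∈ Iv H γ, |x - (γ : ℝ) / 2 ^ H| ≤ (1 / 2) ^ H := by
    intro x hx
    have h1 := hx.1
    have h2 := hx.2
    rw [add_div] at h2
    rw [hhalf, abs_le]
    have h3 : (0 : ℝ) < 1 / 2 ^ H := by positivity
    constructor <;> linarith
  have hIvxb : ∀ x ∈ Iv H γ, ∀ r : ℕ, r ≤ m → |xb - x| ≤ (1 / 2) ^ r := by
    intro x hx r hr
    have h1 := hx.1
    have h2 := hx.2
    have h4 : xb < ((ρ : ℝ) + 1) / 2 ^ m := by rw [lt_div_iff₀ hm2p]; linarith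
    rw [add_div] at h4
    have h5 : |xb - x| ≤ (1 / 2) ^ m := by
      rw [hhalf, abs_le]
      have h3 : (0 : ℝ) < 1 / 2 ^ m := by positivity
      constructor <;> linarith
    exact le_trans h5 (pow_le_pow_of_le_one (by norm_num) (by norm_num) hr)
  refine ⟨H, γ, by omega, by omega, hγH, ?_, ⟨hrat2, hrat1 H hmH le_rfl⟩, ?_, ?_⟩
  · intro x hx
    refine ⟨le_trans (le_trans hgρ hga') hx.1, le_trans hx.2 (le_trans hgb' hxb.2.le)⟩
  · intro x hx r hhr hrH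
    obtain ⟨h4, h5, h6⟩ := hthr' r (le_trans (le_trans (le_max_right _ _) hh) hhr)
    have hr0 : (0 : ℝ) ≤ r := by positivity
    have key4 : (4 : ℝ) / E = 32 * ε := by rw [hε]; field_simp; norm_num
    rw [key4]
    rcases le_total m r with hmr | hrm
    · have h1 := hS.near r ((γ : ℝ) / 2 ^ H) x hγIcc (hIvIcc x hx)
        (by rw [abs_sub_comm]; exact hdist r hrH _ _ (hIvγ x hx))
      have h2 : (G r ((γ : ℝ) / 2 ^ H) : ℝ) ≤ G r x + c := by exact_mod_cast h1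
      have h3 := hrat1 r hmr hrH
      have h7 : min s s' ≤ s' := min_le_right _ _
      have h8 := mul_le_mul_of_nonneg_right h7 hr0
      have h9 := mul_nonneg hεpos.le hr0
      linarith
    · have h1 := hS.near r xb x hxbIcc (hIvIcc x hx) (hIvxb x hx r hrm)
      have h2 : (G r xb : ℝ) ≤ G r x + c := by exact_mod_cast h1
      obtain ⟨u, hur, hu⟩ := hxa r hhr
      have h3 := good_tail hS hs0 hs1 hg.le hGood r u hhr hur
      obtain ⟨h8, h9, h10⟩ := hthr' h (le_trans (le_max_right _ _) hh)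
      have h7 : min s s' ≤ s := min_le_left _ _
      have hrh : (h : ℝ) ≤ r := by exact_mod_cast hhr
      have h11 : (r : ℝ) / E = 8 * ε * r := by rw [hε]; field_simp
      rw [h11] at hu
      have h12 := mul_le_mul_of_nonneg_right h7 hr0
      have h13 := mul_le_mul_of_nonneg_left hrh hεpos.le
      have h14 := mul_nonneg hεpos.le hr0
      linarith
  · rcases hγ3 with ⟨r, hmr, hrH, hr⟩ | ⟨u, hHu, hu⟩
    · refine ⟨r, by omega, fun x hx => ?_⟩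
      have h1 := hS.near r x ((γ : ℝ) / 2 ^ H) (hIvIcc x hx) hγIcc (hdist r hrH _ _ (hIvγ x hx))
      have h2 : (G r x : ℝ) ≤ G r ((γ : ℝ) / 2 ^ H) + c := by exact_mod_cast h1
      obtain ⟨h4, h5, h6⟩ := hthr' r (by omega)
      rw [key1] at hr
      rw [key2]
      have h7 : 0 ≤ ε * (r : ℝ) := by positivity
      linarith
    · refine ⟨u, by omega, fun x hx => ?_⟩
      have h1 := hS.up H γ u x hHu (hIvIcc x hx) hx
      have h2 : (G u x : ℝ) ≤ M H γ u + (u - H) + c * (Nat.size u + 1) := by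
        have : ((u - H : ℕ) : ℝ) = (u : ℝ) - H := by rw [Nat.cast_sub hHu]
        rw [← this]
        exact_mod_cast h1
      obtain ⟨h4, h5, h6⟩ := hthr' u (by omega)
      rw [key1] at hu
      rw [key2]
      have h7 : 0 ≤ ε * (u : ℝ) := by positivity
      linarith

end Assembly

end Pool.Agent.Helper24.DS
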