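import Pool.Agent.Helper24.DS.RTmain
import Pool.Agent.Helper24.DS.Near
import Pool.Agent.Helper24.DS.GleM
import Pool.Agent.Helper24.DS.GleM2
import Pool.Agent.Helper24.DS.Msucc
import Pool.Agent.Helper24.DS.BaseDim

/-!
# Dimension spectra of polynomial graphs: module SysEx

The complexity functions of the graph of a polynomial have the properties collected in `Sys`.
-/

set_option autoImplicit false

namespace Pool.Agent.Helper24.DS

open Filter Set

theorem exists_sys {U : Mach} (hU : IsUniversal U) {n : ℕ} (hn : 1 ≤ n) (hK : ∀ B, KEYG n B)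
    (a : Fin n → ℝ) (ha : 1 ≤ dim U a) : ∃ c, Sys (DS.G U a) (DS.M U a) c := by
  obtain ⟨c₁, h₁⟩ := G_near hU a
  obtain ⟨c₂, h₂⟩ := G_le_M hU a
  obtain ⟨c₃, h₃⟩ := G_le_M' hU a
  obtain ⟨c₄, h₄⟩ := M_succ hU a
  obtain ⟨c₅, h₅⟩ := G_dyadic hU a
  refine ⟨c₁ + c₂ + c₃ + c₄ + c₅, ?_, ?_, ?_, ?_, ?_, ?_, ?_⟩
  · intro r x y hx hy hxy
    have := h₁ r x y hx hy hxy
    omega
  · intro h g u x hhu hx hxg
    have h6 := h₂ h g u x hhu hx hxg
    have h7 : c₂ * (Nat.size u + 1) ≤ (c₁ + c₂ + c₃ + c₄ + c₅) * (Nat.size u + 1) :=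
      Nat.mul_le_mul_right _ (by omega)
    omega
  · intro h g u huh hg
    have h6 := h₃ h g u huh hg
    have h7 : c₃ * (Nat.size h + 1) ≤ (c₁ + c₂ + c₃ + c₄ + c₅) * (Nat.size h + 1) :=
      Nat.mul_le_mul_right _ (by omega)
    omega
  · intro h g u
    have h6 := h₄ h g u
    omega
  · intro m h g hmh hg
    have h6 := h₅ m h g hmh hg
    have h7 : c₅ * (Nat.size h + 1) ≤ (c₁ + c₂ + c₃ + c₄ + c₅) * (Nat.size h + 1) :=
      Nat.mul_le_mul_right _ (by omega)
    omega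
  · exact RT hU hn hK a
  · exact base_of_dim hU a ha

end Pool.Agent.Helper24.DS
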