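import Pool.Agent.Helper24.DS.Base

/-!
# Dimension spectra of polynomial graphs: module Wl
-/

set_option autoImplicit false

namespace Pool.Agent.Helper24.DS

open Filter Set

theorem wl_prefix (e : ℕ → ℕ → Option ℕ) (w r h g : ℕ) {s s' : ℕ} (hs : s ≤ s') :
    wl e w r h g s <+: wl e w r h g s' := by
  unfold wl
  apply List.IsPrefix.filterMap
  obtain ⟨d, rfl⟩ := Nat.exists_eq_add_of_le hs
  rw [List.range_add]
  exact List.prefix_append _ _

theorem wl_nodup (e : ℕ → ℕ → Option ℕ) (w r h g s : ℕ) : (wl e w r h g s).Nodup := by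
  unfold wl
  apply List.Nodup.filterMap _ List.nodup_range
  intro t t' b hb hb'
  rw [Option.mem_def] at hb hb'
  split_ifs at hb with h1
  split_ifs at hb' with h2
  rcases lt_trichotomy t t' with hlt | heq | hgt
  · exact absurd (hb.trans hb'.symm) (h2.1.2 t hlt)
  · exact heq
  · exact absurd (hb'.trans hb.symm) (h1.1.2 t' hgt)

theorem mem_wl {e : ℕ → ℕ → Option ℕ} {w r h g s : ℕ} {z : ℤ × ℤ} :
    z ∈ wl e w r h g s ↔ (∃ t < s, ep e w t = some z) ∧ z.1 / (2 : ℤ) ^ (r - h) = (g : ℤ) := by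
  unfold wl
  rw [List.mem_filterMap]
  constructor
  · rintro ⟨t, ht, hz⟩
    rw [List.mem_range] at ht
    split_ifs at hz with h1
    obtain ⟨-, z', hz', hg⟩ := h1
    rw [Option.mem_def, hz] at hz'
    have : z = z' := Option.some_injective _ hz'
    rw [← this] at hg
    exact ⟨⟨t, ht, hz⟩, hg⟩
  · rintro ⟨⟨t, ht, hz⟩, hg⟩
    have hex : ∃ t, ep e w t = some z := ⟨t, hz⟩
    classical
    refine ⟨Nat.find hex, ?_, ?_⟩
    · rw [List.mem_range]
      exact lt_of_le_of_lt (Nat.find_min' hex hz) ht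
    · have h1 := Nat.find_spec hex
      rw [if_pos]
      · exact h1
      · refine ⟨⟨by rw [h1]; rfl, ?_⟩, z, by rw [Option.mem_def]; exact h1, hg⟩
        intro t' ht' heq
        rw [h1] at heq
        exact Nat.find_min hex ht' heq

theorem ep_eq_some_iff {U : Mach} {e : ℕ → ℕ → Option ℕ}
    (he : ∀ w n, (∃ s, e w s = some n) ↔ KC U n ≤ w) (w : ℕ) (z : ℤ × ℤ) :
    (∃ s, ep e w s = some z) ↔ KC U z ≤ w := by
  have hKC : KC U z = KC U (Encodable.encode z) := rfl
  rw [hKC, ← he]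
  constructor
  · rintro ⟨s, hs⟩
    unfold ep at hs
    obtain ⟨n, hn, hd⟩ := Option.bind_eq_some_iff.1 hs
    refine ⟨s, ?_⟩
    have h1 : (Encodable.decode n : Option (ℤ × ℤ)) = some (Denumerable.ofNat (ℤ × ℤ) n) :=
      Denumerable.decode_eq_ofNat (ℤ × ℤ) n
    rw [hd] at h1
    have h2 : z = Denumerable.ofNat (ℤ × ℤ) n := Option.some_injective _ h1
    have h3 : Encodable.encode z = n := by
      rw [h2]
      exact Denumerable.encode_ofNat n
    rw [h3]
    exact hn
  · rintro ⟨s, hs⟩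
    refine ⟨s, ?_⟩
    unfold ep
    rw [hs]
    exact Encodable.encodek z

theorem block_eq_of_prefix {l l' : List (ℤ × ℤ)} (hl : l <+: l') {m k : ℕ} (hm : 1 ≤ m)
    (hlen : m * 2 ^ k ≤ l.length) : block l m k = block l' m k := by
  obtain ⟨t, rfl⟩ := hl
  unfold block
  have h1 : (m - 1) * 2 ^ k + 2 ^ k = m * 2 ^ k := by
    obtain ⟨m', rfl⟩ : ∃ m', m = m' + 1 := ⟨m - 1, by omega⟩
    rw [Nat.add_sub_cancel]
    ring
  have h0 : 0 < 2 ^ k := by positivity
  rw [List.drop_append_of_le_length (by omega),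
    List.take_append_of_le_length (by rw [List.length_drop]; omega)]

theorem length_block {l : List (ℤ × ℤ)} {m k : ℕ} (hm : 1 ≤ m) (hlen : m * 2 ^ k ≤ l.length) :
    (block l m k).length = 2 ^ k := by
  unfold block
  have h1 : (m - 1) * 2 ^ k + 2 ^ k = m * 2 ^ k := by
    obtain ⟨m', rfl⟩ : ∃ m', m = m' + 1 := ⟨m - 1, by omega⟩
    rw [Nat.add_sub_cancel]
    ring
  have h0 : 0 < 2 ^ k := by positivity
  rw [List.length_take, List.length_drop]
  omega

end Pool.Agent.Helper24.DS
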